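import Pool.Agent.H75.Fib.NCR

/-! # FIB, module DIF: the property `Inv` through differences, noncritical values -/

set_option autoImplicit false

namespace Pool.Agent.H75.Mono

open MvPolynomial Pool.Agent.H39.MonoR

section DIF

variable {k : Type} [Field k] [Algebra k ℂ] {σ : Type} [Finite σ]

theorem Inv.dif {f : MvPolynomial σ k} {S : Set (ℤ × ℕ)} (h : Inv f S) :
    RatF (Lu k) S fun t : Test k => PowerSeries.mk fun d => zt f d t - zt f d t.zr := by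
  obtain ⟨u, hu⟩ := h
  have h1 := hu.sub (hu.comp (fun t : Test k => t.zr))
  rw [Set.union_self] at h1
  refine h1.congr fun t => ?_
  ext n
  rw [map_sub, PowerSeries.coeff_mk, PowerSeries.coeff_mk, PowerSeries.coeff_mk]
  have : mass t.zr = mass t := rfl
  rw [this]
  ring

private theorem dif_zr (f : MvPolynomial σ k) (d : ℕ) (t : Test k) :
    zt f d t.zr = zt f d (tpt0 k) * mass t := by
  have hc : ICons k {φ : σ × Fin (d + 1) → ℂ | Hit f d φ 0} := by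
    have := ICons.hit (E := σ × Fin (d + 1) → ℂ) (φ := fun φ => φ) d f PMap.id'
      (PFun.zero (k := k))
    exact this
  have h1 : mo k {x : (σ × Fin (d + 1) → ℂ) × t.zr.E | x.2 ∈ t.zr.W ∧
      Hit f d x.1 (t.zr.c x.2)} = mo k {φ : σ × Fin (d + 1) → ℂ | Hit f d φ 0} * mass t := by
    rw [mass, ← mo_prod hc t.cW]
    congr 1
    ext x
    exact and_comm
  have h2 : mo k {x : (σ × Fin (d + 1) → ℂ) × (tpt0 k).E | x.2 ∈ (tpt0 k).W ∧
      Hit f d x.1 ((tpt0 k).c x.2)} = mo k {φ : σ × Fin (d + 1) → ℂ | Hit f d φ 0} := by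
    have h3 := mo_prod (k := k) hc (ICons.univ (k := k) (E := Unit))
    rw [mo_univ_unit, mul_one] at h3
    rw [← h3]
    congr 1
    ext x
    exact and_comm
  rw [zt, h1, zt, h2]
  ring

/-- the terms with `d ≥ 1` suffice -/
theorem Inv.of_dif {f : MvPolynomial σ k} {S : Set (ℤ × ℕ)}
    (h : RatF (Lu k) S fun t : Test k =>
      PowerSeries.mk fun d => if d = 0 then 0 else zt f d t - zt f d t.zr) : Inv f S := by
  refine ⟨fun d => zt f d (tpt0 k), h.of_eventually 1 fun t n hn => ?_⟩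
  rw [PowerSeries.coeff_mk, PowerSeries.coeff_mk, if_neg (by omega), dif_zr]

/-- noncritical values -/
theorem Inv.of_sm {f : MvPolynomial σ k} {a : k} (h : Sm f (algebraMap k ℂ a)) :
    Inv (f - C a) ∅ := by
  refine Inv.of_dif (RatF.of_fin 0 fun t d _ => ?_)
  rw [PowerSeries.coeff_mk]
  by_cases hd : d = 0
  · rw [if_pos hd]
  rw [if_neg hd, sub_eq_zero]
  have hd0 : 0 < d := Nat.pos_of_ne_zero hd
  have h1 := mo_nc (f - C a) hd0 (Q := Set.univ) (ICons.univ (k := k)) t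
  have h2 : ∀ (φ : σ × Fin (d + 1) → ℂ) (c : ℂ), Hit (f - C a) d φ c →
      org φ ∈ (Set.univ : Set (σ → ℂ)) ∧ ∃ i, aeval (org φ) (pderiv i (f - C a)) ≠ 0 := by
    intro φ c hh
    refine ⟨Set.mem_univ _, ?_⟩
    have h3 := hh 0 (Nat.zero_le _)
    rw [if_neg (fun h => hd h.symm), coeff_zero_arcEval, map_sub, aeval_C, sub_eq_zero] at h3
    obtain ⟨i, hi⟩ := h _ h3
    refine ⟨i, ?_⟩
    rw [map_sub, pderiv_C, sub_zero]
    exact hi
  have e1 : {x : (σ × Fin (d + 1) → ℂ) × t.E | x.2 ∈ t.W ∧ Hit (f - C a) d x.1 (t.c x.2)} =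
      {x : (σ × Fin (d + 1) → ℂ) × t.E | x.2 ∈ t.W ∧ org x.1 ∈ (Set.univ : Set (σ → ℂ)) ∧
        (∃ i, aeval (org x.1) (pderiv i (f - C a)) ≠ 0) ∧ Hit (f - C a) d x.1 (t.c x.2)} := by
    ext x
    constructor
    · rintro ⟨h4, h5⟩
      exact ⟨h4, (h2 _ _ h5).1, (h2 _ _ h5).2, h5⟩
    · rintro ⟨h4, -, -, h5⟩
      exact ⟨h4, h5⟩
  have e2 : {x : (σ × Fin (d + 1) → ℂ) × t.E | x.2 ∈ t.W ∧ Hit (f - C a) d x.1 0} =
      {x : (σ × Fin (d + 1) → ℂ) × t.E | x.2 ∈ t.W ∧ org x.1 ∈ (Set.univ : Set (σ → ℂ)) ∧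
        (∃ i, aeval (org x.1) (pderiv i (f - C a)) ≠ 0) ∧ Hit (f - C a) d x.1 0} := by
    ext x
    constructor
    · rintro ⟨h4, h5⟩
      exact ⟨h4, (h2 _ _ h5).1, (h2 _ _ h5).2, h5⟩
    · rintro ⟨h4, -, -, h5⟩
      exact ⟨h4, h5⟩
  have e3 : mo k {x : (σ × Fin (d + 1) → ℂ) × t.E | x.2 ∈ t.W ∧
      Hit (f - C a) d x.1 (t.c x.2)} =
      mo k {x : (σ × Fin (d + 1) → ℂ) × t.E | x.2 ∈ t.W ∧ Hit (f - C a) d x.1 0} := by
    rw [e1, e2]
    exact h1
  unfold zt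
  rw [e3]
  rfl

end DIF

end Pool.Agent.H75.Mono
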