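import Pool.Agent.H75.Fib.NCR

/-! # FIB, module BSE: base points -/

set_option autoImplicit false

namespace Pool.Agent.H75.Mono

open MvPolynomial Pool.Agent.H39.MonoR

section BSE

variable {k : Type} [Field k] [Algebra k ℂ] {r : ℕ} {τ : Fin r → Type}

theorem cmp_shf (G : MvPolynomial (Fin r) k) (f : ∀ i, MvPolynomial (τ i) k) (b : Fin r → k)
    (a : k) : cmp (shf G b a) (fun i => f i - C (b i)) = cmp G f - C a := by
  unfold Mono.cmp shf
  rw [map_sub, aeval_C, algebraMap_eq, ← AlgHom.comp_apply, comp_aeval]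
  congr 3
  funext i
  rw [map_add, aeval_X, aeval_C, map_sub, rename_C, algebraMap_eq, sub_add_cancel]

theorem sm_sub {σ : Type} {f : MvPolynomial σ k} {a : k} :
    Sm (f - C a) 0 ↔ Sm f (algebraMap k ℂ a) := by
  unfold Sm
  refine forall_congr' fun x => ?_
  rw [map_sub, aeval_C, sub_eq_zero]
  simp only [map_sub, pderiv_C, sub_zero]

/-- the origin lies over `b` -/
private def bseP (f : ∀ i, MvPolynomial (τ i) k) (b : Fin r → k) : Set ((Σ i, τ i) → ℂ) :=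
  {y | ∀ i, aeval (fun z => y ⟨i, z⟩) (f i) = algebraMap k ℂ (b i)}

private theorem bse_icons [∀ i, Finite (τ i)] (f : ∀ i, MvPolynomial (τ i) k) (b : Fin r → k) :
    ICons k (bseP f b) := by
  unfold bseP
  refine ICons.forall_fin fun i => ICons.eq ?_ (PFun.const (b i))
  refine ⟨rename (Sigma.mk i) (f i), fun x => ?_⟩
  rw [aeval_rename]
  rfl

private theorem bse_coeff {d : ℕ} (f : ∀ i, MvPolynomial (τ i) k) (b : Fin r → k)
    (ψ : (Σ i, τ i) × Fin (d + 1) → ℂ) (i : Fin r) :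
    PowerSeries.coeff 0 (us (fun i => f i - C (b i)) ψ i) = 0 ↔
      aeval (fun z => org ψ ⟨i, z⟩) (f i) = algebraMap k ℂ (b i) := by
  unfold us
  rw [coeff_zero_arcEval, map_sub, aeval_C, sub_eq_zero]
  rfl

private theorem bse_mem {d : ℕ} (f : ∀ i, MvPolynomial (τ i) k) (b : Fin r → k)
    (ψ : (Σ i, τ i) × Fin (d + 1) → ℂ) :
    (∀ i, PowerSeries.coeff 0 (us (fun i => f i - C (b i)) ψ i) = 0) ↔ org ψ ∈ bseP f b :=
  forall_congr' fun i => bse_coeff f b ψ i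

private theorem bse_aeval_cmp (G : MvPolynomial (Fin r) k) (f : ∀ i, MvPolynomial (τ i) k)
    (y : (Σ i, τ i) → ℂ) :
    aeval y (Mono.cmp G f) = aeval (fun i => aeval (fun z => y ⟨i, z⟩) (f i)) G := by
  unfold Mono.cmp
  rw [← AlgHom.comp_apply, comp_aeval]
  congr 2
  funext i
  rw [aeval_rename]
  rfl

private theorem bse_sum {J : Type*} (s : Finset J) (g h : J → M k) (a : M k) :
    (∑ j ∈ s, g j - ∑ j ∈ s, h j) * a = ∑ j ∈ s, (g j - h j) * a := by
  classical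
  induction s using Finset.induction_on with
  | empty => simp
  | insert i s hi ih =>
    rw [Finset.sum_insert hi, Finset.sum_insert hi, Finset.sum_insert hi, ← ih]
    ring

/-- over the complement of the base points the origin of the arc is not critical -/
private theorem bse_nc {G : MvPolynomial (Fin r) k} {f : ∀ i, MvPolynomial (τ i) k} {a : k}
    {T : Finset (Fin r → k)}
    (h1 : ∀ x : Fin r → ℂ, aeval x G = algebraMap k ℂ a →
      (∀ i, aeval x (pderiv i G) = 0 ∨ ¬ Sm (f i) (x i)) →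
        ∃ b ∈ T, ∀ i, x i = algebraMap k ℂ (b i)) {d : ℕ} (hd : 0 < d)
    {ψ : (Σ i, τ i) × Fin (d + 1) → ℂ} {c : ℂ} (hψ : Hit (Mono.cmp G f - C a) d ψ c)
    (hb : ¬ ∃ b ∈ T, org ψ ∈ bseP f b) :
    ∃ p, aeval (org ψ) (pderiv p (Mono.cmp G f - C a)) ≠ 0 := by
  by_contra hc
  have hc : ∀ p, aeval (org ψ) (pderiv p (Mono.cmp G f - C a)) = 0 := fun p => by
    by_contra hp
    exact hc ⟨p, hp⟩
  have h0 := hψ 0 (Nat.zero_le d)
  rw [if_neg (by omega), coeff_zero_arcEval, map_sub, aeval_C, sub_eq_zero, bse_aeval_cmp] at h0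
  apply hb
  obtain ⟨b, hbT, hb'⟩ := h1 _ h0 (fun i => by
    by_cases hG : aeval (fun i => aeval (fun z => org ψ ⟨i, z⟩) (f i)) (pderiv i G) = 0
    · exact Or.inl hG
    · right
      intro hs
      obtain ⟨y, hy⟩ := hs (fun z => org ψ ⟨i, z⟩) rfl
      have h2 := hc ⟨i, y⟩
      rw [map_sub, pderiv_C, sub_zero] at h2
      have h3 : pderiv (⟨i, y⟩ : Σ i, τ i) (Mono.cmp G f) =
          rename (Sigma.mk i) (pderiv y (f i)) * Mono.cmp (pderiv i G) f :=
        pderiv_cmp G f i y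
      rw [h3, map_mul, aeval_rename, bse_aeval_cmp] at h2
      rcases mul_eq_zero.1 h2 with h4 | h4
      · exact hy h4
      · exact hG h4)
  exact ⟨b, hbT, hb'⟩

variable [∀ i, Finite (τ i)]

private theorem bse_split {G : MvPolynomial (Fin r) k} {f : ∀ i, MvPolynomial (τ i) k} {a : k}
    {T : Finset (Fin r → k)}
    (h1 : ∀ x : Fin r → ℂ, aeval x G = algebraMap k ℂ a →
      (∀ i, aeval x (pderiv i G) = 0 ∨ ¬ Sm (f i) (x i)) →
        ∃ b ∈ T, ∀ i, x i = algebraMap k ℂ (b i)) {d : ℕ} (hd : 0 < d) (t : Test k) :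
    mo k {x : ((Σ i, τ i) × Fin (d + 1) → ℂ) × t.E | x.2 ∈ t.W ∧
        Hit (Mono.cmp G f - C a) d x.1 (t.c x.2)} =
      (∑ b ∈ T, lvl (fun i => f i - C (b i)) (shf G b a) d
          {ψ | ∀ i, PowerSeries.coeff 0 (us (fun i => f i - C (b i)) ψ i) = 0} t) +
      mo k {x : ((Σ i, τ i) × Fin (d + 1) → ℂ) × t.E | x.2 ∈ t.W ∧
        org x.1 ∈ ({y | ∃ b ∈ T, y ∈ bseP f b} : Set _)ᶜ ∧
        (∃ p, aeval (org x.1) (pderiv p (Mono.cmp G f - C a)) ≠ 0) ∧
        Hit (Mono.cmp G f - C a) d x.1 (t.c x.2)} := by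
  have hA : ICons k {x : ((Σ i, τ i) × Fin (d + 1) → ℂ) × t.E | x.2 ∈ t.W ∧
      Hit (Mono.cmp G f - C a) d x.1 (t.c x.2)} :=
    ICons.and (t.cW.mem PMap.snd) (ICons.hit d _ PMap.fst (t.pf.comp PMap.snd))
  have hP : ∀ b, ICons k {x : ((Σ i, τ i) × Fin (d + 1) → ℂ) × t.E | org x.1 ∈ bseP f b} :=
    fun b => (bse_icons f b).mem (f := fun x : ((Σ i, τ i) × Fin (d + 1) → ℂ) × t.E => org x.1)
      (PMap.comp (f := fun φ : (Σ i, τ i) × Fin (d + 1) → ℂ => org φ) PMap.org PMap.fst)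
  have hU : ICons k {x : ((Σ i, τ i) × Fin (d + 1) → ℂ) × t.E |
      ∃ b ∈ T, org x.1 ∈ bseP f b} := by
    have := ICons.exists_fin (k := k) (J := {b // b ∈ T})
      (p := fun b (x : ((Σ i, τ i) × Fin (d + 1) → ℂ) × t.E) => org x.1 ∈ bseP f b.1)
      (fun b => hP b.1)
    simpa only [Subtype.exists, exists_prop] using this
  rw [mo_split hA hU]
  congr 1
  · have e1 : {x : ((Σ i, τ i) × Fin (d + 1) → ℂ) × t.E |
        x ∈ {x : ((Σ i, τ i) × Fin (d + 1) → ℂ) × t.E | x.2 ∈ t.W ∧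
          Hit (Mono.cmp G f - C a) d x.1 (t.c x.2)} ∧ ∃ b ∈ T, org x.1 ∈ bseP f b} =
        {x | ∃ b ∈ T, x ∈ {x : ((Σ i, τ i) × Fin (d + 1) → ℂ) × t.E | (x.2 ∈ t.W ∧
          Hit (Mono.cmp G f - C a) d x.1 (t.c x.2)) ∧ org x.1 ∈ bseP f b}} := by
      ext x
      simp only [Set.mem_ofPred_eq]
      constructor
      · rintro ⟨h, b, hb, hb'⟩
        exact ⟨b, hb, h, hb'⟩
      · rintro ⟨b, hb, h, hb'⟩
        exact ⟨h, b, hb, hb'⟩
    rw [e1, mo_biUnion T (fun b _ => ICons.and hA (hP b))]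
    · refine Finset.sum_congr rfl fun b _ => ?_
      unfold lvl
      congr 1
      ext x
      simp only [Set.mem_ofPred_eq]
      rw [bse_mem]
      unfold Hit
      simp only [← arcEval_cmp, cmp_shf]
      tauto
    · intro b _ b' _ hbb
      rw [Set.disjoint_left]
      rintro x ⟨_, hx⟩ ⟨_, hx'⟩
      apply hbb
      funext i
      exact (algebraMap k ℂ).injective ((hx i).symm.trans (hx' i))
  · congr 1
    ext x
    simp only [Set.mem_ofPred_eq, Set.mem_compl_iff]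
    constructor
    · rintro ⟨⟨h2, h3⟩, h4⟩
      exact ⟨h2, h4, bse_nc h1 hd h3 h4, h3⟩
    · rintro ⟨h2, h3, _, h4⟩
      exact ⟨⟨h2, h4⟩, h3⟩

/-- only the arcs over the base points `b ∈ T` depend on `c` -/
theorem zt_base {G : MvPolynomial (Fin r) k} {f : ∀ i, MvPolynomial (τ i) k} {a : k}
    {T : Finset (Fin r → k)}
    (h1 : ∀ x : Fin r → ℂ, aeval x G = algebraMap k ℂ a →
      (∀ i, aeval x (pderiv i G) = 0 ∨ ¬ Sm (f i) (x i)) →
        ∃ b ∈ T, ∀ i, x i = algebraMap k ℂ (b i))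
    (h2 : ∀ b ∈ T, eval b G = a) {d : ℕ} (hd : 0 < d) (t : Test k) :
    zt (cmp G f - C a) d t - zt (cmp G f - C a) d t.zr = ∑ b ∈ T,
      (lvl (fun i => f i - C (b i)) (shf G b a) d
          {ψ | ∀ i, PowerSeries.coeff 0 (us (fun i => f i - C (b i)) ψ i) = 0} t -
        lvl (fun i => f i - C (b i)) (shf G b a) d
          {ψ | ∀ i, PowerSeries.coeff 0 (us (fun i => f i - C (b i)) ψ i) = 0} t.zr) *
      ↑(Lu k ^ (-((Nat.card (Σ i, τ i) * d : ℕ) : ℤ))) := by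
  have hP : ICons k ({y : (Σ i, τ i) → ℂ | ∃ b ∈ T, y ∈ bseP f b} : Set _)ᶜ := by
    have := ICons.exists_fin (k := k) (J := {b // b ∈ T})
      (p := fun b (x : (Σ i, τ i) → ℂ) => x ∈ bseP f b.1) (fun b => bse_icons f b.1)
    have h3 : ICons k {y : (Σ i, τ i) → ℂ | ∃ b ∈ T, y ∈ bseP f b} := by
      simpa only [Subtype.exists, exists_prop] using this
    exact h3.compl
  have e1 := bse_split h1 hd t
  have e2 := bse_split h1 hd t.zr
  have e3 := mo_nc (Mono.cmp G f - C a) hd hP t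
  unfold zt
  rw [e1, e2, ← sub_mul, e3]
  have e4 : mo k {x : ((Σ i, τ i) × Fin (d + 1) → ℂ) × t.zr.E | x.2 ∈ t.zr.W ∧
        org x.1 ∈ ({y | ∃ b ∈ T, y ∈ bseP f b} : Set _)ᶜ ∧
        (∃ p, aeval (org x.1) (pderiv p (Mono.cmp G f - C a)) ≠ 0) ∧
        Hit (Mono.cmp G f - C a) d x.1 (t.zr.c x.2)} =
      mo k {x : ((Σ i, τ i) × Fin (d + 1) → ℂ) × t.E | x.2 ∈ t.W ∧
        org x.1 ∈ ({y | ∃ b ∈ T, y ∈ bseP f b} : Set _)ᶜ ∧
        (∃ p, aeval (org x.1) (pderiv p (Mono.cmp G f - C a)) ≠ 0) ∧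
        Hit (Mono.cmp G f - C a) d x.1 0} := rfl
  rw [e4, add_sub_add_right_eq_sub]
  exact bse_sum T _ _ _

end BSE

end Pool.Agent.H75.Mono
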