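import Pool.Agent.H75.Fib.F0

/-! # FIB, module EQV: renaming of variables -/

set_option autoImplicit false

namespace Pool.Agent.H75.Mono

open MvPolynomial Pool.Agent.H39.MonoR

section EQV

variable {k : Type} [Field k] [Algebra k ℂ] {σ τ : Type}

private theorem eqv_arc {N : ℕ} (e : σ → τ) (f : MvPolynomial σ k) (x : τ × Fin N → ℂ) :
    arcEval k x (rename e f) = arcEval k (fun p : σ × Fin N => x (e p.1, p.2)) f := by
  unfold arcEval
  rw [aeval_rename]
  rfl

private theorem eqv_hit {N : ℕ} (e : σ → τ) (f : MvPolynomial σ k) (d : ℕ) (x : τ × Fin N → ℂ)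
    (c : ℂ) : Hit (rename e f) d x c ↔ Hit f d (fun p : σ × Fin N => x (e p.1, p.2)) c := by
  unfold Hit
  simp only [eqv_arc]

theorem zt_equiv [Finite σ] [Finite τ] (e : σ ≃ τ) (f : MvPolynomial σ k) (d : ℕ) (t : Test k) :
    zt (rename e f) d t = zt f d t := by
  unfold zt
  rw [Nat.card_congr e]
  congr 1
  have hA : ICons k {x : (τ × Fin (d + 1) → ℂ) × t.E | x.2 ∈ t.W ∧
      Hit (rename e f) d x.1 (t.c x.2)} :=
    ICons.and (t.cW.mem PMap.snd) (ICons.hit d _ PMap.fst (t.pf.comp PMap.snd))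
  have hB : ICons k {x : (σ × Fin (d + 1) → ℂ) × t.E | x.2 ∈ t.W ∧ Hit f d x.1 (t.c x.2)} :=
    ICons.and (t.cW.mem PMap.snd) (ICons.hit d _ PMap.fst (t.pf.comp PMap.snd))
  refine mo_bij hA hB (f := fun x => (fun p : σ × Fin (d + 1) => x.1 (e p.1, p.2), x.2))
    (PMap.prodMk (PMap.pi fun a => PFun.comp (F := τ × Fin (d + 1) → ℂ)
      (f := fun y => y (e a.1, a.2)) (PFun.apply (k := k) (e a.1, a.2)) PMap.fst) PMap.snd) ?_
  refine ⟨?_, ?_, ?_⟩
  · rintro ⟨x, w⟩ ⟨h1, h2⟩
    exact ⟨h1, (eqv_hit _ _ _ _ _).1 h2⟩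
  · rintro ⟨x, w⟩ _ ⟨y, v⟩ _ h
    have h1 := (Prod.mk.inj h).1
    have h2 := (Prod.mk.inj h).2
    refine Prod.ext ?_ h2
    funext p
    have h3 := congrFun h1 (e.symm p.1, p.2)
    simpa using h3
  · rintro ⟨y, v⟩ ⟨h1, h2⟩
    refine ⟨(fun p => y (e.symm p.1, p.2), v), ⟨h1, (eqv_hit _ _ _ _ _).2 ?_⟩, ?_⟩
    · have e1 : (fun p : σ × Fin (d + 1) => (fun p : τ × Fin (d + 1) => y (e.symm p.1, p.2))
          (e p.1, p.2)) = y := by
        funext p
        simp
      rw [e1]
      exact h2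
    · refine Prod.ext ?_ rfl
      funext p
      simp

theorem Inv.equiv [Finite σ] [Finite τ] (e : σ ≃ τ) {f : MvPolynomial σ k} {S : Set (ℤ × ℕ)}
    (h : Inv f S) : Inv (rename e f) S := by
  obtain ⟨u, hu⟩ := h
  refine ⟨u, ?_⟩
  have e1 : (fun t : Test k => PowerSeries.mk fun d => zt (rename e f) d t - u d * mass t) =
      fun t : Test k => PowerSeries.mk fun d => zt f d t - u d * mass t := by
    funext t
    congr 1
    funext d
    rw [zt_equiv]
  rw [e1]
  exact hu

omit [Algebra k ℂ] in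
private theorem eqv_pderiv {e : σ → τ} (f : MvPolynomial σ k) {j : τ} (hj : j ∉ Set.range e) :
    pderiv j (rename e f) = 0 := by
  apply pderiv_eq_zero_of_notMem_vars
  intro h
  obtain ⟨i, _, hi⟩ := mem_vars_rename e f h
  exact hj ⟨i, hi⟩

/-- critical values do not depend on superfluous variables -/
theorem sm_rename {e : σ → τ} (he : Function.Injective e) {f : MvPolynomial σ k} {a : ℂ} :
    Sm (rename e f) a ↔ Sm f a := by
  classical
  constructor
  · intro h x hx
    have h0 : (Function.extend e x 0) ∘ e = x := by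
      funext i
      exact he.extend_apply x 0 i
    obtain ⟨j, hj⟩ := h (Function.extend e x 0) (by rw [aeval_rename, h0, hx])
    by_cases hj' : j ∈ Set.range e
    · obtain ⟨i, rfl⟩ := hj'
      refine ⟨i, ?_⟩
      rw [pderiv_rename he, aeval_rename, h0] at hj
      exact hj
    · rw [eqv_pderiv f hj', map_zero] at hj
      exact absurd rfl hj
  · intro h y hy
    rw [aeval_rename] at hy
    obtain ⟨i, hi⟩ := h (y ∘ e) hy
    refine ⟨e i, ?_⟩
    rw [pderiv_rename he, aeval_rename]
    exact hi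

theorem nc_rename {e : σ → τ} (he : Function.Injective e) {f : MvPolynomial σ k} :
    Nc (rename e f) ↔ Nc f := by
  constructor
  · rintro ⟨j, hj⟩
    by_cases hj' : j ∈ Set.range e
    · obtain ⟨i, rfl⟩ := hj'
      refine ⟨i, fun h => hj ?_⟩
      rw [pderiv_rename he, h, map_zero]
    · exact absurd (eqv_pderiv f hj') hj
  · rintro ⟨i, hi⟩
    refine ⟨e i, fun h => hi ?_⟩
    rw [pderiv_rename he] at h
    exact rename_injective e he (by rw [h, map_zero])

/-- Euler's formula: weighted homogeneous polynomials have no nonzero critical values -/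
theorem QH.sm {f : MvPolynomial σ k} (h : QH f) {a : ℂ} (ha : a ≠ 0) : Sm f a := by
  classical
  obtain ⟨w, N, hN, hw⟩ := h
  obtain ⟨s, g, rfl⟩ : ∃ (s : Finset σ) (g : MvPolynomial {x // x ∈ s} k),
      rename Subtype.val g = f := by
    obtain ⟨g, hg⟩ := exists_rename_eq_of_vars_subset_range f
      (Subtype.val : {x // x ∈ f.vars} → σ) Subtype.val_injective
      (fun x hx => ⟨⟨x, Finset.mem_coe.1 hx⟩, rfl⟩)
    exact ⟨_, g, hg⟩
  rw [sm_rename Subtype.val_injective]
  have hw' : IsWeightedHomogeneous (fun i : {x // x ∈ s} => w i.1) g N := by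
    intro m hm
    have h1 : coeff (m.mapDomain Subtype.val) (rename Subtype.val g) ≠ 0 := by
      rw [coeff_rename_mapDomain _ Subtype.val_injective]
      exact hm
    rw [← hw h1, Finsupp.weight_apply, Finsupp.weight_apply, Finsupp.sum_mapDomain_index
      (by intro b; simp) (by intro b m₁ m₂; rw [add_smul])]
  have hE := hw'.sum_weight_X_mul_pderiv
  intro x hx
  by_contra hc
  have hc : ∀ i, aeval x (pderiv i g) = 0 := fun i => by
    by_contra hi
    exact hc ⟨i, hi⟩
  have h2 := congrArg (aeval x) hE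
  rw [map_sum, map_nsmul, hx] at h2
  have h3 : ∑ i : {x // x ∈ s}, aeval x (w i.1 • (MvPolynomial.X i * pderiv i g)) = 0 := by
    refine Finset.sum_eq_zero fun i _ => ?_
    rw [map_nsmul, map_mul, hc i, mul_zero, smul_zero]
  rw [h3] at h2
  have h4 : (N : ℂ) * a = 0 := by
    rw [← nsmul_eq_mul]
    exact h2.symm
  rcases mul_eq_zero.1 h4 with h5 | h5
  · exact hN.ne' (by exact_mod_cast h5)
  · exact ha h5

end EQV

end Pool.Agent.H75.Mono
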