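import Pool.Agent.H75.Fib.FC
import Pool.Agent.H75.Fib.EQV
import Pool.Agent.H75.Mono.FIN2

/-! # FIB, module CMPF: composites are fibrewise composites -/

set_option autoImplicit false

namespace Pool.Agent.H75.Mono

open MvPolynomial Pool.Agent.H39.MonoR

section CMPF

variable {k : Type} [Field k] [Algebra k ℂ] {σ : Type} [DecidableEq σ]

private theorem cmpf_exists_pn {s : Finset σ} {f : MvPolynomial σ k} (h : Comp s f) :
    ∃ (τ : Type) (_ : Finite τ) (g : MvPolynomial τ k)
      (e : τ → σ), Function.Injective e ∧ (∀ x, e x ∈ s) ∧ f = rename e g ∧ Pn g := by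
  induction h with
  | var i =>
    refine ⟨Unit, inferInstance, X (), fun _ => i, fun _ _ _ => rfl, by simp, ?_, Pn.var⟩
    rw [rename_X]
  | smul c hc _ ih =>
    obtain ⟨τ, hτ, g, e, h1, h2, rfl, h4⟩ := ih
    exact ⟨τ, hτ, C c * g, e, h1, h2, by rw [map_mul, rename_C], h4.smul hc⟩
  | pow m hm _ ih =>
    obtain ⟨τ, hτ, g, e, h1, h2, rfl, h4⟩ := ih
    exact ⟨τ, hτ, g ^ m, e, h1, h2, by rw [map_pow], h4.pow hm⟩
  | mul hst _ _ ih1 ih2 =>
    obtain ⟨τ, hτ, g, e, h1, h2, rfl, h4⟩ := ih1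
    obtain ⟨τ', hτ', g', e', h1', h2', rfl, h4'⟩ := ih2
    refine ⟨τ ⊕ τ', inferInstance, smul' g g', Sum.elim e e', ?_, ?_, ?_, h4.mul h4'⟩
    · refine Function.Injective.sumElim h1 h1' fun a b hab => ?_
      exact Finset.disjoint_left.1 hst (h2 a) (hab ▸ h2' b)
    · rintro (x | x)
      · exact Finset.mem_union_left _ (h2 x)
      · exact Finset.mem_union_right _ (h2' x)
    · rw [smul', map_mul, rename_rename, rename_rename]
      rfl
  | add hst _ _ ih1 ih2 =>
    obtain ⟨τ, hτ, g, e, h1, h2, rfl, h4⟩ := ih1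
    obtain ⟨τ', hτ', g', e', h1', h2', rfl, h4'⟩ := ih2
    refine ⟨τ ⊕ τ', inferInstance, sadd g g', Sum.elim e e', ?_, ?_, ?_, h4.add h4'⟩
    · refine Function.Injective.sumElim h1 h1' fun a b hab => ?_
      exact Finset.disjoint_left.1 hst (h2 a) (hab ▸ h2' b)
    · rintro (x | x)
      · exact Finset.mem_union_left _ (h2 x)
      · exact Finset.mem_union_right _ (h2' x)
    · rw [sadd, map_add, rename_rename, rename_rename]
      rfl
  | @gate r s f w n G B hw hG hI hd hB _ ih =>
    have key : ∀ i, ∃ (τ : Type) (_ : Finite τ) (g : MvPolynomial τ k) (e : τ → σ)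
        (S : Finset (ℤ × ℕ)), Function.Injective e ∧ (∀ x, e x ∈ s i) ∧ f i = rename e g ∧
          Dat g S ∧ ((-1, 1) : ℤ × ℕ) ∈ S ∧ (i ∈ B → S = {(-1, 1)} ∧ ∃ x, g = X x) := by
      intro i
      obtain ⟨τ, hτ, g, e, h1, h2, h3, h4⟩ := ih i
      by_cases hi : i ∈ B
      · obtain ⟨j, hj⟩ := hB i hi
        obtain ⟨x, hx⟩ := X_eq_rename (hj.symm.trans h3)
        refine ⟨Unit, inferInstance, X (), fun _ => j, {(-1, 1)}, fun _ _ _ => rfl,
          fun _ => hx ▸ h2 x, ?_, Dat.var, Finset.mem_singleton_self _, fun _ => ⟨rfl, (), rfl⟩⟩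
        rw [hj, rename_X]
      · obtain ⟨S, hS, hS1⟩ := h4.dat
        exact ⟨τ, hτ, g, e, S, h1, h2, h3, hS, hS1, fun h => absurd h hi⟩
    choose τ hτ g e S h1 h2 h3 h4 h5 h6 using key
    refine ⟨Σ i, τ i, inferInstance, Mono.cmp G g, fun p => e p.1 p.2, ?_, ?_, ?_,
      Pn.cmp (Nat.succ_pos r) hw hG hI h4 h5 h6⟩
    · rintro ⟨i, x⟩ ⟨j, y⟩ hxy
      simp only at hxy
      by_cases hij : i = j
      · subst hij
        rw [h1 i hxy]
      · exact absurd (hxy ▸ h2 j y : e i x ∈ s j) (Finset.disjoint_left.1 (hd i j hij) (h2 i x))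
    · rintro ⟨i, x⟩
      exact Finset.mem_biUnion.2 ⟨i, Finset.mem_univ i, h2 i x⟩
    · rw [Mono.cmp, ← AlgHom.comp_apply, comp_aeval]
      congr 2
      funext i
      rw [h3 i, rename_rename]
      rfl

private theorem cmpf_nqv {s : Finset σ} {f : MvPolynomial σ k} (h : Comp s f) :
    Nc f ∧ QH f ∧ f.vars ⊆ s := by
  obtain ⟨τ, hτ, g, e, h1, h2, rfl, h4, h5, -⟩ := cmpf_exists_pn h
  refine ⟨(nc_rename h1).2 h4, ?_, ?_⟩
  · obtain ⟨w, N, hN, hw⟩ := h5
    refine ⟨Function.extend e w 0, 1 * N, by omega, QH_rename hw e _ 1 fun i => ?_⟩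
    rw [h1.extend_apply, one_mul]
  · intro j hj
    obtain ⟨i, _, rfl⟩ := mem_vars_rename e g hj
    exact h2 i

omit [DecidableEq σ] in
private theorem cmpf_sm_X (j : σ) (a : ℂ) : Sm (X j : MvPolynomial σ k) a := by
  intro x _
  refine ⟨j, ?_⟩
  rw [pderiv_X_self, map_one]
  exact one_ne_zero

private theorem cmpf_gate {r : ℕ} {s : Fin (r + 1) → Finset σ} {f : Fin (r + 1) → MvPolynomial σ k}
    {w : Fin (r + 1) → ℕ} {n : ℕ} {G : MvPolynomial (Fin (r + 1)) k}
    (B : Finset (Fin (r + 1))) (hw : ∀ i, 0 < w i ∧ w i ≤ n) (hG : IsWeightedHomogeneous w G n)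
    (hI : Isol G B) (hd : ∀ i j, i ≠ j → Disjoint (s i) (s j))
    (hB : ∀ i ∈ B, w i < n ∧ ∃ j, f i = X j) (hc : ∀ i, Comp (s i) (f i))
    (hf : ∀ i, Fib (s i) (f i) 0) : Fib (Finset.univ.biUnion s) (aeval f G) 0 := by
  have hn : 0 < n := (hw 0).1.trans_le (hw 0).2
  have hsm : ∀ i ∈ B, ∀ a, Sm (f i) a := fun i hi a => by
    obtain ⟨j, hj⟩ := (hB i hi).2
    rw [hj]
    exact cmpf_sm_X j a
  have h0 : coeff 0 G = 0 := by
    by_contra h
    have h1 := hG h
    rw [map_zero] at h1
    omega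
  refine Fib.gate {fun _ => 0} (fun _ => w) (fun _ => n) (fun _ => B) ?_ ?_ ?_ ?_ hd
    (fun i => (cmpf_nqv (hc i)).1) (fun i => (cmpf_nqv (hc i)).2.2) ?_
  · intro x hx hx'
    refine ⟨_, Finset.mem_singleton_self _, fun i => ?_⟩
    rw [map_zero]
    have h1 : x = 0 := by
      apply hI x
      · intro i hi
        rcases hx' i with h | h
        · exact h
        · exact absurd (hsm i hi _) h
      · intro i _
        rcases hx' i with h | h
        · rw [h, mul_zero]
        · have h2 : x i = 0 := by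
            by_contra h3
            exact h ((cmpf_nqv (hc i)).2.1.sm h3)
          rw [h2, zero_mul]
    rw [h1]
    rfl
  · intro b hb
    rw [Finset.mem_singleton] at hb
    subst hb
    have h1 : eval (fun _ : Fin (r + 1) => (0 : k)) G = constantCoeff G := by
      have h2 := MvPolynomial.eval_zero (σ := Fin (r + 1)) (R := k)
      have h3 : eval (fun _ : Fin (r + 1) => (0 : k)) = constantCoeff := h2
      rw [h3]
    rw [h1]
    exact h0
  · intro b hb
    rw [Finset.mem_singleton] at hb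
    subst hb
    refine ⟨hn, hw, G, 0, ?_, hG, ?_, hI⟩
    · unfold shf
      simp only [map_zero, add_zero, sub_zero]
      exact aeval_X_left_apply G
    · intro m hm
      rw [coeff_zero] at hm
      exact absurd rfl hm
  · intro b _ i hi
    exact ⟨(hB i hi).1, hsm i hi _⟩
  · intro b hb i
    rw [Finset.mem_singleton] at hb
    subst hb
    exact hf i

private theorem cmpf_fib {s : Finset σ} {f : MvPolynomial σ k} (h : Comp s f) : Fib s f 0 := by
  induction h with
  | var i =>
    refine Fib.smooth ?_ (cmpf_sm_X i _)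
    rw [vars_X]
  | @smul s f c hc hs ih =>
    have hw : IsWeightedHomogeneous (fun _ : Fin 1 => 1)
        (C c * X 0 : MvPolynomial (Fin (0 + 1)) k) 1 :=
      (isWeightedHomogeneous_X k (fun _ : Fin 1 => 1) 0).C_mul c
    have hc' : algebraMap k ℂ c ≠ 0 := by
      intro h
      exact hc ((map_eq_zero (algebraMap k ℂ)).1 h)
    have hI : Isol (C c * X 0 : MvPolynomial (Fin (0 + 1)) k) ∅ := by
      intro x _ h
      have h1 := h 0 (Finset.notMem_empty 0)
      rw [pderiv_C_mul, pderiv_X_self, mul_one, aeval_C] at h1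
      funext i
      rw [Fin.fin_one_eq_zero i]
      rcases mul_eq_zero.1 h1 with h2 | h2
      · exact h2
      · exact absurd h2 hc'
    have h1 := cmpf_gate (s := fun _ => s) (f := fun _ => f) ∅ (fun _ => ⟨one_pos, le_rfl⟩) hw hI
      (fun i j hij => absurd ((Fin.fin_one_eq_zero i).trans (Fin.fin_one_eq_zero j).symm) hij) (by simp) (fun _ => hs) (fun _ => ih)
    have e1 : Finset.univ.biUnion (fun _ : Fin (0 + 1) => s) = s := by
      ext x
      simp
    rw [e1, map_mul, aeval_C, aeval_X] at h1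
    exact h1
  | @pow s f m hm hs ih =>
    have hw : IsWeightedHomogeneous (fun _ : Fin 1 => 1)
        (X 0 ^ m : MvPolynomial (Fin (0 + 1)) k) m := by
      have := (isWeightedHomogeneous_X k (fun _ : Fin 1 => 1) 0).pow m
      simpa using this
    have hI : Isol (X 0 ^ m : MvPolynomial (Fin (0 + 1)) k) ∅ := by
      intro x _ h
      have h1 := h 0 (Finset.notMem_empty 0)
      rw [pderiv_pow, pderiv_X_self, mul_one, map_mul, map_natCast, map_pow, aeval_X] at h1
      funext i
      rw [Fin.fin_one_eq_zero i]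
      rcases mul_eq_zero.1 h1 with h2 | h2
      · exact h2
      · rcases mul_eq_zero.1 h2 with h3 | h3
        · exact absurd h3 (Nat.cast_ne_zero.2 hm)
        · exact eq_zero_of_pow_eq_zero h3
    have h1 := cmpf_gate (s := fun _ => s) (f := fun _ => f) ∅ (fun _ => ⟨one_pos, by omega⟩) hw hI
      (fun i j hij => absurd ((Fin.fin_one_eq_zero i).trans (Fin.fin_one_eq_zero j).symm) hij) (by simp) (fun _ => hs) (fun _ => ih)
    have e1 : Finset.univ.biUnion (fun _ : Fin (0 + 1) => s) = s := by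
      ext x
      simp
    rw [e1, map_pow, aeval_X] at h1
    exact h1
  | mul hst h1 h2 ih1 ih2 =>
    exact Fib.mul hst (cmpf_nqv h1).1 (cmpf_nqv h2).1 ih1 ih2
  | @add s t f g hst h1 h2 ih1 ih2 =>
    have hw : IsWeightedHomogeneous (fun _ : Fin 2 => 1)
        (X 0 + X 1 : MvPolynomial (Fin (1 + 1)) k) 1 :=
      (isWeightedHomogeneous_X k (fun _ : Fin 2 => 1) 0).add
        (isWeightedHomogeneous_X k (fun _ : Fin 2 => 1) 1)
    have hI : Isol (X 0 + X 1 : MvPolynomial (Fin (1 + 1)) k) ∅ := by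
      intro x _ h
      have h0 := h 0 (Finset.notMem_empty 0)
      have h1 := h 1 (Finset.notMem_empty 1)
      rw [map_add, pderiv_X_self, pderiv_X_of_ne (by decide), add_zero, map_one, mul_one] at h0
      rw [map_add, pderiv_X_self, pderiv_X_of_ne (by decide), zero_add, map_one, mul_one] at h1
      funext i
      fin_cases i
      · exact h0
      · exact h1
    have h3 := cmpf_gate (s := ![s, t]) (f := ![f, g]) ∅ (fun _ => ⟨one_pos, le_rfl⟩) hw hI
      (by
        intro i j hij
        fin_cases i <;> fin_cases j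
        · exact absurd rfl hij
        · exact hst
        · exact hst.symm
        · exact absurd rfl hij) (by simp)
      (by
        intro i
        fin_cases i
        · exact h1
        · exact h2)
      (by
        intro i
        fin_cases i
        · exact ih1
        · exact ih2)
    have e1 : Finset.univ.biUnion (![s, t] : Fin (1 + 1) → Finset σ) = s ∪ t := by
      ext x
      simp [Fin.exists_fin_two]
    rw [e1, map_add, aeval_X, aeval_X] at h3
    exact h3
  | @gate r s f w n G B hw hG hI hd hB hc ih =>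
    exact cmpf_gate B (fun i => ⟨(hw i).1, (hw i).2.le⟩) hG hI hd
      (fun i hi => ⟨(hw i).2, hB i hi⟩) hc ih

theorem Comp.fib {s : Finset σ} {f : MvPolynomial σ k} (h : Comp s f) :
    Fib s f 0 ∧ Nc f ∧ QH f ∧ f.vars ⊆ s :=
  ⟨cmpf_fib h, cmpf_nqv h⟩

end CMPF

end Pool.Agent.H75.Mono
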