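import Pool.Agent.H75.Mono.FIN2

/-! # Project FIB (fibrewise composites, MP_432c1b_ag): definitions -/

set_option autoImplicit false

namespace Pool.Agent.H75.Mono

open MvPolynomial Pool.Agent.H39.MonoR

section F0

variable {k : Type} [Field k] [Algebra k ℂ] {σ : Type}

/-- `a` is not a critical value of `f` -/
def Sm (f : MvPolynomial σ k) (a : ℂ) : Prop :=
  ∀ x : σ → ℂ, aeval x f = a → ∃ i, aeval x (pderiv i f) ≠ 0

/-- all monomials of `P` have weight greater than `n` -/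
def Above {ι : Type} (w : ι → ℕ) (n : ℕ) (P : MvPolynomial ι k) : Prop :=
  ∀ m, coeff m P ≠ 0 → n < Finsupp.weight w m

/-- `P = H + R`, `H` is weighted homogeneous of degree `n`, all monomials of `R` have larger weight, and
the origin is the only common zero of `∂_i H`, `i ∈ B`, and `x_i ∂_i H`, `i ∉ B` -/
def SWH {r : ℕ} (w : Fin r → ℕ) (n : ℕ) (B : Finset (Fin r)) (P : MvPolynomial (Fin r) k) : Prop :=
  0 < n ∧ (∀ i, 0 < w i ∧ w i ≤ n) ∧ ∃ H R : MvPolynomial (Fin r) k, P = H + R ∧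
    IsWeightedHomogeneous w H n ∧ Above w n R ∧ Isol H B

/-- the origin of an arc -/
def org {d : ℕ} (φ : σ × Fin (d + 1) → ℂ) : σ → ℂ := fun i => φ (i, 0)

/-- the test with the function `0` -/
def Test.zr (t : Test k) : Test k := ⟨t.E, t.W, t.cW, fun _ => 0, PFun.zero⟩

/-- the polynomial `G(b + u) - a` -/
noncomputable def shf {r : ℕ} (G : MvPolynomial (Fin r) k) (b : Fin r → k) (a : k) :
    MvPolynomial (Fin r) k :=
  aeval (fun i => X i + C (b i)) G - C a

/-- the class of the arcs `ψ ∈ Q` with `G(f(ψ)) = c t^d mod t^(d+1)` -/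
noncomputable def lvl {r : ℕ} {τ : Fin r → Type} [∀ i, Finite (τ i)]
    (f : ∀ i, MvPolynomial (τ i) k) (G : MvPolynomial (Fin r) k) (d : ℕ)
    (Q : Set ((Σ i, τ i) × Fin (d + 1) → ℂ)) (t : Test k) : M k :=
  mo k {x : ((Σ i, τ i) × Fin (d + 1) → ℂ) × t.E | x.2 ∈ t.W ∧ x.1 ∈ Q ∧
    ∀ l, l ≤ d → PowerSeries.coeff l (aeval (us f x.1) G) = if l = d then t.c x.2 else 0}

/-- the class of `{Om w n d, H(pt) = c}` -/
noncomputable def topl {r : ℕ} {τ : Fin r → Type} [∀ i, Finite (τ i)]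
    (f : ∀ i, MvPolynomial (τ i) k) (H : MvPolynomial (Fin r) k) (w : Fin r → ℕ) (n d : ℕ)
    (t : Test k) : M k :=
  mo k {x : ((Σ i, τ i) × Fin (d + 1) → ℂ) × t.E | x.2 ∈ t.W ∧ Om w n d (us f x.1) ∧
        aeval (pt w n d (us f x.1)) H = t.c x.2}

end F0

end Pool.Agent.H75.Mono
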