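import Pool.Agent.H75.Fib.F0

/-! # FIB: the class of fibrewise composites -/

set_option autoImplicit false

namespace Pool.Agent.H75.Mono

open MvPolynomial Pool.Agent.H39.MonoR

/-- `Fib s f a`: `f` is a fibrewise composite at the value `a`, in the variables `x_i`, `i ∈ s` -/
inductive Fib {k : Type} [Field k] [Algebra k ℂ] {σ : Type} [DecidableEq σ] :
    Finset σ → MvPolynomial σ k → k → Prop
  | smooth {s : Finset σ} {f : MvPolynomial σ k} {a : k} : f.vars ⊆ s →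
      Sm f (algebraMap k ℂ a) → Fib s f a
  | mul {s t : Finset σ} {f g : MvPolynomial σ k} : Disjoint s t → Nc f → Nc g → Fib s f 0 →
      Fib t g 0 → Fib (s ∪ t) (f * g) 0
  | gate {r : ℕ} {s : Fin (r + 1) → Finset σ} {f : Fin (r + 1) → MvPolynomial σ k}
      {G : MvPolynomial (Fin (r + 1)) k} {a : k} (T : Finset (Fin (r + 1) → k))
      (w : (Fin (r + 1) → k) → Fin (r + 1) → ℕ) (n : (Fin (r + 1) → k) → ℕ)
      (B : (Fin (r + 1) → k) → Finset (Fin (r + 1))) :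
      (∀ x : Fin (r + 1) → ℂ, aeval x G = algebraMap k ℂ a →
        (∀ i, aeval x (pderiv i G) = 0 ∨ ¬ Sm (f i) (x i)) →
          ∃ b ∈ T, ∀ i, x i = algebraMap k ℂ (b i)) →
      (∀ b ∈ T, eval b G = a) → (∀ b ∈ T, SWH (w b) (n b) (B b) (shf G b a)) →
      (∀ b ∈ T, ∀ i ∈ B b, w b i < n b ∧ Sm (f i) (algebraMap k ℂ (b i))) →
      (∀ i j, i ≠ j → Disjoint (s i) (s j)) → (∀ i, Nc (f i)) → (∀ i, (f i).vars ⊆ s i) →
      (∀ b ∈ T, ∀ i, Fib (s i) (f i) (b i)) → Fib (Finset.univ.biUnion s) (aeval f G) a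

end Pool.Agent.H75.Mono
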