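import Pool.Agent.H75.Mono.WF

/-! # FIB, module KOS: isolated singularities and Koszul relations, `w i ≤ n` -/

set_option autoImplicit false

namespace Pool.Agent.H75.Mono

open MvPolynomial

section KOS

variable {k : Type} [Field k] [Algebra k ℂ] {r : ℕ}

theorem koszul_jac2 {w : Fin r → ℕ} {n : ℕ} {G : MvPolynomial (Fin r) k} (hn : 0 < n)
    (hw : ∀ i, 0 < w i ∧ w i ≤ n) (hG : IsWeightedHomogeneous w G n) {B B' : Finset (Fin r)}
    (hB : B ⊆ B') (hB' : ∀ i ∈ B', w i < n) (hI : Isol G B) : Koszul (jac G B') := by
  have hp : ∀ i, IsWeightedHomogeneous w (pderiv i G) (n - w i) := fun i =>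
    hG.pderiv (Nat.sub_add_cancel (hw i).2)
  refine koszul_of_zero (w := w) (fun i => (hw i).1)
    (d := fun i => if i ∈ B' then n - w i else w i + (n - w i)) ?_ ?_ ?_
  · intro i
    have := hw i
    show 0 < if i ∈ B' then n - w i else w i + (n - w i)
    split_ifs with hi
    · have := hB' i hi
      omega
    · omega
  · intro i
    unfold jac
    show IsWeightedHomogeneous w _ (if i ∈ B' then n - w i else w i + (n - w i))
    split_ifs
    · exact hp i
    · exact (isWeightedHomogeneous_X _ w i).mul (hp i)
  · intro x hx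
    have hx' : ∀ i, x i * aeval x (pderiv i G) = 0 := by
      intro i
      have h1 := hx i
      unfold jac at h1
      split_ifs at h1
      · rw [h1, mul_zero]
      · rwa [map_mul, aeval_X] at h1
    refine hI x (fun i hi => ?_) (fun i _ => hx' i)
    have h1 := hx i
    unfold jac at h1
    rwa [if_pos (hB hi)] at h1

end KOS

end Pool.Agent.H75.Mono
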