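import Pool.Agent.H75.Fib.F0
import Pool.Agent.H75.Mono.FIN2

/-! # FIB, module RES: restriction to the variables in `s` -/

set_option autoImplicit false

namespace Pool.Agent.H75.Mono

open MvPolynomial Pool.Agent.H39.MonoR

section RES

variable {k : Type} [Field k] {σ : Type}

/-- the polynomial `f` as a polynomial in the variables `x_i`, `i ∈ s` -/
noncomputable def res (s : Finset σ) (f : MvPolynomial σ k) : MvPolynomial {x // x ∈ s} k :=
  killCompl (Subtype.val_injective (p := fun x => x ∈ s)) f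

theorem rename_res {s : Finset σ} {f : MvPolynomial σ k} (h : f.vars ⊆ s) :
    rename Subtype.val (res s f) = f := by
  obtain ⟨g, rfl⟩ := exists_rename_eq_of_vars_subset_range f
    (Subtype.val : {x // x ∈ s} → σ) Subtype.val_injective
    (fun x hx => ⟨⟨x, h (Finset.mem_coe.1 hx)⟩, rfl⟩)
  unfold res
  rw [killCompl_rename_app]

theorem res_sub_C (s : Finset σ) (f : MvPolynomial σ k) (a : k) :
    res s (f - C a) = res s f - C a := by
  unfold res
  rw [map_sub, killCompl_C]

variable [DecidableEq σ]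

theorem vars_mul_union {s t : Finset σ} {f g : MvPolynomial σ k} (hf : f.vars ⊆ s)
    (hg : g.vars ⊆ t) : (f * g).vars ⊆ s ∪ t :=
  (vars_mul f g).trans (Finset.union_subset_union hf hg)

theorem vars_aeval_biUnion {r : ℕ} {s : Fin r → Finset σ} {f : Fin r → MvPolynomial σ k}
    (hf : ∀ i, (f i).vars ⊆ s i) (G : MvPolynomial (Fin r) k) :
    (aeval f G).vars ⊆ Finset.univ.biUnion s := by
  have h := vars_bind₁ f G
  refine h.trans fun x hx => ?_
  rw [Finset.mem_biUnion] at hx ⊢
  obtain ⟨i, _, hi⟩ := hx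
  exact ⟨i, Finset.mem_univ i, hf i hi⟩

theorem res_mul {s t : Finset σ} (hd : Disjoint s t) {f g : MvPolynomial σ k} (hf : f.vars ⊆ s)
    (hg : g.vars ⊆ t) : ∃ e : {x // x ∈ s} ⊕ {x // x ∈ t} ≃ {x // x ∈ s ∪ t},
      res (s ∪ t) (f * g) = rename e (smul' (res s f) (res t g)) := by
  let F : {x // x ∈ s} ⊕ {x // x ∈ t} → {x // x ∈ s ∪ t} :=
    Sum.elim (fun x => ⟨x.1, Finset.mem_union_left _ x.2⟩)
      (fun x => ⟨x.1, Finset.mem_union_right _ x.2⟩)
  have hF : Function.Bijective F := by
    constructor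
    · rintro (⟨x, hx⟩ | ⟨x, hx⟩) (⟨y, hy⟩ | ⟨y, hy⟩) h
      · have h1 : x = y := congrArg Subtype.val h
        subst h1
        rfl
      · have h1 : x = y := congrArg Subtype.val h
        subst h1
        exact absurd hy (Finset.disjoint_left.1 hd hx)
      · have h1 : x = y := congrArg Subtype.val h
        subst h1
        exact absurd hx (Finset.disjoint_left.1 hd hy)
      · have h1 : x = y := congrArg Subtype.val h
        subst h1
        rfl
    · rintro ⟨x, hx⟩
      rcases Finset.mem_union.1 hx with h | h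
      · exact ⟨Sum.inl ⟨x, h⟩, rfl⟩
      · exact ⟨Sum.inr ⟨x, h⟩, rfl⟩
  refine ⟨Equiv.ofBijective F hF, ?_⟩
  apply rename_injective _ (Subtype.val_injective (p := fun x => x ∈ s ∪ t))
  rw [rename_res (vars_mul_union hf hg), rename_rename, smul', map_mul, rename_rename,
    rename_rename]
  have e1 : ((Subtype.val ∘ (Equiv.ofBijective F hF : _ → _)) ∘ Sum.inl :
      {x // x ∈ s} → σ) = Subtype.val := by
    funext x
    rfl
  have e2 : ((Subtype.val ∘ (Equiv.ofBijective F hF : _ → _)) ∘ Sum.inr :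
      {x // x ∈ t} → σ) = Subtype.val := by
    funext x
    rfl
  rw [e1, e2, rename_res hf, rename_res hg]

theorem res_aeval {r : ℕ} {s : Fin r → Finset σ} (hd : ∀ i j, i ≠ j → Disjoint (s i) (s j))
    {f : Fin r → MvPolynomial σ k} (hf : ∀ i, (f i).vars ⊆ s i) (G : MvPolynomial (Fin r) k) :
    ∃ e : (Σ i, {x // x ∈ s i}) ≃ {x // x ∈ Finset.univ.biUnion s},
      res (Finset.univ.biUnion s) (aeval f G) =
        rename e (Mono.cmp G fun i => res (s i) (f i)) := by
  let F : (Σ i, {x // x ∈ s i}) → {x // x ∈ Finset.univ.biUnion s} := fun p =>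
    ⟨p.2.1, Finset.mem_biUnion.2 ⟨p.1, Finset.mem_univ _, p.2.2⟩⟩
  have hF : Function.Bijective F := by
    constructor
    · rintro ⟨i, x, hx⟩ ⟨j, y, hy⟩ h
      have h1 : x = y := congrArg Subtype.val h
      subst h1
      by_cases hij : i = j
      · subst hij
        rfl
      · exact absurd hy (Finset.disjoint_left.1 (hd i j hij) hx)
    · rintro ⟨x, hx⟩
      obtain ⟨i, _, hi⟩ := Finset.mem_biUnion.1 hx
      exact ⟨⟨i, ⟨x, hi⟩⟩, rfl⟩
  refine ⟨Equiv.ofBijective F hF, ?_⟩
  apply rename_injective _ (Subtype.val_injective (p := fun x => x ∈ Finset.univ.biUnion s))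
  rw [rename_res (vars_aeval_biUnion hf G), rename_rename]
  unfold Mono.cmp
  have h1 := DFunLike.congr_fun (MvPolynomial.comp_aeval
    (fun i => rename (Sigma.mk i) (res (s i) (f i)))
    (rename (Subtype.val ∘ (Equiv.ofBijective F hF : _ → _)) :
      MvPolynomial (Σ i, {x // x ∈ s i}) k →ₐ[k] MvPolynomial σ k)) G
  rw [AlgHom.comp_apply] at h1
  rw [h1]
  congr 2
  funext i
  rw [rename_rename]
  have e1 : ((Subtype.val ∘ (Equiv.ofBijective F hF : _ → _)) ∘
      Sigma.mk (β := fun i => {x // x ∈ s i}) i) = Subtype.val := by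
    funext x
    rfl
  rw [e1, rename_res (hf i)]

end RES

end Pool.Agent.H75.Mono
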