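import Pool.Agent.H75.Mono.VB

/-! # FIB, module VB2: chains in several groups of variables -/

set_option autoImplicit false

namespace Pool.Agent.H75.Mono

open MvPolynomial TensorProduct

section VB2

variable {k : Type} [Field k]

private theorem vb2_aux {r : ℕ} {τ : Fin r → Type} (f : ∀ i, MvPolynomial (τ i) k)
    (s : Fin r → ℚ) (J : Fin r → Prop)
    (h : ∀ i, ∃ c : Chain k (f i) (s i), c.ρ (f i) (c.e 0) = 0 ∧
      (J i → ∀ y, c.ρ (pderiv y (f i)) (c.e 0) = 0)) :
    ∃ (V : Type) (_ : AddCommGroup V) (_ : Module k V)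
      (ρ : MvPolynomial (Σ i, τ i) k →ₐ[k] Module.End k V) (D : (Σ i, τ i) → Module.End k V)
      (e : (Fin r → ℕ) → V),
      (∀ y p v, D y (ρ p v) = ρ (pderiv y p) v + ρ p (D y v)) ∧
      (∀ i β, ρ (rename (Sigma.mk i) (f i)) (e (Function.update β i (β i + 1))) = e β) ∧
      (∀ i β, β i = 0 → ρ (rename (Sigma.mk i) (f i)) (e β) = 0) ∧
      (∀ i y β, D ⟨i, y⟩ (e β) = (-((s i : k) + β i)) •
        ρ (rename (Sigma.mk i) (pderiv y (f i))) (e (Function.update β i (β i + 1)))) ∧
      (∀ i, J i → ∀ y β, β i = 0 → ρ (rename (Sigma.mk i) (pderiv y (f i))) (e β) = 0) ∧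
      e 0 ≠ 0 := by
  induction r with
  | zero =>
    refine ⟨k, inferInstance, inferInstance,
      (Algebra.lmul k k).comp (aeval (fun x : Σ i, τ i => (x.1.elim0 : k))), fun x => x.1.elim0,
      fun _ => 1, fun y => y.1.elim0, fun i => i.elim0, fun i => i.elim0, fun i => i.elim0,
      fun i => i.elim0, one_ne_zero⟩
  | succ r ih =>
    obtain ⟨V', iV, iM, ρ', D', e', hL, hm, hz, hd, hs, hne⟩ :=
      ih (τ := fun i => τ i.succ) (fun i => f i.succ) (fun i => s i.succ) (fun i => J i.succ)
        (fun i => h i.succ)
    obtain ⟨c, hc, hcJ⟩ := h 0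
    obtain ⟨R, Δ, hΔ, hl, hr, hDl, hDr⟩ := exists_tensor c.ρ c.D c.leib ρ' D' hL
    have g0 : ∀ p : MvPolynomial (τ 0) k,
        rename (sgl τ) (rename (Sigma.mk 0) p) = rename Sum.inl p := by
      intro p
      rw [rename_rename]
      rfl
    have gs : ∀ (j : Fin r) (p : MvPolynomial (τ j.succ) k),
        rename (sgl τ) (rename (Sigma.mk j.succ) p) =
          rename Sum.inr (rename (Sigma.mk (β := fun i : Fin r => τ i.succ) j) p) := by
      intro j p
      rw [rename_rename, rename_rename]
      rfl
    refine ⟨c.V ⊗[k] V', inferInstance, inferInstance, R.comp (rename (sgl τ)),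
      fun x => Δ (sgl τ x), fun β => c.e (β 0) ⊗ₜ[k] e' (fun i => β i.succ), ?_, ?_, ?_, ?_, ?_, ?_⟩
    · intro y p v
      rw [AlgHom.comp_apply, hΔ, pderiv_rename (sgl_injective τ)]
      rfl
    · intro i β
      induction i using Fin.cases with
      | zero =>
        beta_reduce
        rw [AlgHom.comp_apply, g0, hl, Function.update_self, c.mul]
        congr 1
      | succ j =>
        beta_reduce
        rw [AlgHom.comp_apply, gs, hr]
        have h1 : (fun i : Fin r => Function.update β j.succ (β j.succ + 1) i.succ) =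
            Function.update (fun i : Fin r => β i.succ) j (β j.succ + 1) := by
          funext i
          by_cases hij : i = j
          · subst hij
            rw [Function.update_self, Function.update_self]
          · rw [Function.update_of_ne hij, Function.update_of_ne]
            exact fun h => hij (Fin.succ_injective _ h)
        rw [h1, hm j (fun i : Fin r => β i.succ),
          Function.update_of_ne (Fin.succ_ne_zero j).symm]
    · intro i β hβ
      induction i using Fin.cases with
      | zero =>
        beta_reduce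
        rw [AlgHom.comp_apply, g0, hl, hβ, hc, TensorProduct.zero_tmul]
      | succ j =>
        beta_reduce
        rw [AlgHom.comp_apply, gs, hr, hz j _ hβ, TensorProduct.tmul_zero]
    · intro i y β
      induction i using Fin.cases with
      | zero =>
        beta_reduce
        rw [AlgHom.comp_apply, g0, hl, Function.update_self, sgl_zero, hDl, c.der,
          ← TensorProduct.smul_tmul']
        congr 1
      | succ j =>
        beta_reduce
        rw [AlgHom.comp_apply, gs, hr, sgl_succ, hDr]
        have h1 : (fun i : Fin r => Function.update β j.succ (β j.succ + 1) i.succ) =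
            Function.update (fun i : Fin r => β i.succ) j (β j.succ + 1) := by
          funext i
          by_cases hij : i = j
          · subst hij
            rw [Function.update_self, Function.update_self]
          · rw [Function.update_of_ne hij, Function.update_of_ne]
            exact fun h => hij (Fin.succ_injective _ h)
        rw [h1, hd j y (fun i : Fin r => β i.succ),
          Function.update_of_ne (Fin.succ_ne_zero j).symm, TensorProduct.tmul_smul]
    · intro i hJ y β hβ
      induction i using Fin.cases with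
      | zero =>
        beta_reduce
        rw [AlgHom.comp_apply, g0, hl, hβ, hcJ hJ, TensorProduct.zero_tmul]
      | succ j =>
        beta_reduce
        rw [AlgHom.comp_apply, gs, hr, hs j hJ _ _ hβ, TensorProduct.tmul_zero]
    · exact tmul_ne_zero' c.ne hne

/-- `exists_multichain` of VB with one more property for the indices with `SRs` -/
theorem exists_multichain2 {r : ℕ} {τ : Fin r → Type} (f : ∀ i, MvPolynomial (τ i) k)
    (s : Fin r → ℚ) (h : ∀ i, SR k (f i) (s i)) (I : Finset (Fin r))
    (hI : ∀ i ∈ I, SRs k (f i) (s i)) :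
    ∃ (V : Type) (_ : AddCommGroup V) (_ : Module k V)
      (ρ : MvPolynomial (Σ i, τ i) k →ₐ[k] Module.End k V) (D : (Σ i, τ i) → Module.End k V)
      (e : (Fin r → ℕ) → V),
      (∀ y p v, D y (ρ p v) = ρ (pderiv y p) v + ρ p (D y v)) ∧
      (∀ i β, ρ (rename (Sigma.mk i) (f i)) (e (Function.update β i (β i + 1))) = e β) ∧
      (∀ i β, β i = 0 → ρ (rename (Sigma.mk i) (f i)) (e β) = 0) ∧
      (∀ i y β, D ⟨i, y⟩ (e β) = (-((s i : k) + β i)) •
        ρ (rename (Sigma.mk i) (pderiv y (f i))) (e (Function.update β i (β i + 1)))) ∧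
      (∀ i ∈ I, ∀ y β, β i = 0 → ρ (rename (Sigma.mk i) (pderiv y (f i))) (e β) = 0) ∧
      e 0 ≠ 0 := by
  refine vb2_aux f s (fun i => i ∈ I) fun i => ?_
  by_cases hi : i ∈ I
  · obtain ⟨c, h1, h2⟩ := hI i hi
    exact ⟨c, h1, fun _ => h2⟩
  · obtain ⟨c, h1⟩ := h i
    exact ⟨c, h1, fun h' => absurd h' hi⟩

end VB2

end Pool.Agent.H75.Mono
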