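import Pool.Agent.H75.Fib.VS
import Pool.Agent.H75.Fib.VB2
import Pool.Agent.H75.Mono.VC

/-! # FIB, module VC2: chains for gates -/

set_option autoImplicit false

namespace Pool.Agent.H75.Mono

open MvPolynomial

section VC2

variable {k : Type} [Field k] [CharZero k]

theorem SRs.gate {r : ℕ} {τ : Fin r → Type} [∀ i, Finite (τ i)] {w : Fin r → ℕ} {n : ℕ}
    {H R : MvPolynomial (Fin r) k} (hr : 0 < r) (hn : 0 < n) (hw : ∀ i, 0 < w i ∧ w i ≤ n)
    (hH : IsWeightedHomogeneous w H n) (hR : ∀ m, coeff m R ≠ 0 → n < Finsupp.weight w m)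
    {B : Finset (Fin r)} (hK : Koszul (jac H B)) {f : ∀ i, MvPolynomial (τ i) k} {s : Fin r → ℚ}
    (h : ∀ i, SR k (f i) (s i)) (hs : ∀ i, 0 < s i) (hs1 : ∀ i, i ∈ B ↔ (s i = 1 ∧ w i < n))
    (hs2 : ∀ i, w i = n → SRs k (f i) (s i)) :
    SRs k (Mono.cmp (H + R) f) ((∑ i, w i * s i) / n) := by
  classical
  have hI : ∀ i ∈ (Finset.univ \ B : Finset (Fin r)), SRs k (f i) (s i) := by
    intro i hi
    rw [Finset.mem_sdiff, hs1] at hi
    have hi2 := hi.2
    by_cases h1 : s i = 1
    · apply hs2
      have := (hw i).2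
      by_contra hcon
      exact hi2 ⟨h1, lt_of_le_of_ne this hcon⟩
    · exact (h i).srs h1
  obtain ⟨V, iV, iM, ρ, D, e, hL, h1, h0, hd, hz, hne⟩ :=
    exists_multichain2 f s h (Finset.univ \ B) hI
  set σ : ℚ := (∑ i, w i * s i) / n with hσ
  have hσ0 : 0 < σ := by
    rw [hσ]
    apply div_pos
    · apply Finset.sum_pos
      · intro i _
        have : (0 : ℚ) < w i := by exact_mod_cast (hw i).1
        exact mul_pos this (hs i)
      · exact ⟨⟨0, hr⟩, Finset.mem_univ _⟩
    · exact_mod_cast hn
  obtain ⟨Φ, p1, p2, p3, p4⟩ := exists_functional3 hn hw hH hR (fun i hi => ((hs1 i).1 hi).2) hK s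
    (fun i hi => ((hs1 i).1 hi).1) hσ0
  have hmonc : ∀ (β : Fin r → ℕ) (m : Fin r →₀ ℕ), coeff m (mon β : MvPolynomial (Fin r) k) ≠ 0 →
      m = Finsupp.equivFunOnFinite.symm β := by
    intro β m hm
    unfold mon at hm
    rw [coeff_monomial] at hm
    by_contra hcon
    exact hm (if_neg (Ne.symm hcon))
  -- bounds of the supports
  have hBd : ∀ j N, j * n < N → Bd N (Φ j) := by
    rintro j N hN β ⟨i, hi⟩
    apply p2 j
    intro m hm
    rw [hmonc β m hm]
    have h2 := Finsupp.le_weight w (s := i) (by have := (hw i).1; omega)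
      (Finsupp.equivFunOnFinite.symm β)
    rw [Finsupp.equivFunOnFinite_symm_apply_apply] at h2
    omega
  have hσj : ∀ j : ℕ, (((σ + j : ℚ)) : k) ≠ 0 := by
    intro j
    have : σ + j ≠ 0 := by positivity
    exact_mod_cast this
  -- multiplication by `F`
  have hmul : ∀ j N, (j + 1) * n < N → ρ (Mono.cmp (H + R) f) (EV e N (Φ (j + 1))) =
      EV e N (Φ j) := by
    intro j N hN
    unfold Mono.cmp
    rw [act_cmp ρ e f h1 h0 (H + R) (hBd _ _ hN)]
    unfold EV
    refine Finset.sum_congr rfl fun β _ => ?_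
    rw [LinearMap.comp_apply, LinearMap.mulRight_apply, mul_comm, p3]
  -- derivatives
  have hdz : ∀ i (y : τ i) (β : Fin r → ℕ), i ∉ B → β i = 0 →
      ρ (rename (Sigma.mk i) (pderiv y (f i))) (e β) = 0 := by
    intro i y β hi hβ
    exact hz i (Finset.mem_sdiff.mpr ⟨Finset.mem_univ _, hi⟩) y β hβ
  have hact : ∀ (j N : ℕ) (i : Fin r) (y : τ i), j * n < N →
      ρ (pderiv ⟨i, y⟩ (Mono.cmp (H + R) f)) (EV e N (Φ j)) =
        ∑ β ∈ box r N, Φ j (pderiv i (H + R) * mon β) •
          ρ (rename (Sigma.mk i) (pderiv y (f i))) (e β) := by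
    intro j N i y hN
    unfold Mono.cmp
    rw [pderiv_cmp, map_mul, Module.End.mul_apply, act_cmp ρ e f h1 h0 _ (hBd _ _ hN)]
    unfold EV
    rw [map_sum]
    refine Finset.sum_congr rfl fun β _ => ?_
    rw [map_smul, LinearMap.comp_apply, LinearMap.mulRight_apply, mul_comm (mon β)]
  have hder : ∀ (j N : ℕ) (i : Fin r) (y : τ i), (j + 1) * n < N →
      D ⟨i, y⟩ (EV e N (Φ j)) = (-((σ + j : ℚ) : k)) •
        ρ (pderiv ⟨i, y⟩ (Mono.cmp (H + R) f)) (EV e N (Φ (j + 1))) := by
    intro j N i y hN
    rw [hact (j + 1) N i y hN, box_shift N i (fun β => Φ (j + 1) (pderiv i (H + R) * mon β) •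
          ρ (rename (Sigma.mk i) (pderiv y (f i))) (e β)), Finset.smul_sum]
    · unfold EV
      rw [map_sum]
      refine Finset.sum_congr rfl fun β _ => ?_
      rw [map_smul, hd, smul_smul, smul_smul]
      congr 1
      rw [mon_update]
      have hmd : (mon β : MvPolynomial (Fin r) k) =
        monomial (Finsupp.equivFunOnFinite.symm β) 1 := rfl
      by_cases hi : i ∈ B
      · have e1 : pderiv i (H + R) * (mon β * X i) = (X i * mon β) * jac (H + R) B i := by
          unfold jac
          rw [if_pos hi]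
          ring
        rw [e1, neg_mul, p4]
        unfold dop
        rw [if_pos hi, pderiv_mul, pderiv_X_self, one_mul, hmd, X_mul_pderiv_monomial, map_add,
          map_nsmul, nsmul_eq_mul, ((hs1 i).1 hi).1, Rat.cast_one,
          Finsupp.equivFunOnFinite_symm_apply_apply]
        ring
      · have e1 : pderiv i (H + R) * (mon β * X i) = mon β * jac (H + R) B i := by
          unfold jac
          rw [if_neg hi]
          ring
        rw [e1, neg_mul, p4, hmd, va_dop_monomial s hi, map_smul, smul_eq_mul,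
          Finsupp.equivFunOnFinite_symm_apply_apply]
        ring
    · intro β hβ
      by_cases hi : i ∈ B
      · have e1 : pderiv i (H + R) * mon β = mon β * jac (H + R) B i := by
          unfold jac
          rw [if_pos hi]
          ring
        have e2 : pderiv i (mon β : MvPolynomial (Fin r) k) = 0 := by
          unfold mon
          rw [pderiv_monomial, Finsupp.equivFunOnFinite_symm_apply_apply, hβ, Nat.cast_zero,
            mul_zero, monomial_zero]
        have e3 := p4 j i (mon β)
        unfold dop at e3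
        rw [if_pos hi, e2, map_zero] at e3
        have e4 : Φ (j + 1) (mon β * jac (H + R) B i) = 0 := by
          rcases mul_eq_zero.mp e3 with e5 | e5
          · exact absurd e5 (hσj j)
          · exact e5
        rw [e1, e4, zero_smul]
      · rw [hdz i y β hi hβ, smul_zero]
    · intro β hβ
      have e1 := (hBd (j + 1) N hN).mul (pderiv i (H + R)) β ⟨i, hβ⟩
      rw [LinearMap.comp_apply, LinearMap.mulRight_apply, mul_comm] at e1
      rw [e1, zero_smul]
  -- the element with index 0
  have hmon0 : (mon 0 : MvPolynomial (Fin r) k) = 1 := by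
    have : (Finsupp.equivFunOnFinite.symm (0 : Fin r → ℕ)) = 0 := by
      ext i
      rfl
    unfold mon
    rw [this]
    rfl
  have hE0 : ∀ N, 0 < N → EV e N (Φ 0) = e 0 := by
    intro N hN
    unfold EV
    rw [Finset.sum_eq_single 0]
    · rw [hmon0, p1, map_one, one_smul]
    · intro β _ hβ
      have : ∃ i, β i ≠ 0 := by
        by_contra hcon
        push Not at hcon
        exact hβ (funext hcon)
      obtain ⟨i, hi⟩ := this
      rw [p2 0 (mon β), zero_smul]
      intro m hm
      rw [hmonc β m hm]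
      have h2 := Finsupp.le_weight w (s := i) (by have := (hw i).1; omega)
        (Finsupp.equivFunOnFinite.symm β)
      rw [Finsupp.equivFunOnFinite_symm_apply_apply] at h2
      omega
    · intro hcon
      exact absurd (mem_box.mpr fun i => hN) hcon
  -- coefficients of `H + R` have weight at least `n`
  have hHR : ∀ m, coeff m (H + R) ≠ 0 → n ≤ Finsupp.weight w m := by
    intro m hm
    by_cases hm1 : coeff m H = 0
    · rw [coeff_add, hm1, zero_add] at hm
      exact (hR m hm).le
    · exact (hH hm1).ge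
  refine ⟨{ V := V
            ρ := ρ
            D := D
            leib := hL
            e := fun j => EV e (j * n + 1) (Φ j)
            mul := fun j => ?_
            der := ?_
            ne := ?_ }, ?_, ?_⟩
  · rw [hmul j _ (Nat.lt_succ_self _), EV_mono (by nlinarith)
      (hBd j (j * n + 1) (Nat.lt_succ_self _))]
  · rintro ⟨i, y⟩ j
    rw [← EV_mono (N' := (j + 1) * n + 1) (by nlinarith)
      (hBd j (j * n + 1) (Nat.lt_succ_self _)), hder j _ i y (Nat.lt_succ_self _)]
    congr 1
    push_cast
    rfl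
  · rw [hE0 _ (Nat.succ_pos _)]
    exact hne
  · change ρ (Mono.cmp (H + R) f) (EV e (0 * n + 1) (Φ 0)) = 0
    unfold Mono.cmp
    rw [act_cmp ρ e f h1 h0 (H + R) (hBd 0 _ (Nat.lt_succ_self _))]
    unfold EV
    refine Finset.sum_eq_zero fun β _ => ?_
    rw [LinearMap.comp_apply, LinearMap.mulRight_apply, p1, map_mul]
    have h3 : constantCoeff (H + R) = 0 := by
      by_contra hcon
      have := hHR 0 hcon
      rw [map_zero] at this
      omega
    rw [h3, mul_zero, zero_smul]
  · rintro ⟨i, y⟩
    change ρ (pderiv ⟨i, y⟩ (Mono.cmp (H + R) f)) (EV e (0 * n + 1) (Φ 0)) = 0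
    rw [hact 0 _ i y (Nat.lt_succ_self _)]
    refine Finset.sum_eq_zero fun β hβ => ?_
    have hβ0 : β i = 0 := by
      have := mem_box.mp hβ i
      omega
    by_cases hi : i ∈ B
    · rw [p1, map_mul]
      have h3 : constantCoeff (pderiv i (H + R)) = 0 := by
        by_contra hcon
        rw [constantCoeff_eq, coeff_pderiv] at hcon
        have h4 : coeff (0 + Finsupp.single i 1) (H + R) ≠ 0 := by
          intro h5
          exact hcon (by rw [h5, zero_mul])
        have h6 := hHR _ h4
        rw [zero_add, Finsupp.weight_single, one_smul] at h6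
        have := ((hs1 i).1 hi).2
        omega
      rw [h3, zero_mul, zero_smul]
    · rw [hdz i y β hi hβ0, smul_zero]

end VC2

end Pool.Agent.H75.Mono
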