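import Pool.Agent.H75.Fib.MG
import Pool.Agent.H75.Fib.VC2
import Pool.Agent.H75.Fib.KOS
import Pool.Agent.H75.Fib.EQV
import Pool.Agent.H75.Fib.RES
import Pool.Agent.H75.Fib.FC

/-! # FIB: assembly -/

set_option autoImplicit false

namespace Pool.Agent.H75.Mono

open MvPolynomial Pool.Agent.H39.MonoR

section FIN3

variable {k : Type} [Field k] [Algebra k ℂ] {σ τ : Type} [Finite σ] [Finite τ]

/-- the property which is proved by induction -/
def P3 (f : MvPolynomial σ k) (a : k) : Prop :=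
  ∃ S : Finset (ℤ × ℕ), Inv (f - C a) (S : Set (ℤ × ℕ)) ∧
    ∀ p ∈ S, p.1 < 0 ∧ 0 < p.2 ∧ SRs k (f - C a) (-(p.1 : ℚ) / p.2)

theorem P3.of_sm {f : MvPolynomial σ k} {a : k} (h : Sm f (algebraMap k ℂ a)) : P3 f a :=
  ⟨∅, by simpa using Inv.of_sm h, by simp⟩

theorem P3.equiv {f : MvPolynomial σ k} {a : k} (h : P3 f a) (e : σ ≃ τ) : P3 (rename e f) a := by
  have := charZero k
  obtain ⟨S, h1, h2⟩ := h
  have he : rename e f - C a = rename e (f - C a) := by rw [map_sub, rename_C]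
  refine ⟨S, ?_, fun p hp => ⟨(h2 p hp).1, (h2 p hp).2.1, ?_⟩⟩
  · rw [he]
    exact h1.equiv e
  · rw [he]
    exact (h2 p hp).2.2.equiv e

theorem Nc.sub_C {f : MvPolynomial σ k} (h : Nc f) (a : k) : Nc (f - C a) := by
  obtain ⟨i, hi⟩ := h
  exact ⟨i, by rwa [map_sub, pderiv_C, sub_zero]⟩

theorem P3.mul {g : MvPolynomial σ k} {h : MvPolynomial τ k} (hg : P3 g 0) (hh : P3 h 0)
    (h1 : Nc g) (h1' : Nc h) : P3 (smul' g h) 0 := by
  classical
  have := charZero k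
  obtain ⟨S, h3, h4⟩ := hg
  obtain ⟨S', h3', h4'⟩ := hh
  rw [C_0, sub_zero] at h3 h3'
  simp only [C_0, sub_zero] at h4 h4'
  refine ⟨insert (-1, 1) S ∪ insert (-1, 1) S', ?_, ?_⟩
  · have := (h3.zRat.mul h3'.zRat).inv
    rw [C_0, sub_zero]
    rwa [Finset.coe_union, Finset.coe_insert, Finset.coe_insert]
  · rw [C_0, sub_zero]
    have key : ∀ p : ℤ × ℕ, p.1 < 0 → 0 < p.2 → SR k (smul' g h) (-(p.1 : ℚ) / p.2) →
        p.1 < 0 ∧ 0 < p.2 ∧ SRs k (smul' g h) (-(p.1 : ℚ) / p.2) := by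
      intro p h5 h6 h7
      refine ⟨h5, h6, ?_⟩
      by_cases h8 : -(p.1 : ℚ) / p.2 = 1
      · rw [h8]
        exact SRs.mul_one (SR.one h1.ne h1.not_unit) (SR.one h1'.ne h1'.not_unit)
      · exact h7.srs h8
    intro p hp
    rcases Finset.mem_union.1 hp with hp | hp
    · obtain ⟨h5, h6, h7⟩ := Pn.sr h1 h4 hp
      exact key p h5 h6 (h7.mul_left h1'.ne)
    · obtain ⟨h5, h6, h7⟩ := Pn.sr h1' h4' hp
      exact key p h5 h6 (h7.mul_right h1.ne)

theorem P3.gate {r : ℕ} {τ : Fin (r + 1) → Type} [∀ i, Finite (τ i)]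
    {G : MvPolynomial (Fin (r + 1)) k} {f : ∀ i, MvPolynomial (τ i) k} {a : k}
    {T : Finset (Fin (r + 1) → k)}
    (h1 : ∀ x : Fin (r + 1) → ℂ, aeval x G = algebraMap k ℂ a →
      (∀ i, aeval x (pderiv i G) = 0 ∨ ¬ Sm (f i) (x i)) →
        ∃ b ∈ T, ∀ i, x i = algebraMap k ℂ (b i))
    (h2 : ∀ b ∈ T, eval b G = a) {w : (Fin (r + 1) → k) → Fin (r + 1) → ℕ}
    {n : (Fin (r + 1) → k) → ℕ} {B : (Fin (r + 1) → k) → Finset (Fin (r + 1))}
    (h3 : ∀ b ∈ T, SWH (w b) (n b) (B b) (shf G b a))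
    (h4 : ∀ b ∈ T, ∀ i ∈ B b, w b i < n b ∧ Sm (f i) (algebraMap k ℂ (b i)))
    (hN : ∀ i, Nc (f i)) (hf : ∀ b ∈ T, ∀ i, P3 (f i) (b i)) : P3 (Mono.cmp G f) a := by
  classical
  have := charZero k
  have key : ∀ b : Fin (r + 1) → k, ∀ i, ∃ S : Finset (ℤ × ℕ), b ∈ T →
      (Inv (f i - C (b i)) (S : Set (ℤ × ℕ)) ∧ (∀ p ∈ S, p.1 < 0 ∧ 0 < p.2 ∧
        SRs k (f i - C (b i)) (-(p.1 : ℚ) / p.2)) ∧ (i ∈ B b → S = ∅)) := by
    intro b i
    by_cases hb : b ∈ T
    · by_cases hi : i ∈ B b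
      · exact ⟨∅, fun _ => ⟨by simpa using Inv.of_sm (h4 b hb i hi).2, by simp, fun _ => rfl⟩⟩
      · obtain ⟨S, h5, h6⟩ := hf b hb i
        exact ⟨S, fun _ => ⟨h5, h6, fun h => absurd h hi⟩⟩
    · exact ⟨∅, fun h => absurd h hb⟩
  choose S hS using key
  have h5 := Inv.gate (Nat.succ_pos r) h1 h2 h3 h4 (S := fun b i => (S b i : Set (ℤ × ℕ)))
    (fun b hb i p hp => ((hS b i hb).2.1 p hp).2.1) (fun b hb i => (hS b i hb).1)
  let A : (Fin (r + 1) → k) → Finset (ℤ × ℕ) := fun b =>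
    (Fintype.piFinset fun i => if w b i = n b then S b i else insert (-1, 1) (S b i)).image
      fun p => scl (n b) (cmbN (w b) p)
  have hA : ∀ b q, q ∈ A b ↔ q ∈ gset (w b) (n b) (fun i => (S b i : Set (ℤ × ℕ))) := by
    intro b q
    simp only [A, Finset.mem_image, Fintype.mem_piFinset, gset, Set.mem_ofPred_eq, Finset.mem_coe]
    have : ∀ (p : Fin (r + 1) → ℤ × ℕ) (i : Fin (r + 1)),
        (p i ∈ if w b i = n b then S b i else insert (-1, 1) (S b i)) ↔
          (p i ∈ S b i ∨ (w b i ≠ n b ∧ p i = (-1, 1))) := by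
      intro p i
      split_ifs with h
      · simp [h]
      · simp [h, or_comm]
    simp only [this]
    constructor
    · rintro ⟨p, hp, rfl⟩
      exact ⟨p, hp, rfl⟩
    · rintro ⟨p, hp, rfl⟩
      exact ⟨p, hp, rfl⟩
  refine ⟨T.biUnion A, ?_, ?_⟩
  · have e : ((T.biUnion A : Finset (ℤ × ℕ)) : Set (ℤ × ℕ)) = {q | ∃ b ∈ T, q ∈ gset (w b) (n b)
        (fun i => (S b i : Set (ℤ × ℕ)))} := by
      ext q
      simp only [Finset.coe_biUnion, Set.mem_iUnion, Finset.mem_coe, hA, Set.mem_ofPred_eq,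
        exists_prop]
    rwa [e]
  · intro q hq
    obtain ⟨b, hb, hq⟩ := Finset.mem_biUnion.1 hq
    rw [hA] at hq
    obtain ⟨p, hp, rfl⟩ := hq
    obtain ⟨hn, hw, H, R, hHR, hH, hR, hI⟩ := h3 b hb
    -- data of the inputs
    have hpi : ∀ i, (p i).1 < 0 ∧ 0 < (p i).2 ∧ SR k (f i - C (b i)) (-((p i).1 : ℚ) / (p i).2) ∧
        (w b i = n b → SRs k (f i - C (b i)) (-((p i).1 : ℚ) / (p i).2)) ∧
        (i ∈ B b → -((p i).1 : ℚ) / (p i).2 = 1) := by
      intro i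
      rcases hp i with h | ⟨h, h'⟩
      · obtain ⟨a1, a2, a3⟩ := (hS b i hb).2.1 (p i) h
        refine ⟨a1, a2, a3.sr, fun _ => a3, fun hi => ?_⟩
        have h : p i ∈ S b i := h
        rw [(hS b i hb).2.2 hi] at h
        exact absurd h (by simp)
      · have h1 := (hN i).sub_C (b i)
        refine ⟨by rw [h']; norm_num, by rw [h']; norm_num, ?_, fun h'' => absurd h'' h, fun _ => ?_⟩
        · rw [h']
          have := SR.one h1.ne h1.not_unit
          norm_num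
          exact this
        · rw [h']
          norm_num
    have hpos : ∀ i, (0 : ℚ) < -((p i).1 : ℚ) / (p i).2 := fun i => by
      obtain ⟨a1, a2, -⟩ := hpi i
      exact div_pos (by
        have : ((p i).1 : ℚ) < 0 := by exact_mod_cast a1
        linarith) (by exact_mod_cast a2)
    have hSR := SRs.gate (B := Finset.univ.filter fun i => -((p i).1 : ℚ) / (p i).2 = 1 ∧
        w b i < n b) (R := R) (Nat.succ_pos r) hn hw hH hR (koszul_jac2 hn hw hH (fun i hi => by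
          rw [Finset.mem_filter]
          exact ⟨Finset.mem_univ i, (hpi i).2.2.2.2 hi, (h4 b hb i hi).1⟩) (fun i hi => by
          rw [Finset.mem_filter] at hi
          exact hi.2.2) hI) (fun i => (hpi i).2.2.1) hpos (fun i => by simp)
        (fun i hi => (hpi i).2.2.2.1 hi)
    rw [← hHR, cmp_shf] at hSR
    have hp2 : ∀ i, 0 < (p i).2 := fun i => (hpi i).2.1
    have hd := div_cmbN (w := w b) (n := n b) hp2
    have hl : 0 < (scl (n b) (cmbN (w b) p)).2 :=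
      Nat.mul_pos hn (show 0 < ∏ i, (p i).2 from Finset.prod_pos fun i _ => hp2 i)
    have hq : (0 : ℚ) < (∑ i, (w b i : ℚ) * (-((p i).1 : ℚ) / (p i).2)) / n b := by
      refine div_pos (Finset.sum_pos (fun i _ => ?_) ⟨0, Finset.mem_univ _⟩)
        (by exact_mod_cast hn)
      exact mul_pos (by exact_mod_cast (hw i).1) (hpos i)
    refine ⟨?_, hl, ?_⟩
    · rw [← hd, div_pos_iff_of_pos_right (by exact_mod_cast hl)] at hq
      have h7 : ((scl (n b) (cmbN (w b) p)).1 : ℚ) < 0 := by linarith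
      exact_mod_cast h7
    · rw [hd]
      exact hSR

theorem Fib.p3 {σ : Type} [DecidableEq σ] {s : Finset σ} {f : MvPolynomial σ k} {a : k}
    (h : Fib s f a) : f.vars ⊆ s ∧ P3 (res s f) a := by
  induction h with
  | smooth h1 h2 =>
    refine ⟨h1, P3.of_sm ?_⟩
    rw [← sm_rename Subtype.val_injective, rename_res h1]
    exact h2
  | @mul s t f g hd hf hg _ _ ih1 ih2 =>
    refine ⟨vars_mul_union ih1.1 ih2.1, ?_⟩
    obtain ⟨e, he⟩ := res_mul hd ih1.1 ih2.1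
    rw [he]
    refine (P3.mul ih1.2 ih2.2 ?_ ?_).equiv e
    · rwa [← nc_rename Subtype.val_injective, rename_res ih1.1]
    · rwa [← nc_rename Subtype.val_injective, rename_res ih2.1]
  | @gate r s f G a T w n B h1 h2 h3 h4 hd hN hv _ ih =>
    refine ⟨vars_aeval_biUnion hv G, ?_⟩
    obtain ⟨e, he⟩ := res_aeval hd hv G
    rw [he]
    have hs : ∀ i x, Sm (f i) x ↔ Sm (res (s i) (f i)) x := fun i x => by
      conv_lhs => rw [← rename_res (hv i)]
      exact sm_rename Subtype.val_injective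
    refine (P3.gate (T := T) (w := w) (n := n) (B := B) ?_ h2 h3 ?_ ?_ fun b hb i =>
      (ih b hb i).2).equiv e
    · intro x hx hx'
      exact h1 x hx fun i => by
        rw [hs]
        exact hx' i
    · intro b hb i hi
      rw [← hs]
      exact h4 b hb i hi
    · intro i
      rw [← nc_rename Subtype.val_injective, rename_res (hv i)]
      exact hN i

theorem P3.final {f : MvPolynomial σ k} (h : P3 f 0) (h1 : Nc f) {e : σ → τ}
    (he : Function.Injective e) :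
    ∃ S : Finset (ℤ × ℕ), (∀ p ∈ S, p.1 < 0 ∧ 0 < p.2) ∧
      Zmot k (rename e f) ∈ RS k (S : Set (ℤ × ℕ)) ∧
      ∀ p ∈ S, IsRoot k (rename e f) (p.1 / p.2) := by
  classical
  have := charZero k
  obtain ⟨S, h3, h4⟩ := h
  rw [C_0, sub_zero] at h3
  simp only [C_0, sub_zero] at h4
  refine ⟨insert (-1, 1) S, ?_, ?_, ?_⟩
  · intro p hp
    have := Pn.sr h1 h4 hp
    exact ⟨this.1, this.2.1⟩
  · rw [Finset.coe_insert]
    refine Zmot_mem ?_ h3.zRat e he
    intro p hp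
    rcases hp with rfl | hp
    · norm_num
    · exact (h4 p hp).2.1
  · intro p hp
    have h5 := ((Pn.sr h1 h4 hp).2.2.rename e he).isRoot
    rwa [neg_div, neg_neg] at h5

/-- **The strong motivic monodromy conjecture for fibrewise composites.** -/
theorem Fib.main [DecidableEq σ] {s : Finset σ} {f : MvPolynomial σ k} (h : Fib s f 0)
    (hf : Nc f) : ∃ S : Finset (ℤ × ℕ), (∀ p ∈ S, p.1 < 0 ∧ 0 < p.2) ∧
      Zmot k f ∈ RS k (S : Set (ℤ × ℕ)) ∧ ∀ p ∈ S, IsRoot k f (p.1 / p.2) := by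
  obtain ⟨h1, h2⟩ := h.p3
  have h3 := h2.final (e := (Subtype.val : {x // x ∈ s} → σ)) (by
    rwa [← nc_rename Subtype.val_injective, rename_res h1]) Subtype.val_injective
  rwa [rename_res h1] at h3

end FIN3

end Pool.Agent.H75.Mono
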