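import Pool.Agent.H75.Fib.F0

/-! # FIB, module GTE: the top level as a multiple series -/

set_option autoImplicit false

namespace Pool.Agent.H75.Mono

open MvPolynomial Pool.Agent.H39.MonoR

section GTE

variable {k : Type} [Field k] [Algebra k ℂ] {r : ℕ} {τ : Fin r → Type} [∀ i, Finite (τ i)]

private theorem gte_floor {n d v : ℕ} (hn : 0 < n) (hv : v ≤ n) : d * v / n < d + 1 := by
  rw [Nat.div_lt_iff_lt_mul hn]
  have : d * v ≤ d * n := Nat.mul_le_mul_left d hv
  nlinarith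

/-- `gt_eq` of UF with `w i ≤ n` instead of `w i < n` -/
theorem topl_eq {w : Fin r → ℕ} {n : ℕ} (H : MvPolynomial (Fin r) k) (hn : 0 < n)
    (hw : ∀ i, 0 < w i ∧ w i ≤ n) (f : ∀ i, MvPolynomial (τ i) k) (d : ℕ) (t : Test k) :
    topl f H w n d t * ↑(Lu k ^ (-((Nat.card (Σ i, τ i) * d : ℕ) : ℤ))) =
    zn f (fun i => d * w i / n) (t.gt H w n (d % n)) := by
  have hOm : ICons k {x : ((Σ i, τ i) × Fin (d + 1) → ℂ) × t.E | Om w n d (us f x.1)} :=
    ICons.om f PMap.fst w hn d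
  have hA : ICons k {x : ((Σ i, τ i) × Fin (d + 1) → ℂ) × t.E | x.2 ∈ t.W ∧
      Om w n d (us f x.1) ∧ aeval (pt w n d (us f x.1)) H = t.c x.2} :=
    (t.cW.mem PMap.snd).and (hOm.and
      (ICons.eq (PFun.aeval' (PMap.pt f PMap.fst w n d) H) (t.pf.comp PMap.snd)))
  have hB : ICons k {x : ((Σ i, τ i) × Fin (d + 1) → ℂ) × (t.gt H w n (d % n)).E |
      x.2 ∈ (t.gt H w n (d % n)).W ∧
      ∀ i, Hit (f i) (d * w i / n) (spi i x.1) ((t.gt H w n (d % n)).c x.2 i)} :=
    ((t.gt H w n (d % n)).cW.mem PMap.snd).and (ICons.forall_fin fun i =>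
      ICons.hit _ (f i) ((PMap.spi i).comp PMap.fst)
        ((PFun.apply i).comp (PMap.comp (t.gt H w n (d % n)).pf PMap.snd)))
  have hg : PMap k (fun x : ((Σ i, τ i) × Fin (d + 1) → ℂ) × t.E =>
      (x.1, ((x.2, pt w n d (us f x.1)) : t.E × (Fin r → ℂ)))) :=
    PMap.fst.prodMk (PMap.snd.prodMk (PMap.pt f PMap.fst w n d))
  have key := mo_bij hA hB hg ⟨?_, ?_, ?_⟩
  · unfold topl
    rw [key, mo_zn f (fun i => d * w i / n) (t.gt H w n (d % n)) (M := d + 1)
      (fun i => gte_floor hn (hw i).2) (Nat.succ_pos d), mul_comm, ← mul_assoc,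
      ← Units.val_mul, ← zpow_add, Nat.add_sub_cancel, neg_add_cancel, zpow_zero, Units.val_one,
      one_mul]
  · rintro ⟨ψ, x⟩ ⟨h1, h2, h3⟩
    refine ⟨⟨h1, fun i hi => ?_, h3⟩, fun i => ?_⟩
    · show pt w n d (us f ψ) i = 0
      unfold pt
      rw [if_neg]
      rwa [uf_dvd]
    · rw [hit_iff]
      have hm := Nat.div_mul_le_self (d * w i) n
      refine ⟨fun l hl => h2 i l ?_, ?_⟩
      · have h4 : (l + 1) * n ≤ d * w i := (Nat.le_div_iff_mul_le hn).1 hl
        nlinarith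
      · show PowerSeries.coeff (d * w i / n) (us f ψ i) = pt w n d (us f ψ) i
        unfold pt
        split_ifs with hd
        · rfl
        · refine h2 i _ (lt_of_le_of_ne (by rw [mul_comm]; exact hm) fun h => hd ⟨_, h.symm⟩)
  · rintro ⟨ψ, x⟩ _ ⟨ψ', x'⟩ _ hxy
    exact Prod.ext (Prod.mk.inj hxy).1 (Prod.mk.inj (Prod.mk.inj hxy).2).1
  · rintro ⟨ψ, x, p⟩ ⟨⟨h1, h2, h3⟩, h4⟩
    have h4' : ∀ i, (∀ l, l < d * w i / n → PowerSeries.coeff l (us f ψ i) = 0) ∧
        PowerSeries.coeff (d * w i / n) (us f ψ i) = p i := fun i => (hit_iff _ _ _ _).1 (h4 i)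
    have hp : pt w n d (us f ψ) = p := by
      funext i
      unfold pt
      split_ifs with hd
      · exact (h4' i).2
      · rw [uf_dvd] at hd
        exact (h2 i hd).symm
    refine ⟨(ψ, x), ⟨h1, fun i l hl => ?_, ?_⟩, ?_⟩
    · rcases Nat.lt_or_ge l (d * w i / n) with h5 | h5
      · exact (h4' i).1 l h5
      · have h6 : l = d * w i / n := by
          refine le_antisymm ?_ h5
          rw [Nat.le_div_iff_mul_le hn, mul_comm]
          exact hl.le
        rw [h6, (h4' i).2]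
        refine h2 i ?_
        rw [← uf_dvd]
        intro hd
        rw [h6, Nat.mul_div_cancel' hd] at hl
        exact lt_irrefl _ hl
    · show aeval (pt w n d (us f ψ)) H = t.c x
      rw [hp]; exact h3
    · show (ψ, x, pt w n d (us f ψ)) = (ψ, x, p)
      rw [hp]

end GTE

end Pool.Agent.H75.Mono
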