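import Pool.Agent.H75.Fib.F0

/-! # FIB, module TD: semi-weighted homogeneous polynomials of power series -/

set_option autoImplicit false

namespace Pool.Agent.H75.Mono

open MvPolynomial

section TD

variable {k : Type} [Field k] [Algebra k ℂ] {ι : Type}

/-- the terms of higher weight do not contribute -/
private theorem td_above {w : ι → ℕ} {D m n : ℕ} (hD : 0 < D) {R : MvPolynomial ι k}
    (hR : Above w n R) {a : ι → PowerSeries ℂ} (h : Om w D m a) {l : ℕ}
    (hl : ∀ n', n < n' → D * l < m * n') :
    PowerSeries.coeff l (aeval a R) = 0 := by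
  rw [R.as_sum, map_sum, map_sum]
  refine Finset.sum_eq_zero fun d hd => ?_
  refine coeff_low hD (n := Finsupp.weight w d) ?_ h (hl _ (hR d (mem_support_iff.1 hd)))
  exact isWeightedHomogeneous_monomial w d _ rfl

theorem swh_low {w : ι → ℕ} {D m n : ℕ} (hD : 0 < D) {H R : MvPolynomial ι k}
    (hH : IsWeightedHomogeneous w H n) (hR : Above w n R) {a : ι → PowerSeries ℂ}
    (h : Om w D m a) {l : ℕ} (hl : D * l < m * n) :
    PowerSeries.coeff l (aeval a (H + R)) = 0 := by
  rw [map_add, map_add, coeff_low hD hH h hl, zero_add]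
  exact td_above hD hR h fun n' hn' => hl.trans_le (Nat.mul_le_mul_left _ hn'.le)

theorem swh_lead {w : ι → ℕ} {D m n : ℕ} (hD : 0 < D) (hm : 0 < m) {H R : MvPolynomial ι k}
    (hH : IsWeightedHomogeneous w H n) (hR : Above w n R) {a : ι → PowerSeries ℂ}
    (h : Om w D m a) {l : ℕ} (hl : D * l = m * n) :
    PowerSeries.coeff l (aeval a (H + R)) = aeval (pt w D m a) H := by
  rw [map_add, map_add, coeff_lead hD hH h hl]
  rw [td_above hD hR h fun n' hn' => by rw [hl]; exact (Nat.mul_lt_mul_left hm).2 hn', add_zero]

variable [DecidableEq ι]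

theorem om_update' {w : ι → ℕ} {D m : ℕ} {a : ι → PowerSeries ℂ} (h : Om w D m a)
    (i : ι) {e : ℕ} (he : m * w i < D * e) (η : PowerSeries ℂ) :
    Om w D m (Function.update a i (a i + PowerSeries.X ^ e * η)) ∧
    pt w D m (Function.update a i (a i + PowerSeries.X ^ e * η)) = pt w D m a := by
  constructor
  · intro j l hl
    by_cases hj : j = i
    · subst hj
      rw [Function.update_self, map_add, h j l hl, zero_add, PowerSeries.coeff_X_pow_mul', if_neg]
      intro hel
      have := Nat.mul_le_mul_left D hel
      omega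
    · rw [Function.update_of_ne hj]
      exact h j l hl
  · funext j
    unfold pt
    by_cases hj : j = i
    · subst hj
      split_ifs with hd
      · have h0 : PowerSeries.coeff (m * w j / D) (PowerSeries.X ^ e * η) = 0 := by
          rw [PowerSeries.coeff_X_pow_mul', if_neg]
          intro hel
          have := Nat.mul_le_mul_left D hel
          rw [Nat.mul_div_cancel' hd] at this
          omega
        rw [Function.update_self, map_add, h0, add_zero]
      · rfl
    · rw [Function.update_of_ne hj]

/-- the change of a weighted homogeneous polynomial -/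
private theorem td_chg {w : ι → ℕ} {D m n' : ℕ} (hD : 0 < D) {P : MvPolynomial ι k}
    (hP : IsWeightedHomogeneous w P n') {i : ι} {a : ι → PowerSeries ℂ} (h : Om w D m a)
    {e E : ℕ} (hE : D * e = m * w i + E) (hE0 : 0 < E) (η : PowerSeries ℂ) :
    ∃ S : PowerSeries ℂ, PowerSeries.expand D hD.ne'
      (aeval (Function.update a i (a i + PowerSeries.X ^ e * η)) P) =
      PowerSeries.expand D hD.ne' (aeval a P) + PowerSeries.X ^ (m * n' + E) * S ∧
      PowerSeries.constantCoeff S =
        PowerSeries.constantCoeff η * aeval (pt w D m a) (pderiv i P) := by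
  obtain ⟨b, hb, hb0⟩ := om_expand hD h
  set η' := PowerSeries.expand D hD.ne' η with hη'
  have hη0 : PowerSeries.constantCoeff η' = PowerSeries.constantCoeff η := by
    have := PowerSeries.coeff_expand_mul D hD.ne' η 0
    rw [mul_zero] at this
    simpa only [PowerSeries.coeff_zero_eq_constantCoeff_apply] using this
  have hb' : ∀ x, PowerSeries.expand D hD.ne'
      (Function.update a i (a i + PowerSeries.X ^ e * η) x) =
      (PowerSeries.X ^ m) ^ w x * Function.update b i (b i + PowerSeries.X ^ E * η') x := by
    intro x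
    by_cases hx : x = i
    · subst hx
      rw [Function.update_self, Function.update_self, map_add, hb, map_mul, map_pow,
        PowerSeries.expand_X, ← pow_mul PowerSeries.X D, hE, mul_add, ← mul_assoc, ← pow_mul,
        pow_add]
    · rw [Function.update_of_ne hx, Function.update_of_ne hx, hb]
  obtain ⟨R, hR⟩ := aeval_update_add P b i (PowerSeries.X ^ E * η')
  have h1 := expand_aeval_om hD hP hb
  have h2 := expand_aeval_om hD hP hb'
  refine ⟨η' * aeval b (pderiv i P) + PowerSeries.X ^ E * (η' ^ 2 * R), ?_, ?_⟩
  · rw [h1, h2, hR, pow_add]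
    ring
  · rw [map_add, map_mul, map_mul, map_pow, PowerSeries.constantCoeff_X, zero_pow hE0.ne',
      zero_mul, add_zero, hη0, constantCoeff_aeval, funext hb0]

/-- the change of the terms of higher weight -/
private theorem td_chg_above {w : ι → ℕ} {D m n : ℕ} (hD : 0 < D) {R : MvPolynomial ι k}
    (hR : Above w n R) {i : ι} {a : ι → PowerSeries ℂ} (h : Om w D m a)
    {e E : ℕ} (hE : D * e = m * w i + E) (hE0 : 0 < E) (η : PowerSeries ℂ) :
    ∃ S : PowerSeries ℂ, PowerSeries.expand D hD.ne'
      (aeval (Function.update a i (a i + PowerSeries.X ^ e * η)) R) =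
      PowerSeries.expand D hD.ne' (aeval a R) + PowerSeries.X ^ (m * (n + 1) + E) * S := by
  have key : ∀ d ∈ R.support, ∃ S : PowerSeries ℂ, PowerSeries.expand D hD.ne'
      (aeval (Function.update a i (a i + PowerSeries.X ^ e * η)) (monomial d (coeff d R))) =
      PowerSeries.expand D hD.ne' (aeval a (monomial d (coeff d R))) +
        PowerSeries.X ^ (m * (n + 1) + E) * S := by
    intro d hd
    obtain ⟨S, hS, -⟩ := td_chg hD (n' := Finsupp.weight w d)
      (isWeightedHomogeneous_monomial w d (coeff d R) rfl) h hE hE0 η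
    have hwt := hR d (mem_support_iff.1 hd)
    obtain ⟨c, hc⟩ : ∃ c, m * Finsupp.weight w d + E = m * (n + 1) + E + c := by
      refine Nat.exists_eq_add_of_le ?_
      have := Nat.mul_le_mul_left m (Nat.succ_le_of_lt hwt)
      have e1 : m * n.succ = m * (n + 1) := rfl
      omega
    refine ⟨PowerSeries.X ^ c * S, ?_⟩
    rw [hS, hc, pow_add _ _ c, mul_assoc]
  choose! S hS using key
  refine ⟨∑ d ∈ R.support, S d, ?_⟩
  have hsum : ∀ a' : ι → PowerSeries ℂ, PowerSeries.expand D hD.ne' (aeval a' R) =
      ∑ d ∈ R.support, PowerSeries.expand D hD.ne' (aeval a' (monomial d (coeff d R))) := by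
    intro a'
    rw [← map_sum, ← map_sum, ← R.as_sum]
  rw [hsum, hsum, Finset.mul_sum, ← Finset.sum_add_distrib]
  exact Finset.sum_congr rfl fun d hd => hS d hd

/-- the change of `a_i` in order `e` which changes `G(a)` first in order `d` -/
theorem swh_step {w : ι → ℕ} {D m n : ℕ} (hD : 0 < D) (hm : 0 < m) {H R : MvPolynomial ι k}
    (hH : IsWeightedHomogeneous w H n) (hR : Above w n R) {i : ι} (hi : w i ≤ n)
    {a : ι → PowerSeries ℂ} (h : Om w D m a) {d e : ℕ} (hmd : m * n < D * d)
    (he : D * e + m * (n - w i) = D * d) (η : PowerSeries ℂ) :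
    m * w i < D * e ∧ e ≤ d ∧
    (∀ l, l < d → PowerSeries.coeff l
      (aeval (Function.update a i (a i + PowerSeries.X ^ e * η)) (H + R)) =
        PowerSeries.coeff l (aeval a (H + R))) ∧
    PowerSeries.coeff d
      (aeval (Function.update a i (a i + PowerSeries.X ^ e * η)) (H + R)) =
        PowerSeries.coeff d (aeval a (H + R)) +
          PowerSeries.constantCoeff η * aeval (pt w D m a) (pderiv i H) := by
  have hmn : m * n = m * w i + m * (n - w i) := by
    rw [← Nat.mul_add]
    congr 1
    omega
  have h1 : m * w i < D * e := by omega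
  have h2 : e ≤ d := by
    have : D * e ≤ D * d := by omega
    exact Nat.le_of_mul_le_mul_left this hD
  refine ⟨h1, h2, ?_⟩
  obtain ⟨E, hE⟩ := Nat.exists_eq_add_of_le h1.le
  have hE0 : 0 < E := by omega
  obtain ⟨S, hS, hS0⟩ := td_chg hD hH h hE hE0 η
  obtain ⟨S', hS'⟩ := td_chg_above hD hR h hE hE0 η
  have hDd : m * n + E = D * d := by omega
  have h3 : PowerSeries.expand D hD.ne'
      (aeval (Function.update a i (a i + PowerSeries.X ^ e * η)) (H + R)) =
      PowerSeries.expand D hD.ne' (aeval a (H + R)) +
        PowerSeries.X ^ (D * d) * (S + PowerSeries.X ^ m * S') := by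
    rw [map_add, map_add, hS, hS', map_add, map_add, ← hDd]
    have : m * (n + 1) + E = m * n + E + m := by ring
    rw [this, pow_add _ (m * n + E) m]
    ring
  have e1 := fun l => PowerSeries.coeff_expand_mul D hD.ne'
    (aeval (Function.update a i (a i + PowerSeries.X ^ e * η)) (H + R)) l
  have e2 := fun l => PowerSeries.coeff_expand_mul D hD.ne' (aeval a (H + R)) l
  constructor
  · intro l hl
    rw [← e1, ← e2, h3, map_add, PowerSeries.coeff_X_pow_mul', if_neg, add_zero]
    have := (Nat.mul_lt_mul_left hD).2 hl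
    omega
  · have h4 : PowerSeries.constantCoeff (S + PowerSeries.X ^ m * S') =
        PowerSeries.constantCoeff S := by
      rw [map_add, map_mul, map_pow, PowerSeries.constantCoeff_X, zero_pow hm.ne', zero_mul,
        add_zero]
    rw [← e1, ← e2, h3, map_add, PowerSeries.coeff_X_pow_mul', if_pos le_rfl, Nat.sub_self,
      PowerSeries.coeff_zero_eq_constantCoeff_apply, h4, hS0]

end TD

end Pool.Agent.H75.Mono
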