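import Pool.Agent.H75.Fib.RPB
import Pool.Agent.H75.Fib.TD

/-! # FIB, module LB: one level, reparametrisation of one input -/

set_option autoImplicit false

namespace Pool.Agent.H75.Mono

open MvPolynomial Pool.Agent.H39.MonoR

section LB

variable {k : Type} [Field k] [Algebra k ℂ] {r : ℕ} {τ : Fin r → Type} [∀ i, Finite (τ i)]

/-- the coordinate with `y g(x) = c(x)` -/
theorem lb_icons_div {E : Type} [Aff E] {A : Set E} (hA : ICons k A) {g c : E → ℂ}
    (hg : PFun k g) (hc : PFun k c) : ICons k {y : E × ℂ | y.1 ∈ A ∧ y.2 * g y.1 = c y.1} := by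
  refine (hA.mem PMap.fst).and (ICons.eq ?_ ?_)
  · refine PFun.mul ?_ ?_
    · exact PFun.comp (f := fun z : ℂ => z) PFun.id' PMap.snd
    · exact PFun.comp (f := g) hg PMap.fst
  · exact PFun.comp (f := c) hc PMap.fst

theorem lb_mo_div {E : Type} [Aff E] {A : Set E} (hA : ICons k A) {g c : E → ℂ}
    (hg : PFun k g) (hc : PFun k c) (hne : ∀ x ∈ A, g x ≠ 0) :
    mo k {y : E × ℂ | y.1 ∈ A ∧ y.2 * g y.1 = c y.1} = mo k A := by
  refine mo_bij (lb_icons_div hA hg hc) hA PMap.fst ⟨?_, ?_, ?_⟩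
  · rintro ⟨x, y⟩ ⟨h, -⟩
    exact h
  · rintro ⟨x, y⟩ ⟨h, h1⟩ ⟨x', y'⟩ ⟨-, h1'⟩ heq
    simp only at heq h1 h1' h
    subst heq
    rw [Prod.mk.injEq]
    exact ⟨rfl, mul_right_cancel₀ (hne x h) (h1.trans h1'.symm)⟩
  · intro x hx
    refine ⟨(x, c x / g x), ⟨hx, ?_⟩, rfl⟩
    simp only
    rw [div_mul_cancel₀ _ (hne x hx)]

/-- the level sets are constructible -/
theorem lb_icons {M : ℕ} (f : ∀ i, MvPolynomial (τ i) k) (G : MvPolynomial (Fin r) k) (d : ℕ)
    {Q : Set ((Σ i, τ i) × Fin M → ℂ)} (hQ : ICons k Q) (t : Test k) :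
    ICons k {x : ((Σ i, τ i) × Fin M → ℂ) × t.E | x.2 ∈ t.W ∧ x.1 ∈ Q ∧
      ∀ l, l ≤ d → PowerSeries.coeff l (aeval (us f x.1) G) = if l = d then t.c x.2 else 0} := by
  refine (t.cW.mem PMap.snd).and (ICons.and (hQ.mem PMap.fst) (ICons.forall_le d fun l => ?_))
  refine ICons.eq (PFun.coeff_aeval_us f PMap.fst G l) ?_
  by_cases hl : l = d
  · simp only [if_pos hl]
    exact PFun.comp (f := t.c) t.pf PMap.snd
  · simp only [if_neg hl]
    exact PFun.zero

theorem lb_icons_Q {M : ℕ} (f : ∀ i, MvPolynomial (τ i) k) (w : Fin r → ℕ) {D : ℕ} (hD : 0 < D)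
    (m : ℕ) {P : Set (Fin r → ℂ)} (hPc : ICons k P) :
    ICons k {ψ : (Σ i, τ i) × Fin M → ℂ | Om w D m (us f ψ) ∧ pt w D m (us f ψ) ∈ P} := by
  refine (ICons.om f PMap.id' w hD m).and ?_
  exact ICons.mem (f := fun x : ((Σ i, τ i) × Fin M → ℂ) => pt w D m (us f x)) hPc
    (PMap.pt f PMap.id' w D m)

/-- two power series which agree below `e` -/
theorem lb_exists_eta {a b : PowerSeries ℂ} {e : ℕ}
    (h : ∀ l, l < e → PowerSeries.coeff l a = PowerSeries.coeff l b) :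
    ∃ η : PowerSeries ℂ, a = b + PowerSeries.X ^ e * η ∧
      PowerSeries.constantCoeff η = PowerSeries.coeff e a - PowerSeries.coeff e b := by
  have h1 : (PowerSeries.X : PowerSeries ℂ) ^ e ∣ a - b := by
    rw [PowerSeries.X_pow_dvd_iff]
    intro l hl
    rw [map_sub, h l hl, sub_self]
  obtain ⟨η, hη⟩ := h1
  refine ⟨η, by rw [← hη]; ring, ?_⟩
  have h2 := PowerSeries.coeff_X_pow_mul η e 0
  rw [zero_add] at h2
  rw [← PowerSeries.coeff_zero_eq_constantCoeff_apply, ← h2, ← hη, map_sub]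

/-- the change of a component: the data of a point of the level set -/
theorem lb_change {w : Fin r → ℕ} {n : ℕ} {H R : MvPolynomial (Fin r) k}
    (hH : IsWeightedHomogeneous w H n) (hR : Above w n R)
    {D m d e : ℕ} (hD : 0 < D) (hm : 0 < m) (hmd : m * n < D * d) {i : Fin r} (hi : w i ≤ n)
    (he : D * e + m * (n - w i) = D * d) {a b : Fin r → PowerSeries ℂ} (h : Om w D m a)
    (hb : ∀ j, j ≠ i → b j = a j)
    (h1 : ∀ l, l < e → PowerSeries.coeff l (b i) = PowerSeries.coeff l (a i)) {δ : ℂ}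
    (h2 : PowerSeries.coeff e (b i) = PowerSeries.coeff e (a i) + δ) :
    Om w D m b ∧ pt w D m b = pt w D m a ∧
    (∀ l, l < d → PowerSeries.coeff l (aeval b (H + R)) =
        PowerSeries.coeff l (aeval a (H + R))) ∧
    PowerSeries.coeff d (aeval b (H + R)) = PowerSeries.coeff d (aeval a (H + R)) +
          δ * aeval (pt w D m a) (pderiv i H) := by
  obtain ⟨η, hη, hη0⟩ := lb_exists_eta h1
  have hbe : b = Function.update a i (a i + PowerSeries.X ^ e * η) := by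
    funext j
    by_cases hj : j = i
    · subst hj
      rw [Function.update_self, hη]
    · rw [Function.update_of_ne hj, hb j hj]
  have h3 := swh_step hD hm hH hR hi h hmd he η
  have h4 := om_update' h i h3.1 η
  rw [← hbe] at h3 h4
  refine ⟨h4.1, h4.2, h3.2.2.1, ?_⟩
  rw [h3.2.2.2, hη0, h2, add_sub_cancel_left]

theorem lvl_rp {w : Fin r → ℕ} {n : ℕ} {H R : MvPolynomial (Fin r) k}
    (hw : ∀ i, 0 < w i ∧ w i ≤ n) (hH : IsWeightedHomogeneous w H n) (hR : Above w n R)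
    {D m d : ℕ} (hD : 0 < D) (hm : 0 < m) (hmd : m * n < D * d)
    (f : ∀ i, MvPolynomial (τ i) k) (i : Fin r) {P : Set (Fin r → ℂ)} (hPc : ICons k P)
    (hP : ∀ p ∈ P, p i * aeval p (pderiv i H) ≠ 0) (t : Test k) :
    lvl f (H + R) d {ψ | Om w D m (us f ψ) ∧ pt w D m (us f ψ) ∈ P} t =
    lvl f (H + R) d {ψ | Om w D m (us f ψ) ∧ pt w D m (us f ψ) ∈ P} t.zr := by
  classical
  by_cases hex : ∃ ψ : (Σ i, τ i) × Fin (d + 1) → ℂ,
      Om w D m (us f ψ) ∧ pt w D m (us f ψ) ∈ P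
  swap
  · have e1 : ∀ t' : Test k, {x : ((Σ i, τ i) × Fin (d + 1) → ℂ) × t'.E | x.2 ∈ t'.W ∧
        x.1 ∈ {ψ : (Σ i, τ i) × Fin (d + 1) → ℂ | Om w D m (us f ψ) ∧ pt w D m (us f ψ) ∈ P} ∧
        ∀ l, l ≤ d → PowerSeries.coeff l (aeval (us f x.1) (H + R)) =
          if l = d then t'.c x.2 else 0} = ∅ := by
      intro t'
      ext x
      simp only [Set.mem_ofPred_eq, Set.mem_empty_iff_false, iff_false]
      rintro ⟨-, h, -⟩
      exact hex ⟨x.1, h⟩
    unfold lvl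
    rw [e1, e1, mo_empty, mo_empty]
  obtain ⟨ψ₀, hψ₀, hψ₀P⟩ := hex
  have hwi := hw i
  have hp0 := hP _ hψ₀P
  have hd1 : D ∣ m * w i := by
    by_contra h'
    refine left_ne_zero_of_mul hp0 ?_
    unfold pt
    rw [if_neg h']
  have hd2 : D ∣ m * (n - w i) := by
    have hpd : IsWeightedHomogeneous w (pderiv i H) (n - w i) := hH.pderiv (by omega)
    exact dvd_of_ne hpd (right_ne_zero_of_mul hp0)
  obtain ⟨μ, hμ⟩ := hd1
  obtain ⟨ν, hν⟩ := hd2
  have hμ0 : 0 < μ := by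
    have : 0 < D * μ := by rw [← hμ]; exact Nat.mul_pos hm hwi.1
    exact Nat.pos_of_mul_pos_left this
  have hsum : D * (μ + ν) = m * n := by
    rw [Nat.mul_add, ← hμ, ← hν, ← Nat.mul_add]
    congr 1
    omega
  have hlt : μ + ν < d := by
    rw [← hsum] at hmd
    exact Nat.lt_of_mul_lt_mul_left hmd
  obtain ⟨e, he⟩ : ∃ e, e + ν = d := ⟨d - ν, by omega⟩
  obtain ⟨q, hq⟩ : ∃ q, e + 1 = μ + q := ⟨e + 1 - μ, by omega⟩
  have hq2 : 2 ≤ q := by omega
  have heN : e < d + 1 := by omega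
  have hDe : D * e + m * (n - w i) = D * d := by
    rw [hν, ← he]
    ring
  have hpti : ∀ a : Fin r → PowerSeries ℂ, pt w D m a i = PowerSeries.coeff μ (a i) := by
    intro a
    unfold pt
    rw [if_pos ⟨μ, hμ⟩, hμ, Nat.mul_div_cancel_left _ hD]
  -- the coefficients below `μ` vanish
  have hlow : ∀ a : Fin r → PowerSeries ℂ, Om w D m a → ∀ l, l < μ →
      PowerSeries.coeff l (a i) = 0 := by
    intro a ha l hl
    refine ha i l ?_
    rw [hμ]
    exact Nat.mul_lt_mul_of_pos_left hl hD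
  have hQc := lb_icons_Q (M := d + 1) f w hD m hPc
  have hA := lb_icons f (H + R) d hQc t
  have hA0 := lb_icons f (H + R) d hQc t.zr
  -- the function `μ p_i ∂_i H(p)`
  let g : ((Σ i, τ i) × Fin (d + 1) → ℂ) × t.E → ℂ := fun x =>
    (μ : ℂ) * (pt w D m (us f x.1) i * aeval (pt w D m (us f x.1)) (pderiv i H))
  let c : ((Σ i, τ i) × Fin (d + 1) → ℂ) × t.E → ℂ := fun x => t.c x.2
  have hpt : PMap k (fun x : ((Σ i, τ i) × Fin (d + 1) → ℂ) × t.E => pt w D m (us f x.1)) :=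
    PMap.pt f PMap.fst w D m
  have hg : PFun k g := by
    refine PFun.mul ?_ (PFun.mul ?_ (PFun.aeval' hpt _))
    · have := PFun.const (k := k) (E := ((Σ i, τ i) × Fin (d + 1) → ℂ) × t.E) (μ : k)
      rwa [map_natCast] at this
    · exact PFun.comp (f := fun y : Fin r → ℂ => y i) (PFun.apply (k := k) i) hpt
  have hc : PFun k c := PFun.comp (f := t.c) t.pf PMap.snd
  have hgne : ∀ x : ((Σ i, τ i) × Fin (d + 1) → ℂ) × t.E,
      pt w D m (us f x.1) ∈ P → g x ≠ 0 := fun x hx =>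
    mul_ne_zero (Nat.cast_ne_zero.2 hμ0.ne') (hP _ hx)
  have m1 := lb_mo_div hA hg hc (fun x hx => hgne x hx.2.1.2)
  have m0 := lb_mo_div hA0 hg hc (fun x hx => hgne x hx.2.1.2)
  have i1 := lb_icons_div hA hg hc
  have i0 := lb_icons_div hA0 hg hc
  change mo k _ = mo k _
  rw [← m1]
  refine Eq.trans ?_ m0
  symm
  -- the map
  let Φ : (((Σ i, τ i) × Fin (d + 1) → ℂ) × t.E) × ℂ → (((Σ i, τ i) × Fin (d + 1) → ℂ) × t.E) × ℂ :=
    fun y => ((upa i (rp q y.2 (spi i y.1.1)) y.1.1, y.1.2), y.2)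
  have hΦ : PMap k Φ := by
    have a0 : PMap k (fun y : (((Σ i, τ i) × Fin (d + 1) → ℂ) × t.E) × ℂ => y.1.1) :=
      PMap.comp (f := fun z : ((Σ i, τ i) × Fin (d + 1) → ℂ) × t.E => z.1) PMap.fst PMap.fst
    have a1 : PMap k (fun y : (((Σ i, τ i) × Fin (d + 1) → ℂ) × t.E) × ℂ => spi i y.1.1) :=
      PMap.comp (f := fun z : (Σ i, τ i) × Fin (d + 1) → ℂ => spi i z) (PMap.spi i) a0
    have a2 : PMap k (fun y : (((Σ i, τ i) × Fin (d + 1) → ℂ) × t.E) × ℂ =>
        (y.2, spi i y.1.1)) := PMap.prodMk PMap.snd a1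
    have a3 := PMap.comp (f := fun z : ℂ × (τ i × Fin (d + 1) → ℂ) => rp q z.1 z.2)
      (PMap.rp q) a2
    have a4 := PMap.comp (f := fun z : (τ i × Fin (d + 1) → ℂ) ×
      ((Σ i, τ i) × Fin (d + 1) → ℂ) => upa i z.1 z.2) (PMap.upa i) (PMap.prodMk a3 a0)
    have a5 : PMap k (fun y : (((Σ i, τ i) × Fin (d + 1) → ℂ) × t.E) × ℂ => y.1.2) :=
      PMap.comp (f := fun z : ((Σ i, τ i) × Fin (d + 1) → ℂ) × t.E => z.2) PMap.snd PMap.fst
    exact PMap.prodMk (PMap.prodMk a4 a5) PMap.snd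
  refine mo_bij i0 i1 hΦ ⟨?_, ?_, ?_⟩
  · rintro ⟨⟨ψ, x⟩, ε⟩ ⟨⟨hx, ⟨h1, h2⟩, h3⟩, h4⟩
    simp only [g, c, Test.zr] at hx h1 h2 h3 h4
    have hcr := coeff_rp hq2 hμ0 (f i) (spi i ψ) (fun l _ hl => hlow _ h1 l hl) ε hq.symm.symm heN
    have hch := lb_change hH hR hD hm hmd hwi.2 hDe (a := us f ψ)
      (b := us f (upa i (rp q ε (spi i ψ)) ψ)) h1
      (by intro j hj; rw [us_upa, Function.update_of_ne hj])
      (by
        intro l hl
        rw [us_upa, Function.update_self]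
        exact hcr.1 l hl)
      (δ := μ * ε * pt w D m (us f ψ) i)
      (by
        rw [us_upa, Function.update_self, hpti]
        exact hcr.2)
    refine ⟨⟨hx, ⟨hch.1, ?_⟩, ?_⟩, ?_⟩
    · simp only [Φ]
      rw [hch.2.1]
      exact h2
    · intro l hl
      simp only [Φ]
      rcases Nat.lt_or_eq_of_le hl with hl' | hl'
      · rw [hch.2.2.1 l hl', h3 l hl, if_neg hl'.ne, if_neg hl'.ne]
      · subst hl'
        rw [hch.2.2.2, h3 l hl, if_pos rfl, if_pos rfl, zero_add, ← h4]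
        ring
    · simp only [Φ, g, c]
      rw [hch.2.1]
      exact h4
  · rintro ⟨⟨ψ, x⟩, ε⟩ - ⟨⟨ψ', x'⟩, ε'⟩ - heq
    simp only [Φ, Prod.mk.injEq] at heq
    obtain ⟨⟨hsc, rfl⟩, rfl⟩ := heq
    have h10 : spi i ψ = spi i ψ' := by
      apply (rp_bijective hq2 ε).1
      have := congrArg (spi i) hsc
      rwa [spi_upa, spi_upa] at this
    have h11 : ψ = ψ' := by
      have h12 := congrArg (upa i (spi i ψ)) hsc
      rw [upa_upa, upa_upa, upa_self, h10, upa_self] at h12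
      exact h12
    rw [h11]
  · rintro ⟨⟨ψ, x⟩, ε⟩ ⟨⟨hx, ⟨h1, h2⟩, h3⟩, h4⟩
    simp only [g, c] at hx h1 h2 h3 h4
    obtain ⟨χ, hχ⟩ := (rp_bijective (σ := τ i) (N := d + 1) hq2 ε).2 (spi i ψ)
    have hχu : arcEval k (rp q ε χ) (f i) = us f ψ i := by rw [hχ]; rfl
    have hv : ∀ l, 0 < l → l < μ → PowerSeries.coeff l (arcEval k χ (f i)) = 0 := by
      intro l
      induction l using Nat.strong_induction_on with
      | _ l ih =>
        intro hl0 hl
        have hcr := coeff_rp hq2 hl0 (f i) χ (fun l' h0 hl' => ih l' hl' h0 (by omega)) ε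
          (e := l + q - 1) (by omega) (by omega)
        have := hcr.1 l (by omega)
        rw [hχu, hlow _ h1 l hl] at this
        exact this.symm
    have hcr := coeff_rp hq2 hμ0 (f i) χ hv ε hq heN
    rw [hχu] at hcr
    have hvμ : PowerSeries.coeff μ (arcEval k χ (f i)) = pt w D m (us f ψ) i := by
      rw [hpti]
      exact (hcr.1 μ (by omega)).symm
    have hch := lb_change hH hR hD hm hmd hwi.2 hDe (a := us f ψ)
      (b := us f (upa i χ ψ)) h1
      (by intro j hj; rw [us_upa, Function.update_of_ne hj])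
      (by
        intro l hl
        rw [us_upa, Function.update_self]
        exact (hcr.1 l hl).symm)
      (δ := -(μ * ε * pt w D m (us f ψ) i))
      (by
        rw [us_upa, Function.update_self, hcr.2, hvμ]
        ring)
    refine ⟨((upa i χ ψ, x), ε), ⟨⟨hx, ⟨hch.1, ?_⟩, ?_⟩, ?_⟩, ?_⟩
    · simp only
      rw [hch.2.1]
      exact h2
    · intro l hl
      simp only [Test.zr]
      rcases Nat.lt_or_eq_of_le hl with hl' | hl'
      · rw [hch.2.2.1 l hl', h3 l hl, if_neg hl'.ne, if_neg hl'.ne]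
      · subst hl'
        rw [hch.2.2.2, h3 l hl, if_pos rfl, if_pos rfl, ← h4]
        ring
    · simp only [g, c]
      rw [hch.2.1]
      exact h4
    · simp only [Φ]
      rw [spi_upa, hχ, upa_upa, upa_self]

end LB

end Pool.Agent.H75.Mono
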