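import Pool.Agent.H75.Fib.NCR
import Pool.Agent.H75.Fib.TD

/-! # FIB, module LC: one level, translation in one input without critical points -/

set_option autoImplicit false

namespace Pool.Agent.H75.Mono

open MvPolynomial Pool.Agent.H39.MonoR

section LC

variable {k : Type} [Field k] [Algebra k ℂ] {r : ℕ} {τ : Fin r → Type} [∀ i, Finite (τ i)]

/-- the coordinate with `y g(x) = c(x)` -/
theorem lc_icons_div {E : Type} [Aff E] {A : Set E} (hA : ICons k A) {g c : E → ℂ}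
    (hg : PFun k g) (hc : PFun k c) : ICons k {y : E × ℂ | y.1 ∈ A ∧ y.2 * g y.1 = c y.1} := by
  refine (hA.mem PMap.fst).and (ICons.eq ?_ ?_)
  · refine PFun.mul ?_ ?_
    · exact PFun.comp (f := fun z : ℂ => z) PFun.id' PMap.snd
    · exact PFun.comp (f := g) hg PMap.fst
  · exact PFun.comp (f := c) hc PMap.fst

theorem lc_mo_div {E : Type} [Aff E] {A : Set E} (hA : ICons k A) {g c : E → ℂ}
    (hg : PFun k g) (hc : PFun k c) (hne : ∀ x ∈ A, g x ≠ 0) :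
    mo k {y : E × ℂ | y.1 ∈ A ∧ y.2 * g y.1 = c y.1} = mo k A := by
  refine mo_bij (lc_icons_div hA hg hc) hA PMap.fst ⟨?_, ?_, ?_⟩
  · rintro ⟨x, y⟩ ⟨h, -⟩
    exact h
  · rintro ⟨x, y⟩ ⟨h, h1⟩ ⟨x', y'⟩ ⟨-, h1'⟩ heq
    simp only at heq h1 h1' h
    subst heq
    rw [Prod.mk.injEq]
    exact ⟨rfl, mul_right_cancel₀ (hne x h) (h1.trans h1'.symm)⟩
  · intro x hx
    refine ⟨(x, c x / g x), ⟨hx, ?_⟩, rfl⟩
    simp only
    rw [div_mul_cancel₀ _ (hne x hx)]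

/-- the level sets are constructible -/
theorem lc_icons {M : ℕ} (f : ∀ i, MvPolynomial (τ i) k) (G : MvPolynomial (Fin r) k) (d : ℕ)
    {Q : Set ((Σ i, τ i) × Fin M → ℂ)} (hQ : ICons k Q) (t : Test k) :
    ICons k {x : ((Σ i, τ i) × Fin M → ℂ) × t.E | x.2 ∈ t.W ∧ x.1 ∈ Q ∧
      ∀ l, l ≤ d → PowerSeries.coeff l (aeval (us f x.1) G) = if l = d then t.c x.2 else 0} := by
  refine (t.cW.mem PMap.snd).and (ICons.and (hQ.mem PMap.fst) (ICons.forall_le d fun l => ?_))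
  refine ICons.eq (PFun.coeff_aeval_us f PMap.fst G l) ?_
  by_cases hl : l = d
  · simp only [if_pos hl]
    exact PFun.comp (f := t.c) t.pf PMap.snd
  · simp only [if_neg hl]
    exact PFun.zero

theorem lc_icons_Q {M : ℕ} (f : ∀ i, MvPolynomial (τ i) k) (w : Fin r → ℕ) {D : ℕ} (hD : 0 < D)
    (m : ℕ) {P : Set (Fin r → ℂ)} (hPc : ICons k P) :
    ICons k {ψ : (Σ i, τ i) × Fin M → ℂ | Om w D m (us f ψ) ∧ pt w D m (us f ψ) ∈ P} := by
  refine (ICons.om f PMap.id' w hD m).and ?_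
  exact ICons.mem (f := fun x : ((Σ i, τ i) × Fin M → ℂ) => pt w D m (us f x)) hPc
    (PMap.pt f PMap.id' w D m)

/-- two power series which agree below `e` -/
theorem lc_exists_eta {a b : PowerSeries ℂ} {e : ℕ}
    (h : ∀ l, l < e → PowerSeries.coeff l a = PowerSeries.coeff l b) :
    ∃ η : PowerSeries ℂ, a = b + PowerSeries.X ^ e * η ∧
      PowerSeries.constantCoeff η = PowerSeries.coeff e a - PowerSeries.coeff e b := by
  have h1 : (PowerSeries.X : PowerSeries ℂ) ^ e ∣ a - b := by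
    rw [PowerSeries.X_pow_dvd_iff]
    intro l hl
    rw [map_sub, h l hl, sub_self]
  obtain ⟨η, hη⟩ := h1
  refine ⟨η, by rw [← hη]; ring, ?_⟩
  have h2 := PowerSeries.coeff_X_pow_mul η e 0
  rw [zero_add] at h2
  rw [← PowerSeries.coeff_zero_eq_constantCoeff_apply, ← h2, ← hη, map_sub]

/-- the change of a component: the data of a point of the level set -/
theorem lc_change {w : Fin r → ℕ} {n : ℕ} {H R : MvPolynomial (Fin r) k}
    (hH : IsWeightedHomogeneous w H n) (hR : Above w n R)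
    {D m d e : ℕ} (hD : 0 < D) (hm : 0 < m) (hmd : m * n < D * d) {i : Fin r} (hi : w i ≤ n)
    (he : D * e + m * (n - w i) = D * d) {a b : Fin r → PowerSeries ℂ} (h : Om w D m a)
    (hb : ∀ j, j ≠ i → b j = a j)
    (h1 : ∀ l, l < e → PowerSeries.coeff l (b i) = PowerSeries.coeff l (a i)) {δ : ℂ}
    (h2 : PowerSeries.coeff e (b i) = PowerSeries.coeff e (a i) + δ) :
    Om w D m b ∧ pt w D m b = pt w D m a ∧
    (∀ l, l < d → PowerSeries.coeff l (aeval b (H + R)) =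
        PowerSeries.coeff l (aeval a (H + R))) ∧
    PowerSeries.coeff d (aeval b (H + R)) = PowerSeries.coeff d (aeval a (H + R)) +
          δ * aeval (pt w D m a) (pderiv i H) := by
  obtain ⟨η, hη, hη0⟩ := lc_exists_eta h1
  have hbe : b = Function.update a i (a i + PowerSeries.X ^ e * η) := by
    funext j
    by_cases hj : j = i
    · subst hj
      rw [Function.update_self, hη]
    · rw [Function.update_of_ne hj, hb j hj]
  have h3 := swh_step hD hm hH hR hi h hmd he η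
  have h4 := om_update' h i h3.1 η
  rw [← hbe] at h3 h4
  refine ⟨h4.1, h4.2, h3.2.2.1, ?_⟩
  rw [h3.2.2.2, hη0, h2, add_sub_cancel_left]

open Classical in
/-- translation of one coefficient of the arc -/
noncomputable def lcTr {M : ℕ} (p : (Σ i, τ i) × Fin M) (ε : ℂ) (ψ : (Σ i, τ i) × Fin M → ℂ) :
    (Σ i, τ i) × Fin M → ℂ := fun q => ψ q + if q = p then ε else 0

omit [∀ i, Finite (τ i)] in
theorem lcTr_neg {M : ℕ} (p : (Σ i, τ i) × Fin M) (ε : ℂ) (ψ : (Σ i, τ i) × Fin M → ℂ) :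
    lcTr p ε (lcTr p (-ε) ψ) = ψ := by
  funext q
  unfold lcTr
  split_ifs <;> ring

omit [∀ i, Finite (τ i)] in
theorem lcTr_neg' {M : ℕ} (p : (Σ i, τ i) × Fin M) (ε : ℂ) (ψ : (Σ i, τ i) × Fin M → ℂ) :
    lcTr p (-ε) (lcTr p ε ψ) = ψ := by
  funext q
  unfold lcTr
  split_ifs <;> ring

omit [∀ i, Finite (τ i)] in
theorem spi_lcTr_ne {M : ℕ} {i j : Fin r} (h : j ≠ i) (x : τ i) (e : Fin M) (ε : ℂ)
    (ψ : (Σ i, τ i) × Fin M → ℂ) : spi j (lcTr (⟨i, x⟩, e) ε ψ) = spi j ψ := by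
  funext q
  unfold spi lcTr
  rw [if_neg, add_zero]
  intro h'
  exact h (congrArg (fun z => z.1.1) h')

omit [∀ i, Finite (τ i)] in
open Classical in
theorem spi_lcTr {M : ℕ} {i : Fin r} (x : τ i) (e : Fin M) (ε : ℂ)
    (ψ : (Σ i, τ i) × Fin M → ℂ) : spi i (lcTr (⟨i, x⟩, e) ε ψ) =
      Function.update (spi i ψ) (x, e) (spi i ψ (x, e) + ε) := by
  funext q
  by_cases h : q = (x, e)
  · subst h
    rw [Function.update_self]
    unfold spi lcTr
    rw [if_pos rfl]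
  · rw [Function.update_of_ne h]
    unfold spi lcTr
    rw [if_neg, add_zero]
    intro h'
    apply h
    simp only [Prod.mk.injEq, Sigma.mk.injEq, heq_eq_eq, true_and] at h'
    exact Prod.ext h'.1 h'.2

theorem PMap.lcTr {M : ℕ} (p : (Σ i, τ i) × Fin M) :
    PMap k (fun y : ℂ × ((Σ i, τ i) × Fin M → ℂ) => Mono.lcTr p y.1 y.2) := by
  classical
  refine PMap.pi fun q => ?_
  unfold Mono.lcTr
  have h1 : PFun k (fun y : ℂ × ((Σ i, τ i) × Fin M → ℂ) => y.2 q) :=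
    PFun.comp (f := fun χ : (Σ i, τ i) × Fin M → ℂ => χ q) (PFun.apply (k := k) q) PMap.snd
  by_cases h : q = p
  · simp only [if_pos h]
    exact h1.add (PFun.comp (f := fun χ : ℂ => χ) PFun.id' PMap.fst)
  · simp only [if_neg h]
    exact h1.add PFun.zero

omit [∀ i, Finite (τ i)] in
theorem lc_org {i : Fin r} {d : ℕ} {e : Fin (d + 1)} (he : 0 < (e : ℕ)) (x : τ i) (ε : ℂ)
    (ψ : (Σ i, τ i) × Fin (d + 1) → ℂ) :
    org (spi i (lcTr (⟨i, x⟩, e) ε ψ)) = org (spi i ψ) := by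
  funext y
  unfold org spi lcTr
  rw [if_neg, add_zero]
  intro h
  have h2 := congrArg (fun z => (z.2 : ℕ)) h
  simp only [Fin.val_zero] at h2
  omega

theorem lvl_tr {w : Fin r → ℕ} {n : ℕ} {H R : MvPolynomial (Fin r) k}
    (hw : ∀ i, 0 < w i ∧ w i ≤ n) (hH : IsWeightedHomogeneous w H n) (hR : Above w n R)
    {D m d : ℕ} (hD : 0 < D) (hm : 0 < m) (hmd : m * n < D * d)
    (f : ∀ i, MvPolynomial (τ i) k) {i : Fin r} (hf : Sm (f i) 0) {P : Set (Fin r → ℂ)}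
    (hPc : ICons k P) (hP : ∀ p ∈ P, aeval p (pderiv i H) ≠ 0) (t : Test k) :
    lvl f (H + R) d {ψ | Om w D m (us f ψ) ∧ pt w D m (us f ψ) ∈ P} t =
    lvl f (H + R) d {ψ | Om w D m (us f ψ) ∧ pt w D m (us f ψ) ∈ P} t.zr := by
  classical
  by_cases hex : ∃ ψ : (Σ i, τ i) × Fin (d + 1) → ℂ,
      Om w D m (us f ψ) ∧ pt w D m (us f ψ) ∈ P
  swap
  · have e1 : ∀ t' : Test k, {x : ((Σ i, τ i) × Fin (d + 1) → ℂ) × t'.E | x.2 ∈ t'.W ∧
        x.1 ∈ {ψ : (Σ i, τ i) × Fin (d + 1) → ℂ | Om w D m (us f ψ) ∧ pt w D m (us f ψ) ∈ P} ∧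
        ∀ l, l ≤ d → PowerSeries.coeff l (aeval (us f x.1) (H + R)) =
          if l = d then t'.c x.2 else 0} = ∅ := by
      intro t'
      ext x
      simp only [Set.mem_ofPred_eq, Set.mem_empty_iff_false, iff_false]
      rintro ⟨-, h, -⟩
      exact hex ⟨x.1, h⟩
    unfold lvl
    rw [e1, e1, mo_empty, mo_empty]
  obtain ⟨ψ₀, hψ₀, hψ₀P⟩ := hex
  have hwi := hw i
  have hd2 : D ∣ m * (n - w i) := by
    have hpd : IsWeightedHomogeneous w (pderiv i H) (n - w i) := hH.pderiv (by omega)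
    exact dvd_of_ne hpd (hP _ hψ₀P)
  obtain ⟨ν, hν⟩ := hd2
  have hle : m * (n - w i) ≤ m * n := Nat.mul_le_mul_left _ (Nat.sub_le _ _)
  have hlt : ν < d := by
    have : D * ν < D * d := by rw [← hν]; omega
    exact Nat.lt_of_mul_lt_mul_left this
  obtain ⟨e, he⟩ : ∃ e, e + ν = d := ⟨d - ν, by omega⟩
  have he0 : 0 < e := by omega
  have heN : e < d + 1 := by omega
  have hDe : D * e + m * (n - w i) = D * d := by
    rw [hν, ← he]
    ring
  have hQc := lc_icons_Q (M := d + 1) f w hD m hPc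
  -- enumeration of the coordinates
  obtain ⟨N, ⟨en⟩⟩ := Finite.exists_equiv_fin (τ i)
  have hstr : ∀ x : τ i, ICons k {ψ : (Σ i, τ i) × Fin (d + 1) → ℂ |
      aeval (org (spi i ψ)) (pderiv x (f i)) ≠ 0 ∧
      ∀ j : Fin N, j < en x → aeval (org (spi i ψ)) (pderiv (en.symm j) (f i)) = 0} := by
    intro x
    have a1 : PMap k (fun ψ : (Σ i, τ i) × Fin (d + 1) → ℂ => org (spi i ψ)) :=
      PMap.comp (f := fun z : τ i × Fin (d + 1) → ℂ => org z) PMap.org (PMap.spi i)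
    have a2 : ∀ p : MvPolynomial (τ i) k, PFun k (fun ψ : (Σ i, τ i) × Fin (d + 1) → ℂ =>
        aeval (org (spi i ψ)) p) := fun p =>
      PFun.comp (F := τ i → ℂ) (f := fun y : τ i → ℂ => aeval y p) ⟨p, fun _ => rfl⟩ a1
    refine (ICons.ne (a2 _) PFun.zero).and (ICons.forall_fin fun j => ?_)
    by_cases hj : j < en x
    · simp only [hj, true_imp_iff]
      exact ICons.eq (a2 _) PFun.zero
    · simp only [hj, false_imp_iff]
      exact ICons.const True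
  -- the strata of a level set
  have hsplit : ∀ t' : Test k, lvl f (H + R) d {ψ | Om w D m (us f ψ) ∧ pt w D m (us f ψ) ∈ P} t' =
      ∑ j : Fin N, lvl f (H + R) d
        ({ψ | Om w D m (us f ψ) ∧ pt w D m (us f ψ) ∈ P} ∩
        {ψ | aeval (org (spi i ψ)) (pderiv (en.symm j) (f i)) ≠ 0 ∧
          ∀ j' : Fin N, j' < en (en.symm j) →
            aeval (org (spi i ψ)) (pderiv (en.symm j') (f i)) = 0}) t' := by
    intro t'
    unfold lvl
    rw [← mo_biUnion Finset.univ]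
    · congr 1
      ext x
      simp only [Set.mem_ofPred_eq, Finset.mem_univ, true_and, Set.mem_inter_iff]
      constructor
      · rintro ⟨hx, hQ, hc⟩
        have h0 : aeval (org (spi i x.1)) (f i) = 0 := by
          rw [← coeff_zero_arcEval]
          refine hQ.1 i 0 ?_
          rw [mul_zero]
          exact Nat.mul_pos hm hwi.1
        obtain ⟨y, hy⟩ := hf _ h0
        let s : Finset (Fin N) := Finset.univ.filter fun j =>
          aeval (org (spi i x.1)) (pderiv (en.symm j) (f i)) ≠ 0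
        have hs : s.Nonempty := ⟨en y, Finset.mem_filter.2 ⟨Finset.mem_univ _, by
          rw [Equiv.symm_apply_apply]; exact hy⟩⟩
        refine ⟨s.min' hs, hx, ⟨hQ, (Finset.mem_filter.1 (s.min'_mem hs)).2, ?_⟩, hc⟩
        intro j hj
        rw [Equiv.apply_symm_apply] at hj
        by_contra hne
        have : s.min' hs ≤ j := s.min'_le j (Finset.mem_filter.2 ⟨Finset.mem_univ _, hne⟩)
        exact absurd hj (not_lt.2 this)
      · rintro ⟨j, hx, ⟨hQ, -⟩, hc⟩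
        exact ⟨hx, hQ, hc⟩
    · intro j _
      exact lc_icons f (H + R) d (hQc.inter (hstr (en.symm j))) t'
    · intro j _ j' _ hne
      rw [Set.disjoint_left]
      rintro x ⟨-, ⟨-, h1⟩, -⟩ ⟨-, ⟨-, h2⟩, -⟩
      simp only [Set.mem_ofPred_eq, Equiv.apply_symm_apply] at h1 h2
      rcases lt_trichotomy j j' with h | h | h
      · exact h1.1 (h2.2 j h)
      · exact hne h
      · exact h2.1 (h1.2 j' h)
  rw [hsplit t, hsplit t.zr]
  refine Finset.sum_congr rfl fun j _ => ?_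
  set x₀ : τ i := en.symm j with hx₀
  have hQj := hQc.inter (hstr x₀)
  have hA := lc_icons f (H + R) d hQj t
  have hA0 := lc_icons f (H + R) d hQj t.zr
  -- the function `∂_x f_i(org) ∂_i H(p)`
  let g : ((Σ i, τ i) × Fin (d + 1) → ℂ) × t.E → ℂ := fun x =>
    aeval (org (spi i x.1)) (pderiv x₀ (f i)) * aeval (pt w D m (us f x.1)) (pderiv i H)
  let c : ((Σ i, τ i) × Fin (d + 1) → ℂ) × t.E → ℂ := fun x => t.c x.2
  have hpt : PMap k (fun x : ((Σ i, τ i) × Fin (d + 1) → ℂ) × t.E => pt w D m (us f x.1)) :=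
    PMap.pt f PMap.fst w D m
  have hg : PFun k g := by
    refine PFun.mul ?_ (PFun.aeval' hpt _)
    have a1 : PMap k (fun ψ : (Σ i, τ i) × Fin (d + 1) → ℂ => org (spi i ψ)) :=
      PMap.comp (f := fun z : τ i × Fin (d + 1) → ℂ => org z) PMap.org (PMap.spi i)
    have a2 : PMap k (fun x : ((Σ i, τ i) × Fin (d + 1) → ℂ) × t.E => org (spi i x.1)) :=
      PMap.comp (f := fun ψ : (Σ i, τ i) × Fin (d + 1) → ℂ => org (spi i ψ)) a1 PMap.fst
    exact PFun.comp (F := τ i → ℂ) (f := fun y : τ i → ℂ => aeval y (pderiv x₀ (f i)))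
      ⟨_, fun _ => rfl⟩ a2
  have hc : PFun k c := PFun.comp (f := t.c) t.pf PMap.snd
  have m1 := lc_mo_div hA hg hc (fun x hx => mul_ne_zero hx.2.1.2.1 (hP _ hx.2.1.1.2))
  have m0 := lc_mo_div hA0 hg hc (fun x hx => mul_ne_zero hx.2.1.2.1 (hP _ hx.2.1.1.2))
  have i1 := lc_icons_div hA hg hc
  have i0 := lc_icons_div hA0 hg hc
  change mo k _ = mo k _
  rw [← m1]
  refine Eq.trans ?_ m0
  symm
  -- the change made by a translation
  have key : ∀ (ψ : (Σ i, τ i) × Fin (d + 1) → ℂ) (ε : ℂ), Om w D m (us f ψ) →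
      Om w D m (us f (lcTr (⟨i, x₀⟩, ⟨e, heN⟩) ε ψ)) ∧
      pt w D m (us f (lcTr (⟨i, x₀⟩, ⟨e, heN⟩) ε ψ)) = pt w D m (us f ψ) ∧
      (∀ l, l < d → PowerSeries.coeff l (aeval (us f (lcTr (⟨i, x₀⟩, ⟨e, heN⟩) ε ψ)) (H + R)) =
        PowerSeries.coeff l (aeval (us f ψ) (H + R))) ∧
      PowerSeries.coeff d (aeval (us f (lcTr (⟨i, x₀⟩, ⟨e, heN⟩) ε ψ)) (H + R)) =
        PowerSeries.coeff d (aeval (us f ψ) (H + R)) +
          ε * aeval (org (spi i ψ)) (pderiv x₀ (f i)) * aeval (pt w D m (us f ψ)) (pderiv i H) := by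
    intro ψ ε h1
    have hadd := coeff_arcEval_add he0 heN (f i) (spi i ψ) x₀ ε
    refine lc_change hH hR hD hm hmd hwi.2 hDe h1 ?_ ?_ ?_
    · intro j' hj'
      unfold us
      rw [spi_lcTr_ne hj']
    · intro l hl
      unfold us
      rw [spi_lcTr]
      exact hadd.1 l hl
    · unfold us
      rw [spi_lcTr]
      exact hadd.2
  let Φ : (((Σ i, τ i) × Fin (d + 1) → ℂ) × t.E) × ℂ → (((Σ i, τ i) × Fin (d + 1) → ℂ) × t.E) × ℂ :=
    fun y => ((lcTr (⟨i, x₀⟩, ⟨e, heN⟩) y.2 y.1.1, y.1.2), y.2)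
  have hΦ : PMap k Φ := by
    have a0 : PMap k (fun y : (((Σ i, τ i) × Fin (d + 1) → ℂ) × t.E) × ℂ => y.1.1) :=
      PMap.comp (f := fun z : ((Σ i, τ i) × Fin (d + 1) → ℂ) × t.E => z.1) PMap.fst PMap.fst
    have a2 : PMap k (fun y : (((Σ i, τ i) × Fin (d + 1) → ℂ) × t.E) × ℂ =>
        (y.2, y.1.1)) := PMap.prodMk PMap.snd a0
    have a4 := PMap.comp (f := fun z : ℂ × ((Σ i, τ i) × Fin (d + 1) → ℂ) =>
      lcTr (⟨i, x₀⟩, ⟨e, heN⟩) z.1 z.2) (PMap.lcTr (k := k) (⟨i, x₀⟩, ⟨e, heN⟩)) a2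
    have a5 : PMap k (fun y : (((Σ i, τ i) × Fin (d + 1) → ℂ) × t.E) × ℂ => y.1.2) :=
      PMap.comp (f := fun z : ((Σ i, τ i) × Fin (d + 1) → ℂ) × t.E => z.2) PMap.snd PMap.fst
    exact PMap.prodMk (PMap.prodMk a4 a5) PMap.snd
  refine mo_bij i0 i1 hΦ ⟨?_, ?_, ?_⟩
  · rintro ⟨⟨ψ, x⟩, ε⟩ ⟨⟨hx, ⟨⟨h1, h2⟩, h5⟩, h3⟩, h4⟩
    simp only [g, c, Test.zr] at hx h1 h2 h3 h4
    have hch := key ψ ε h1
    refine ⟨⟨hx, ⟨⟨hch.1, ?_⟩, ?_⟩, ?_⟩, ?_⟩
    · simp only [Φ]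
      rw [hch.2.1]
      exact h2
    · simp only [Φ, Set.mem_ofPred_eq] at h5 ⊢
      rw [lc_org (e := ⟨e, heN⟩) he0]
      exact h5
    · intro l hl
      simp only [Φ]
      rcases Nat.lt_or_eq_of_le hl with hl' | hl'
      · rw [hch.2.2.1 l hl', h3 l hl, if_neg hl'.ne, if_neg hl'.ne]
      · subst hl'
        rw [hch.2.2.2, h3 l hl, if_pos rfl, if_pos rfl, zero_add, ← h4]
        ring
    · simp only [Φ, g, c]
      rw [hch.2.1, lc_org (e := ⟨e, heN⟩) he0]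
      exact h4
  · rintro ⟨⟨ψ, x⟩, ε⟩ - ⟨⟨ψ', x'⟩, ε'⟩ - heq
    simp only [Φ, Prod.mk.injEq] at heq
    obtain ⟨⟨hsc, rfl⟩, rfl⟩ := heq
    have := congrArg (lcTr (⟨i, x₀⟩, ⟨e, heN⟩) (-ε)) hsc
    rw [lcTr_neg', lcTr_neg'] at this
    rw [this]
  · rintro ⟨⟨ψ, x⟩, ε⟩ ⟨⟨hx, ⟨⟨h1, h2⟩, h5⟩, h3⟩, h4⟩
    simp only [g, c] at hx h1 h2 h3 h4
    have hch := key ψ (-ε) h1
    refine ⟨((lcTr (⟨i, x₀⟩, ⟨e, heN⟩) (-ε) ψ, x), ε),
      ⟨⟨hx, ⟨⟨hch.1, ?_⟩, ?_⟩, ?_⟩, ?_⟩, ?_⟩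
    · simp only
      rw [hch.2.1]
      exact h2
    · simp only [Set.mem_ofPred_eq] at h5 ⊢
      rw [lc_org (e := ⟨e, heN⟩) he0]
      exact h5
    · intro l hl
      simp only [Test.zr]
      rcases Nat.lt_or_eq_of_le hl with hl' | hl'
      · rw [hch.2.2.1 l hl', h3 l hl, if_neg hl'.ne, if_neg hl'.ne]
      · subst hl'
        rw [hch.2.2.2, h3 l hl, if_pos rfl, if_pos rfl, ← h4]
        ring
    · simp only [g, c]
      rw [hch.2.1, lc_org (e := ⟨e, heN⟩) he0]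
      exact h4
    · simp only [Φ]
      rw [lcTr_neg]

end LC

end Pool.Agent.H75.Mono
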