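import Pool.Agent.H75.Fib.LB
import Pool.Agent.H75.Fib.LC

/-! # FIB, module LD: all levels -/

set_option autoImplicit false

namespace Pool.Agent.H75.Mono

open MvPolynomial Pool.Agent.H39.MonoR

section LD

variable {k : Type} [Field k] [Algebra k ℂ] {r : ℕ} {τ : Fin r → Type} [∀ i, Finite (τ i)]

theorem ICons.lvlQ (f : ∀ i, MvPolynomial (τ i) k) (G : MvPolynomial (Fin r) k) (d : ℕ)
    {Q : Set ((Σ i, τ i) × Fin (d + 1) → ℂ)} (hQ : ICons k Q) (t : Test k) :
    ICons k {x : ((Σ i, τ i) × Fin (d + 1) → ℂ) × t.E | x.2 ∈ t.W ∧ x.1 ∈ Q ∧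
    ∀ l, l ≤ d → PowerSeries.coeff l (aeval (us f x.1) G) = if l = d then t.c x.2 else 0} := by
  refine (t.cW.mem PMap.snd).and ((hQ.mem PMap.fst).and (ICons.forall_le d fun l => ?_))
  refine ICons.eq (PFun.coeff_aeval_us f PMap.fst G l) ?_
  by_cases hl : l = d
  · simp only [if_pos hl]
    exact t.pf.comp PMap.snd
  · simp only [if_neg hl]
    exact PFun.zero

/-- the value of `∂_i G` for `i ∈ B` and of `x_i ∂_i G` for `i ∉ B` -/
private noncomputable def qv (G : MvPolynomial (Fin r) k) (B : Finset (Fin r)) (i : Fin r)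
    (p : Fin r → ℂ) : ℂ :=
  if i ∈ B then aeval p (pderiv i G) else p i * aeval p (pderiv i G)

/-- the strata -/
private def Pst (G : MvPolynomial (Fin r) k) (B : Finset (Fin r)) (i : Fin r) :
    Set (Fin r → ℂ) :=
  {p | (p ≠ 0 ∧ aeval p G = 0) ∧ qv G B i p ≠ 0 ∧ ∀ j, j < i → qv G B j p = 0}

private theorem exists_pst {G : MvPolynomial (Fin r) k} {B : Finset (Fin r)} (hI : Isol G B)
    {p : Fin r → ℂ} (hp : p ≠ 0) (hG : aeval p G = 0) : ∃ i, p ∈ Pst G B i := by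
  classical
  have h1 : ∃ i, qv G B i p ≠ 0 := by
    by_contra h
    push Not at h
    refine hp (hI p (fun i hi => ?_) (fun i hi => ?_))
    · have := h i
      rwa [qv, if_pos hi] at this
    · have := h i
      rwa [qv, if_neg hi] at this
  let s : Finset (Fin r) := Finset.univ.filter fun i => qv G B i p ≠ 0
  have hs : s.Nonempty := by
    obtain ⟨i, hi⟩ := h1
    exact ⟨i, Finset.mem_filter.2 ⟨Finset.mem_univ _, hi⟩⟩
  refine ⟨s.min' hs, ⟨hp, hG⟩, (Finset.mem_filter.1 (s.min'_mem hs)).2, fun j hj => ?_⟩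
  by_contra hne
  have : s.min' hs ≤ j := s.min'_le j (Finset.mem_filter.2 ⟨Finset.mem_univ _, hne⟩)
  exact absurd hj (not_lt.2 this)

private theorem pst_unique {G : MvPolynomial (Fin r) k} {B : Finset (Fin r)}
    {p : Fin r → ℂ} {i j : Fin r} (hi : p ∈ Pst G B i) (hj : p ∈ Pst G B j) : i = j := by
  rcases lt_trichotomy i j with h | h | h
  · exact absurd (hj.2.2 i h) hi.2.1
  · exact h
  · exact absurd (hi.2.2 j h) hj.2.1

private theorem icons_imp' {E : Type} [Aff E] (p : Prop) {q : p → E → Prop}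
    (h : ∀ hp, ICons k {x | q hp x}) : ICons k {x | ∀ hp : p, q hp x} := by
  by_cases hp : p
  · have e : {x | ∀ hp : p, q hp x} = {x | q hp x} := by
      ext x
      exact ⟨fun h => h hp, fun h _ => h⟩
    rw [e]
    exact h hp
  · have e : {x | ∀ hp : p, q hp x} = Set.univ := by
      ext x
      simp [hp]
    rw [e]
    exact ICons.univ

private theorem icons_ne0 : ICons k {p : Fin r → ℂ | p ≠ 0} := by
  have e : {p : Fin r → ℂ | p ≠ 0} = {p | ∃ i, p i ≠ 0} := by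
    ext p
    simp only [Set.mem_ofPred_eq]
    exact Function.ne_iff
  rw [e]
  exact ICons.exists_fin fun i => ICons.ne (PFun.apply i) PFun.zero

private theorem pfun_qv (G : MvPolynomial (Fin r) k) (B : Finset (Fin r)) (i : Fin r) :
    PFun k (fun p : Fin r → ℂ => qv G B i p) := by
  by_cases h : i ∈ B
  · simp only [qv, if_pos h]
    exact PFun.aeval' (E := Fin r → ℂ) (p := fun x => x) PMap.id' _
  · simp only [qv, if_neg h]
    exact (PFun.apply i).mul (PFun.aeval' (E := Fin r → ℂ) (p := fun x => x) PMap.id' _)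

private theorem icons_g0 (G : MvPolynomial (Fin r) k) :
    ICons k {p : Fin r → ℂ | aeval p G = 0} :=
  ICons.eq (PFun.aeval' (E := Fin r → ℂ) (p := fun x => x) PMap.id' G) PFun.zero

private theorem icons_pst (G : MvPolynomial (Fin r) k) (B : Finset (Fin r)) (i : Fin r) :
    ICons k (Pst G B i) :=
  (icons_ne0.and (icons_g0 G)).and ((ICons.ne (pfun_qv G B i) PFun.zero).and
    (ICons.forall_fin fun j => icons_imp' _ fun _ => ICons.eq (pfun_qv G B j) PFun.zero))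

private theorem icons_Q {w : Fin r → ℕ} {D m d : ℕ} (hD : 0 < D)
    {f : ∀ i, MvPolynomial (τ i) k} {P : Set (Fin r → ℂ)} (hP : ICons k P) :
    ICons k {ψ : (Σ i, τ i) × Fin (d + 1) → ℂ | Om w D m (us f ψ) ∧
      pt w D m (us f ψ) ∈ P} :=
  (ICons.om f (ψ := fun x => x) PMap.id' w hD m).and
    (hP.mem (PMap.pt f (ψ := fun x => x) PMap.id' w D m))

private theorem zero_of_lvl {w : Fin r → ℕ} {n : ℕ} {H R : MvPolynomial (Fin r) k}
    (hH : IsWeightedHomogeneous w H n) (hR : Above w n R) {D m d : ℕ} (hD : 0 < D) (hm : 0 < m)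
    (hmd : m * n < D * d) {a : Fin r → PowerSeries ℂ} (hO : Om w D m a) {c : ℂ}
    (h : ∀ l, l ≤ d → PowerSeries.coeff l (aeval a (H + R)) = if l = d then c else 0) :
    aeval (pt w D m a) H = 0 := by
  by_contra hne
  obtain ⟨l, hl⟩ := dvd_of_ne hH hne
  have h1 : l < d := by
    rw [hl] at hmd
    exact lt_of_mul_lt_mul_left hmd (Nat.zero_le _)
  have h2 := swh_lead hD hm hH hR hO hl.symm
  rw [h l h1.le, if_neg h1.ne] at h2
  exact hne h2.symm

private theorem om_anti {w : Fin r → ℕ} {D m m' : ℕ} {a : Fin r → PowerSeries ℂ}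
    (h : Om w D m' a) (hm : m ≤ m') : Om w D m a :=
  fun i l hl => h i l (lt_of_lt_of_le hl (Nat.mul_le_mul_right _ hm))

/-- the decomposition into levels and strata -/
private theorem lvl_split {w : Fin r → ℕ} {n : ℕ} {H R : MvPolynomial (Fin r) k} (hn : 0 < n)
    (hw : ∀ i, 0 < w i ∧ w i ≤ n) (hH : IsWeightedHomogeneous w H n) (hR : Above w n R)
    {B : Finset (Fin r)} (hI : Isol H B) (f : ∀ i, MvPolynomial (τ i) k)
    {d : ℕ} (hd : 0 < d) (t : Test k) :
    lvl f (H + R) d {ψ | ∀ i, PowerSeries.coeff 0 (us f ψ i) = 0} t =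
    topl f H w n d t + ∑ m ∈ Finset.Ico 1 ((∏ i, w i) * d), ∑ i : Fin r,
      lvl f (H + R) d {ψ | Om w ((∏ i, w i) * n) m (us f ψ) ∧
        pt w ((∏ i, w i) * n) m (us f ψ) ∈ Pst H B i} t := by
  classical
  have hq : 0 < ∏ i, w i := Finset.prod_pos fun i _ => (hw i).1
  have hwq : ∀ i, w i ∣ ∏ i, w i := fun i => Finset.dvd_prod_of_mem w (Finset.mem_univ i)
  generalize hq' : ∏ i, w i = q at hq hwq ⊢
  obtain ⟨D, hDe⟩ : ∃ D, D = q * n := ⟨_, rfl⟩
  rw [← hDe]
  have hD : 0 < D := by rw [hDe]; exact Nat.mul_pos hq hn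
  have hwD : ∀ i, w i ∣ D := fun i => by rw [hDe]; exact Dvd.dvd.mul_right (hwq i) n
  have hO : ∀ a : Fin r → PowerSeries ℂ, Om w D (q * d) a ↔ Om w n d a := fun a => by
    rw [hDe]; exact om_scale hq d a
  have hqd : 0 < q * d := Nat.mul_pos hq hd
  have hO1 : ∀ a : Fin r → PowerSeries ℂ,
      (∀ i, PowerSeries.coeff 0 (a i) = 0) ↔ Om w D 1 a := by
    intro a
    constructor
    · intro h i l hl
      have h1 : w i ≤ D := Nat.le_of_dvd hD (hwD i)
      rw [one_mul] at hl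
      have h2 : l = 0 := by
        by_contra h2
        have h3 : 1 ≤ l := Nat.one_le_iff_ne_zero.2 h2
        have h4 : D * 1 ≤ D * l := Nat.mul_le_mul_left _ h3
        omega
      rw [h2]
      exact h i
    · intro h i
      refine h i 0 ?_
      rw [Nat.mul_zero, one_mul]
      exact (hw i).1
  have hQ : ICons k {ψ : (Σ i, τ i) × Fin (d + 1) → ℂ |
      ∀ i, PowerSeries.coeff 0 (us f ψ i) = 0} := by
    have e : {ψ : (Σ i, τ i) × Fin (d + 1) → ℂ |
      ∀ i, PowerSeries.coeff 0 (us f ψ i) = 0} =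
      {ψ : (Σ i, τ i) × Fin (d + 1) → ℂ | Om w D 1 (us f ψ)} := by
      ext ψ
      exact hO1 _
    rw [e]
    exact ICons.om f (ψ := fun x => x) PMap.id' w hD 1
  have c0 := ICons.lvlQ f (H + R) d hQ t
  have c1 : ICons k {x : ((Σ i, τ i) × Fin (d + 1) → ℂ) × t.E | Om w n d (us f x.1)} :=
    ICons.om f PMap.fst w hn d
  have e1 : {x : ((Σ i, τ i) × Fin (d + 1) → ℂ) × t.E | x ∈
      {x : ((Σ i, τ i) × Fin (d + 1) → ℂ) × t.E | x.2 ∈ t.W ∧
        x.1 ∈ {ψ | ∀ i, PowerSeries.coeff 0 (us f ψ i) = 0} ∧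
      ∀ l, l ≤ d → PowerSeries.coeff l (aeval (us f x.1) (H + R)) =
          if l = d then t.c x.2 else 0} ∧ Om w n d (us f x.1)} =
      {x : ((Σ i, τ i) × Fin (d + 1) → ℂ) × t.E | x.2 ∈ t.W ∧ Om w n d (us f x.1) ∧
        aeval (pt w n d (us f x.1)) H = t.c x.2} := by
    ext x
    constructor
    · rintro ⟨⟨h1, -, h2⟩, h3⟩
      refine ⟨h1, h3, ?_⟩
      rw [← swh_lead hn hd hH hR h3 (l := d) (Nat.mul_comm n d), h2 d le_rfl, if_pos rfl]
    · rintro ⟨h1, h2, h3⟩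
      refine ⟨⟨h1, ?_, fun l hl => ?_⟩, h2⟩
      · exact (hO1 _).2 (om_anti ((hO _).2 h2) hqd)
      · by_cases hld : l = d
        · rw [if_pos hld, hld, swh_lead hn hd hH hR h2 (l := d) (Nat.mul_comm n d), h3]
        · rw [if_neg hld]
          refine swh_low hn hH hR h2 ?_
          rw [Nat.mul_comm d n]
          exact Nat.mul_lt_mul_of_pos_left (by omega) hn
  have e2 : {x : ((Σ i, τ i) × Fin (d + 1) → ℂ) × t.E | x ∈
      {x : ((Σ i, τ i) × Fin (d + 1) → ℂ) × t.E | x.2 ∈ t.W ∧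
        x.1 ∈ {ψ | ∀ i, PowerSeries.coeff 0 (us f ψ i) = 0} ∧
      ∀ l, l ≤ d → PowerSeries.coeff l (aeval (us f x.1) (H + R)) =
          if l = d then t.c x.2 else 0} ∧ ¬ Om w n d (us f x.1)} =
      {x | ∃ m ∈ Finset.Ico 1 (q * d), x ∈
        {x : ((Σ i, τ i) × Fin (d + 1) → ℂ) × t.E | x.2 ∈ t.W ∧
          x.1 ∈ {ψ | Om w D m (us f ψ) ∧ pt w D m (us f ψ) ∈ {p | p ≠ 0}} ∧
          ∀ l, l ≤ d → PowerSeries.coeff l (aeval (us f x.1) (H + R)) =
          if l = d then t.c x.2 else 0}} := by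
    ext x
    constructor
    · rintro ⟨⟨h1, hz, h2⟩, h3⟩
      have hex : ∃ m, ¬ Om w D m (us f x.1) := ⟨q * d, fun h => h3 ((hO _).1 h)⟩
      have h4 := Nat.find_spec hex
      have h5 : Nat.find hex ≤ q * d := Nat.find_min' hex fun h => h3 ((hO _).1 h)
      have h6 : Nat.find hex ≠ 0 := fun h => by
        rw [h] at h4
        exact h4 (om_zero _ _ _)
      obtain ⟨m, hm⟩ : ∃ m, Nat.find hex = m + 1 := Nat.exists_eq_succ_of_ne_zero h6
      have h7 : Om w D m (us f x.1) := by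
        have := Nat.find_min hex (m := m) (by omega)
        exact not_not.1 this
      have hm0 : m ≠ 0 := by
        intro h
        rw [hm, h] at h4
        exact h4 ((hO1 _).1 hz)
      rw [hm, om_succ_iff hD (fun i => (hw i).1) hwD] at h4
      exact ⟨m, Finset.mem_Ico.2 ⟨by omega, by omega⟩, h1, ⟨h7, fun h => h4 ⟨h7, h⟩⟩, h2⟩
    · rintro ⟨m, hm, h1, ⟨h2, h3⟩, h4⟩
      have hm' := Finset.mem_Ico.1 hm
      refine ⟨⟨h1, (hO1 _).2 (om_anti h2 hm'.1), h4⟩, fun h5 => h3 ?_⟩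
      have h6 := om_anti ((hO _).2 h5) (Nat.succ_le_of_lt hm'.2)
      exact ((om_succ_iff hD (fun i => (hw i).1) hwD m _).1 h6).2
  have cm : ∀ m, ICons k {x : ((Σ i, τ i) × Fin (d + 1) → ℂ) × t.E | x.2 ∈ t.W ∧
          x.1 ∈ {ψ | Om w D m (us f ψ) ∧ pt w D m (us f ψ) ∈ {p | p ≠ 0}} ∧
          ∀ l, l ≤ d → PowerSeries.coeff l (aeval (us f x.1) (H + R)) =
          if l = d then t.c x.2 else 0} := fun m =>
    ICons.lvlQ f (H + R) d (icons_Q hD icons_ne0) t
  unfold lvl topl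
  rw [mo_split c0 c1, e1, e2, mo_biUnion]
  · congr 1
    refine Finset.sum_congr rfl fun m hm => ?_
    have hm' := Finset.mem_Ico.1 hm
    have hmd : m * n < D * d := by
      have := Nat.mul_lt_mul_of_pos_right hm'.2 hn
      calc m * n < q * d * n := this
        _ = D * d := by rw [hDe]; ring
    have e3 : {x : ((Σ i, τ i) × Fin (d + 1) → ℂ) × t.E | x.2 ∈ t.W ∧
          x.1 ∈ {ψ | Om w D m (us f ψ) ∧ pt w D m (us f ψ) ∈ {p | p ≠ 0}} ∧
          ∀ l, l ≤ d → PowerSeries.coeff l (aeval (us f x.1) (H + R)) =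
          if l = d then t.c x.2 else 0} =
        {x | ∃ i ∈ (Finset.univ : Finset (Fin r)), x ∈
        {x : ((Σ i, τ i) × Fin (d + 1) → ℂ) × t.E | x.2 ∈ t.W ∧
          x.1 ∈ {ψ | Om w D m (us f ψ) ∧ pt w D m (us f ψ) ∈ Pst H B i} ∧
          ∀ l, l ≤ d → PowerSeries.coeff l (aeval (us f x.1) (H + R)) =
          if l = d then t.c x.2 else 0}} := by
      ext x
      constructor
      · rintro ⟨h1, ⟨h2, h3⟩, h4⟩
        obtain ⟨i, hi⟩ := exists_pst hI h3 (zero_of_lvl hH hR hD hm'.1 hmd h2 h4)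
        exact ⟨i, Finset.mem_univ i, h1, ⟨h2, hi⟩, h4⟩
      · rintro ⟨i, -, h1, ⟨h2, h3⟩, h4⟩
        exact ⟨h1, ⟨h2, h3.1.1⟩, h4⟩
    rw [e3, mo_biUnion]
    · exact fun i _ => ICons.lvlQ f (H + R) d (icons_Q hD (icons_pst H B i)) t
    · intro i _ j _ hij
      rw [Set.disjoint_left]
      rintro x ⟨-, ⟨-, h1⟩, -⟩ ⟨-, ⟨-, h2⟩, -⟩
      exact hij (pst_unique h1 h2)
  · exact fun m _ => cm m
  · have key : ∀ m m' : ℕ, m < m' → Disjoint
        {x : ((Σ i, τ i) × Fin (d + 1) → ℂ) × t.E | x.2 ∈ t.W ∧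
          x.1 ∈ {ψ | Om w D m (us f ψ) ∧ pt w D m (us f ψ) ∈ {p | p ≠ 0}} ∧
          ∀ l, l ≤ d → PowerSeries.coeff l (aeval (us f x.1) (H + R)) =
          if l = d then t.c x.2 else 0}
        {x : ((Σ i, τ i) × Fin (d + 1) → ℂ) × t.E | x.2 ∈ t.W ∧
          x.1 ∈ {ψ | Om w D m' (us f ψ) ∧ pt w D m' (us f ψ) ∈ {p | p ≠ 0}} ∧
          ∀ l, l ≤ d → PowerSeries.coeff l (aeval (us f x.1) (H + R)) =
          if l = d then t.c x.2 else 0} := by
      intro m m' hmm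
      rw [Set.disjoint_left]
      rintro x ⟨-, ⟨-, h1⟩, -⟩ ⟨-, ⟨h2, -⟩, -⟩
      exact h1 ((om_succ_iff hD (fun i => (hw i).1) hwD m _).1 (om_anti h2 hmm)).2
    intro m _ m' _ hmm
    rcases lt_or_gt_of_ne hmm with h | h
    · exact key m m' h
    · exact (key m' m h).symm

/-- only the top level depends on `c` -/
theorem lvl_top {w : Fin r → ℕ} {n : ℕ} {H R : MvPolynomial (Fin r) k} (hn : 0 < n)
    (hw : ∀ i, 0 < w i ∧ w i ≤ n) (hH : IsWeightedHomogeneous w H n) (hR : Above w n R)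
    {B : Finset (Fin r)} (hI : Isol H B) (f : ∀ i, MvPolynomial (τ i) k)
    (hB : ∀ i ∈ B, Sm (f i) 0) {d : ℕ} (hd : 0 < d) (t : Test k) :
    lvl f (H + R) d {ψ | ∀ i, PowerSeries.coeff 0 (us f ψ i) = 0} t -
      lvl f (H + R) d {ψ | ∀ i, PowerSeries.coeff 0 (us f ψ i) = 0} t.zr =
    topl f H w n d t - topl f H w n d t.zr := by
  have hq : 0 < ∏ i, w i := Finset.prod_pos fun i _ => (hw i).1
  rw [lvl_split hn hw hH hR hI f hd t, lvl_split hn hw hH hR hI f hd t.zr]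
  have h : ∀ m ∈ Finset.Ico 1 ((∏ i, w i) * d), ∀ i : Fin r,
      lvl f (H + R) d {ψ | Om w ((∏ i, w i) * n) m (us f ψ) ∧
        pt w ((∏ i, w i) * n) m (us f ψ) ∈ Pst H B i} t =
      lvl f (H + R) d {ψ | Om w ((∏ i, w i) * n) m (us f ψ) ∧
        pt w ((∏ i, w i) * n) m (us f ψ) ∈ Pst H B i} t.zr := by
    intro m hm i
    have hm' := Finset.mem_Ico.1 hm
    have hD : 0 < (∏ i, w i) * n := Nat.mul_pos hq hn
    have hmd : m * n < (∏ i, w i) * n * d := by
      have := Nat.mul_lt_mul_of_pos_right hm'.2 hn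
      calc m * n < (∏ i, w i) * d * n := this
        _ = (∏ i, w i) * n * d := by ring
    by_cases hi : i ∈ B
    · refine lvl_tr hw hH hR hD hm'.1 hmd f (hB i hi) (icons_pst H B i) (fun p hp => ?_) t
      have h1 := hp.2.1
      rwa [qv, if_pos hi] at h1
    · refine lvl_rp hw hH hR hD hm'.1 hmd f i (icons_pst H B i) (fun p hp => ?_) t
      have h1 := hp.2.1
      rwa [qv, if_neg hi] at h1
  rw [Finset.sum_congr rfl fun m hm => Finset.sum_congr rfl fun i _ => h m hm i]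
  abel

end LD

end Pool.Agent.H75.Mono
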