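import Pool.Agent.H75.Fib.DIF

/-! # FIB, module ME1: multiple differences -/

set_option autoImplicit false

namespace Pool.Agent.H75.Mono

open MvPolynomial Pool.Agent.H39.MonoR

section ME1

variable {k : Type} [Field k] [Algebra k ℂ] {r : ℕ} {τ : Fin r → Type} [∀ i, Finite (τ i)]

/-- the test with `c_i = 0` for `i ∈ J` -/
def TestN.zs (t : TestN k r) (J : Finset (Fin r)) : TestN k r :=
  ⟨t.E, t.W, t.cW, fun x i => if i ∈ J then 0 else t.c x i, PMap.pi fun i => by
    by_cases h : i ∈ J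
    · simp only [if_pos h]
      exact PFun.zero
    · simp only [if_neg h]
      exact PFun.comp (f := fun c : Fin r → ℂ => c i) (PFun.apply i) t.pf⟩

/-- the multiple difference in the indices `i ∈ I` -/
noncomputable def zd (f : ∀ i, MvPolynomial (τ i) k) (I : Finset (Fin r)) (o : Fin r → ℕ)
    (t : TestN k r) : M k :=
  ∑ J ∈ I.powerset, (-1) ^ J.card * zn f o (t.zs J)

/-! The following private declarations are copied from `UE`. -/

private theorem icons_zn (f : ∀ i, MvPolynomial (τ i) k) (o : Fin r → ℕ) (t : TestN k r) (N : ℕ) :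
    ICons k {x : ((Σ i, τ i) × Fin N → ℂ) × t.E | x.2 ∈ t.W ∧
      ∀ i, Hit (f i) (o i) (spi i x.1) (t.c x.2 i)} :=
  (t.cW.mem PMap.snd).and (ICons.forall_fin fun i => ICons.hit (o i) (f i)
    (PMap.comp (f := Mono.spi i) (PMap.spi i) PMap.fst)
    (PFun.comp (f := fun c : Fin r → ℂ => c i) (PFun.apply i)
      (PMap.comp (f := t.c) t.pf PMap.snd)))

private theorem lu_cancel {a b : ℤ} {A B : M k}
    (h : ↑(Lu k ^ a) * A = ↑(Lu k ^ b) * B) : A = ↑(Lu k ^ (b - a)) * B := by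
  have h1 : A = ↑(Lu k ^ (-a)) * (↑(Lu k ^ a) * A) := by
    rw [← mul_assoc, ← Units.val_mul, ← zpow_add]
    simp
  rw [h1, h, ← mul_assoc, ← Units.val_mul, ← zpow_add]
  congr 3
  ring

/-! the variables outside of the `i`-th group -/

private def sq {N : ℕ} (i : Fin r) (ψ : (Σ j, τ j) × Fin N → ℂ) :
    {p : Σ j, τ j // p.1 ≠ i} × Fin N → ℂ := fun p => ψ (p.1.1, p.2)

private def spr {N : ℕ} (i j : Fin r) (hj : j ≠ i) (ψ : {p : Σ j, τ j // p.1 ≠ i} × Fin N → ℂ) :
    τ j × Fin N → ℂ := fun p => ψ (⟨⟨j, p.1⟩, hj⟩, p.2)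

private def glue {N : ℕ} (i : Fin r) (χ : τ i × Fin N → ℂ)
    (ψ : {p : Σ j, τ j // p.1 ≠ i} × Fin N → ℂ) : (Σ j, τ j) × Fin N → ℂ :=
  fun p => if h : p.1.1 = i then χ (h ▸ p.1.2, p.2) else ψ (⟨p.1, h⟩, p.2)

omit [∀ i, Finite (τ i)] in
private theorem spi_glue {N : ℕ} (i : Fin r) (χ : τ i × Fin N → ℂ)
    (ψ : {p : Σ j, τ j // p.1 ≠ i} × Fin N → ℂ) : spi i (glue i χ ψ) = χ := by
  funext p
  simp [spi, glue]

omit [∀ i, Finite (τ i)] in
private theorem sq_glue {N : ℕ} (i : Fin r) (χ : τ i × Fin N → ℂ)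
    (ψ : {p : Σ j, τ j // p.1 ≠ i} × Fin N → ℂ) : sq i (glue i χ ψ) = ψ := by
  funext p
  have h := p.1.2
  simp only [sq, glue]
  rw [dif_neg h]

omit [∀ i, Finite (τ i)] in
private theorem ext_glue {N : ℕ} (i : Fin r) {ψ ψ' : (Σ j, τ j) × Fin N → ℂ}
    (h1 : spi i ψ = spi i ψ') (h2 : sq i ψ = sq i ψ') : ψ = ψ' := by
  funext p
  obtain ⟨⟨j, x⟩, l⟩ := p
  by_cases h : j = i
  · subst h
    exact congrFun h1 (x, l)
  · exact congrFun h2 (⟨⟨j, x⟩, h⟩, l)

private theorem icons_imp {E : Type} [Aff E] (p : Prop) {q : p → E → Prop}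
    (h : ∀ hp, ICons k {x | q hp x}) : ICons k {x | ∀ hp : p, q hp x} := by
  by_cases hp : p
  · have e : {x | ∀ hp : p, q hp x} = {x | q hp x} := by
      ext x
      exact ⟨fun h => h hp, fun h _ => h⟩
    rw [e]
    exact h hp
  · have e : {x | ∀ hp : p, q hp x} = Set.univ := by
      ext x
      simp [hp]
    rw [e]
    exact ICons.univ

private theorem pmap_spr {N : ℕ} (i j : Fin r) (hj : j ≠ i) :
    PMap k (fun ψ : {p : Σ j, τ j // p.1 ≠ i} × Fin N → ℂ => spr i j hj ψ) :=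
  PMap.pi fun p => PFun.apply (k := k)
    ((⟨⟨j, p.1⟩, hj⟩, p.2) : {p : Σ j, τ j // p.1 ≠ i} × Fin N)

private theorem pmap_sq {N : ℕ} (i : Fin r) :
    PMap k (fun ψ : (Σ j, τ j) × Fin N → ℂ => sq i ψ) :=
  PMap.pi fun p => PFun.apply (k := k) ((p.1.1, p.2) : (Σ j, τ j) × Fin N)

private theorem icons_thN {E : Type} [Aff E] (f : ∀ i, MvPolynomial (τ i) k) (i : Fin r)
    (o : Fin r → ℕ) (N : ℕ) (t : TestN k r)
    {ψ : E → ({p : Σ j, τ j // p.1 ≠ i} × Fin N → ℂ)} (hψ : PMap k ψ) {w : E → t.E}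
    (hw : PMap k w) :
    ICons k {y : E | w y ∈ t.W ∧ ∀ j (hj : j ≠ i), Hit (f j) (o j) (spr i j hj (ψ y))
      (t.c (w y) j)} :=
  (t.cW.mem hw).and (ICons.forall_fin fun j => icons_imp _ fun hj =>
    ICons.hit (o j) (f j) (PMap.comp (f := spr i j hj) (pmap_spr i j hj) hψ)
    (PFun.comp (f := fun c : Fin r → ℂ => c j) (PFun.apply j)
      (PMap.comp (f := t.c) t.pf hw)))

/-- the test formed by the arcs of the other groups -/
private def thN (f : ∀ i, MvPolynomial (τ i) k) (i : Fin r) (o : Fin r → ℕ) (N : ℕ)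
    (t : TestN k r) : Test k :=
  ⟨({p : Σ j, τ j // p.1 ≠ i} × Fin N → ℂ) × t.E,
    {y | y.2 ∈ t.W ∧ ∀ j (hj : j ≠ i), Hit (f j) (o j) (spr i j hj y.1) (t.c y.2 j)},
    icons_thN f i o N t PMap.fst PMap.snd, fun y => t.c y.2 i,
    PFun.comp (f := fun c : Fin r → ℂ => c i) (PFun.apply i)
      (PMap.comp (f := t.c) t.pf PMap.snd)⟩

private theorem card_sig (i : Fin r) :
    Nat.card (Σ j, τ j) = Nat.card (τ i) + Nat.card {p : Σ j, τ j // p.1 ≠ i} := by
  classical
  let e : (Σ j, τ j) ≃ τ i ⊕ {p : Σ j, τ j // p.1 ≠ i} :=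
    { toFun := fun p => if h : p.1 = i then Sum.inl (h ▸ p.2) else Sum.inr ⟨p, h⟩
      invFun := fun y => y.elim (fun x => ⟨i, x⟩) (fun p => p.1)
      left_inv := by
        rintro ⟨j, x⟩
        by_cases h : j = i
        · subst h
          simp
        · simp [h]
      right_inv := by
        rintro (x | ⟨⟨j, x⟩, h⟩)
        · simp
        · have h' : ¬ j = i := h
          simp [h'] }
  rw [Nat.card_congr e, Nat.card_sum]

/-- truncation of the arcs in the test -/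
private theorem zt_thN (f : ∀ i, MvPolynomial (τ i) k) (i : Fin r) (o : Fin r → ℕ) (m : ℕ)
    (t : TestN k r) {N N' : ℕ} (h : N ≤ N') (hN : ∀ j, j ≠ i → o j < N) :
    zt (f i) m (thN f i o N' t) =
      ↑(Lu k ^ ((Nat.card {p : Σ j, τ j // p.1 ≠ i} * (N' - N) : ℕ) : ℤ)) *
        zt (f i) m (thN f i o N t) := by
  have hc : ∀ n : ℕ, ICons k {x : ({p : Σ j, τ j // p.1 ≠ i} × Fin n → ℂ) ×
      (τ i × Fin (m + 1) → ℂ) × t.E |
      (x.2.2 ∈ t.W ∧ ∀ j (hj : j ≠ i), Hit (f j) (o j) (spr i j hj x.1) (t.c x.2.2 j)) ∧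
        Hit (f i) m x.2.1 (t.c x.2.2 i)} := fun n =>
    ICons.and (icons_thN f i o n t PMap.fst (PMap.snd.comp PMap.snd))
      (ICons.hit m (f i) (PMap.fst.comp PMap.snd)
        (PFun.comp (f := fun c : Fin r → ℂ => c i) (PFun.apply i)
      (PMap.comp (f := t.c) t.pf (PMap.snd.comp PMap.snd))))
  have hs : ∀ n : ℕ, mo k {x : (τ i × Fin (m + 1) → ℂ) × (thN f i o n t).E |
      x.2 ∈ (thN f i o n t).W ∧ Hit (f i) m x.1 ((thN f i o n t).c x.2)} =
      mo k {x : ({p : Σ j, τ j // p.1 ≠ i} × Fin n → ℂ) × (τ i × Fin (m + 1) → ℂ) × t.E |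
      (x.2.2 ∈ t.W ∧ ∀ j (hj : j ≠ i), Hit (f j) (o j) (spr i j hj x.1) (t.c x.2.2 j)) ∧
        Hit (f i) m x.2.1 (t.c x.2.2 i)} := by
    intro n
    have hf : PMap k (fun x : (τ i × Fin (m + 1) → ℂ) ×
        ({p : Σ j, τ j // p.1 ≠ i} × Fin n → ℂ) × t.E => (x.2.1, x.1, x.2.2)) :=
      (PMap.fst.comp PMap.snd).prodMk (PMap.fst.prodMk (PMap.snd.comp PMap.snd))
    refine mo_bij (((thN f i o n t).cW.mem PMap.snd).and
        (ICons.hit m (f i) PMap.fst ((thN f i o n t).pf.comp PMap.snd))) (hc n) hf ⟨?_, ?_, ?_⟩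
    · rintro ⟨x, y, w⟩ ⟨h1, h2⟩
      exact ⟨h1, h2⟩
    · rintro ⟨a, b, c⟩ _ ⟨a', b', c'⟩ _ hxy
      simp only [Prod.mk.injEq] at hxy
      obtain ⟨h1, h2, h3⟩ := hxy
      rw [h1, h2, h3]
    · rintro ⟨a, b, c⟩ ⟨h1, h2⟩
      exact ⟨(b, a, c), ⟨h1, h2⟩, rfl⟩
  have h1 := mo_cyl (k := k) h (hc N)
  have e1 : {x : ({p : Σ j, τ j // p.1 ≠ i} × Fin N' → ℂ) × (τ i × Fin (m + 1) → ℂ) × t.E |
      (x.2.2 ∈ t.W ∧ ∀ j (hj : j ≠ i), Hit (f j) (o j) (spr i j hj x.1) (t.c x.2.2 j)) ∧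
        Hit (f i) m x.2.1 (t.c x.2.2 i)} =
      {x : ({p : Σ j, τ j // p.1 ≠ i} × Fin N' → ℂ) × (τ i × Fin (m + 1) → ℂ) × t.E |
        (tr h x.1, x.2) ∈ {x : ({p : Σ j, τ j // p.1 ≠ i} × Fin N → ℂ) ×
      (τ i × Fin (m + 1) → ℂ) × t.E |
      (x.2.2 ∈ t.W ∧ ∀ j (hj : j ≠ i), Hit (f j) (o j) (spr i j hj x.1) (t.c x.2.2 j)) ∧
        Hit (f i) m x.2.1 (t.c x.2.2 i)}} := by
    ext x
    simp only [Set.mem_ofPred_eq]
    refine and_congr_left fun _ => and_congr_right fun _ => forall_congr' fun j =>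
      forall_congr' fun hj => ?_
    exact (hit_tr h (f j) (hN j hj) (spr i j hj x.1) _).symm
  unfold zt
  rw [hs N', hs N, e1, h1, mul_assoc]

private theorem zn_thN (f : ∀ i, MvPolynomial (τ i) k) (i : Fin r) (o : Fin r → ℕ) (m : ℕ)
    (t : TestN k r) {N : ℕ} (hN : ∀ j, j ≠ i → o j < N) (hN0 : 0 < N) :
    zn f (Function.update o i m) t =
      ↑(Lu k ^ (-((Nat.card {p : Σ j, τ j // p.1 ≠ i} * (N - 1) : ℕ) : ℤ))) *
        zt (f i) m (thN f i o N t) := by
  have hN' : ∀ j, Function.update o i m j < N + m := by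
    intro j
    by_cases hj : j = i
    · subst hj
      rw [Function.update_self]
      omega
    · rw [Function.update_of_ne hj]
      have := hN j hj
      omega
  have h1 := mo_zn f (Function.update o i m) t hN' (by omega)
  have h2 : mo k {x : ((Σ i, τ i) × Fin (N + m) → ℂ) × t.E | x.2 ∈ t.W ∧
      ∀ j, Hit (f j) (Function.update o i m j) (spi j x.1) (t.c x.2 j)} =
      mo k {x : (τ i × Fin (N + m) → ℂ) × (thN f i o (N + m) t).E |
      x.2 ∈ (thN f i o (N + m) t).W ∧ Hit (f i) m x.1 ((thN f i o (N + m) t).c x.2)} := by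
    refine mo_bij (icons_zn f _ t (N + m)) (((thN f i o (N + m) t).cW.mem PMap.snd).and
        (ICons.hit m (f i) PMap.fst ((thN f i o (N + m) t).pf.comp PMap.snd)))
        (f := fun x => (spi i x.1, (sq i x.1, x.2))) ?_ ⟨?_, ?_, ?_⟩
    · exact PMap.prodMk (PMap.comp (f := Mono.spi i) (PMap.spi i) PMap.fst)
        (PMap.prodMk (PMap.comp (f := sq i) (pmap_sq i) PMap.fst) PMap.snd)
    · rintro ⟨ψ, w⟩ ⟨h1, h2⟩
      refine ⟨⟨h1, fun j hj => ?_⟩, ?_⟩
      · have := h2 j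
        rw [Function.update_of_ne hj] at this
        exact this
      · have := h2 i
        rw [Function.update_self] at this
        exact this
    · rintro ⟨ψ, w⟩ _ ⟨ψ', w'⟩ _ h
      have h1 : spi i ψ = spi i ψ' := congrArg Prod.fst h
      have h2 : (sq i ψ, w) = (sq i ψ', w') := congrArg Prod.snd h
      have h3 : sq i ψ = sq i ψ' := congrArg Prod.fst h2
      have h4 : w = w' := congrArg Prod.snd h2
      rw [ext_glue i h1 h3, h4]
    · rintro ⟨χ, ψ, w⟩ ⟨⟨h1, h2⟩, h3⟩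
      refine ⟨(glue i χ ψ, w), ⟨h1, fun j => ?_⟩, ?_⟩
      · by_cases hj : j = i
        · subst hj
          rw [Function.update_self]
          simp only
          rw [spi_glue]
          exact h3
        · rw [Function.update_of_ne hj]
          have h4 := h2 j hj
          simp only at h4 ⊢
          have h5 : spi j (glue i χ ψ) = spr i j hj ψ := by
            have h6 := congrArg (spr i j hj) (sq_glue i χ ψ)
            exact h6
          rw [h5]
          exact h4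
      · simp only
        rw [spi_glue, sq_glue]
  have h3 := mo_hit (k := k) (show m < N + m by omega) (f i) (thN f i o (N + m) t)
  have h4 := zt_thN f i o m t (Nat.le_add_right N m) hN
  rw [h1] at h2
  rw [h2.trans h3, h4] at h1
  have h5 := h2.trans h3
  rw [h4, ← mul_assoc, ← Units.val_mul, ← zpow_add] at h5
  have h6 := lu_cancel h5
  rw [h6]
  congr 3
  rw [card_sig (τ := τ) i]
  obtain ⟨q, rfl⟩ : ∃ q, N = q + 1 := ⟨N - 1, by omega⟩
  have e1 : q + 1 + m - 1 = q + m := by omega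
  have e2 : q + 1 + m - (q + 1) = m := by omega
  have e3 : q + 1 - 1 = q := by omega
  rw [e1, e2, e3]
  push_cast
  ring


/-- the difference in one index -/
private theorem zt_thN_zs (f : ∀ i, MvPolynomial (τ i) k) (i : Fin r) (o : Fin r → ℕ) (m N : ℕ)
    (t : TestN k r) {J : Finset (Fin r)} (hJ : i ∉ J) :
    zt (f i) m (thN f i o N (t.zs (insert i J))) = zt (f i) m (thN f i o N (t.zs J)).zr := by
  have h : {x : (τ i × Fin (m + 1) → ℂ) × (thN f i o N (t.zs (insert i J))).E |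
      x.2 ∈ (thN f i o N (t.zs (insert i J))).W ∧
        Hit (f i) m x.1 ((thN f i o N (t.zs (insert i J))).c x.2)} =
      {x : (τ i × Fin (m + 1) → ℂ) × (thN f i o N (t.zs J)).zr.E |
      x.2 ∈ (thN f i o N (t.zs J)).zr.W ∧
        Hit (f i) m x.1 ((thN f i o N (t.zs J)).zr.c x.2)} := by
    ext ⟨x, y, z⟩
    have e1 : (t.zs (insert i J)).c z i = 0 := by
      simp [TestN.zs]
    have e2 : ∀ j, j ≠ i → (t.zs (insert i J)).c z j = (t.zs J).c z j := by
      intro j hj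
      simp [TestN.zs, hj]
    show (z ∈ t.W ∧ ∀ j (hj : j ≠ i), Hit (f j) (o j) (spr i j hj y)
        ((t.zs (insert i J)).c z j)) ∧ Hit (f i) m x ((t.zs (insert i J)).c z i) ↔
      (z ∈ t.W ∧ ∀ j (hj : j ≠ i), Hit (f j) (o j) (spr i j hj y)
        ((t.zs J).c z j)) ∧ Hit (f i) m x 0
    rw [e1]
    refine and_congr_left fun _ => and_congr_right fun _ => forall_congr' fun j =>
      forall_congr' fun hj => ?_
    rw [e2 j hj]
  unfold zt
  exact congrArg₂ _ (congrArg _ h) rfl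

/-- the difference in one index is rational -/
private theorem dif_rat (f : ∀ i, MvPolynomial (τ i) k) (i : Fin r) {S : Set (ℤ × ℕ)}
    (h : Inv (f i) S) {J : Finset (Fin r)} (hJ : i ∉ J) :
    RatF (Lu k) S (fun x : (Fin r → ℕ) × TestN k r =>
      PowerSeries.mk fun m => zn f (Function.update x.1 i m) (x.2.zs J) -
        zn f (Function.update x.1 i m) (x.2.zs (insert i J))) := by
  refine ((RatF.comp h.dif fun x : (Fin r → ℕ) × TestN k r =>
    thN f i x.1 (∑ j, x.1 j + 1) (x.2.zs J)).smul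
    fun x => ↑(Lu k ^ (-((Nat.card {p : Σ j, τ j // p.1 ≠ i} *
      (∑ j, x.1 j + 1 - 1) : ℕ) : ℤ)))).congr fun x => ?_
  have hN : ∀ j, j ≠ i → x.1 j < ∑ j, x.1 j + 1 := fun j _ => Nat.lt_succ_of_le
      (Finset.single_le_sum (fun j _ => Nat.zero_le _) (Finset.mem_univ j))
  ext m
  rw [PowerSeries.coeff_C_mul, PowerSeries.coeff_mk, PowerSeries.coeff_mk,
    zn_thN f i x.1 m (x.2.zs J) hN (by omega), zn_thN f i x.1 m (x.2.zs (insert i J)) hN (by omega),
    zt_thN_zs f i x.1 m _ x.2 hJ, mul_sub]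

private theorem ratF_sum {T J : Type*} {S : Set (ℤ × ℕ)} (s : Finset J)
    (F : J → T → PowerSeries (M k)) (h : ∀ j ∈ s, RatF (Lu k) S (F j)) :
    RatF (Lu k) S (fun t => ∑ j ∈ s, F j t) := by
  classical
  induction s using Finset.induction_on with
  | empty => exact RatF.of_fin 0 (fun t n _ => by simp)
  | insert j s hj ih =>
    have h1 := (h j (Finset.mem_insert_self j s)).add
      (ih fun j' hj' => h j' (Finset.mem_insert_of_mem hj'))
    rw [Set.union_self] at h1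
    exact h1.congr fun t => by rw [Finset.sum_insert hj]

theorem zd_rat (f : ∀ i, MvPolynomial (τ i) k) (I : Finset (Fin r)) (i : Fin r)
    {S : Set (ℤ × ℕ)} (h1 : i ∈ I → Inv (f i) S) (h2 : i ∉ I → ZRat (f i) S) :
    RatF (Lu k) S (fun x : (Fin r → ℕ) × TestN k r =>
      PowerSeries.mk fun m => zd f I (Function.update x.1 i m) x.2) := by
  by_cases hi : i ∈ I
  · have h3 := ratF_sum (k := k) (S := S) (I.erase i).powerset
      (fun J (x : (Fin r → ℕ) × TestN k r) => PowerSeries.C ((-1) ^ J.card) *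
        PowerSeries.mk fun m => zn f (Function.update x.1 i m) (x.2.zs J) -
        zn f (Function.update x.1 i m) (x.2.zs (insert i J)))
      (fun J hJ => (dif_rat f i (h1 hi) (fun h => Finset.notMem_erase i I
        (Finset.mem_powerset.1 hJ h))).smul _)
    refine h3.congr fun x => ?_
    ext m
    rw [map_sum, PowerSeries.coeff_mk, zd]
    conv_rhs => rw [← Finset.insert_erase hi]
    rw [Finset.sum_powerset_insert (Finset.notMem_erase i I), ← Finset.sum_add_distrib]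
    refine Finset.sum_congr rfl fun J hJ => ?_
    have hiJ : i ∉ J := fun h => Finset.notMem_erase i I (Finset.mem_powerset.1 hJ h)
    rw [PowerSeries.coeff_C_mul, PowerSeries.coeff_mk, Finset.card_insert_of_notMem hiJ]
    ring
  · have h3 := ratF_sum (k := k) (S := S) I.powerset
      (fun J (x : (Fin r → ℕ) × TestN k r) => PowerSeries.C ((-1) ^ J.card) *
        PowerSeries.mk fun m => zn f (Function.update x.1 i m) (x.2.zs J))
      (fun J hJ => (RatF.comp (zn_rat f i (h2 hi))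
        fun x : (Fin r → ℕ) × TestN k r => (x.1, x.2.zs J)).smul _)
    refine h3.congr fun x => ?_
    ext m
    rw [map_sum, PowerSeries.coeff_mk, zd]
    refine Finset.sum_congr rfl fun J hJ => ?_
    rw [PowerSeries.coeff_C_mul, PowerSeries.coeff_mk]

end ME1

end Pool.Agent.H75.Mono
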