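import Pool.Agent.H75.Fib.ME1

/-! # FIB, module ME2: marginals -/

set_option autoImplicit false

namespace Pool.Agent.H75.Mono

open MvPolynomial Pool.Agent.H39.MonoR

section ME2

variable {k : Type} [Field k] [Algebra k ℂ] {r : ℕ} {τ : Fin r → Type} [∀ i, Finite (τ i)]

/-- a monomial of weight `n` which contains `u_i`, `w_i = n`, is `u_i` -/
private theorem me2_single {w : Fin r → ℕ} {n : ℕ} (hn : 0 < n) (hw : ∀ i, 0 < w i ∧ w i ≤ n)
    {i : Fin r} (hi : w i = n) {d : Fin r →₀ ℕ} (hd : Finsupp.weight w d = n) (h : d i ≠ 0) :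
    d = Finsupp.single i 1 := by
  classical
  have h1 : Finsupp.weight w d = ∑ j, d j * w j := by
    rw [Finsupp.weight_apply, Finsupp.sum_fintype _ _ (fun j => by simp)]
    simp
  rw [h1, ← Finset.add_sum_erase _ _ (Finset.mem_univ i), hi] at hd
  have h2 : 1 ≤ d i := Nat.one_le_iff_ne_zero.2 h
  have h3 : n ≤ d i * n := Nat.le_mul_of_pos_left n h2
  have h4 : d i * n = n := by omega
  have h5 : d i = 1 := by
    have : d i * n = 1 * n := by omega
    exact Nat.eq_of_mul_eq_mul_right hn this
  have h6 : ∑ j ∈ Finset.univ.erase i, d j * w j = 0 := by omega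
  ext j
  by_cases hj : j = i
  · subst hj
    rw [Finsupp.single_eq_same, h5]
  · rw [Finsupp.single_eq_of_ne hj]
    have h7 := (Finset.sum_eq_zero_iff.1 h6) j (Finset.mem_erase.2 ⟨hj, Finset.mem_univ j⟩)
    have := (hw j).1
    rcases Nat.mul_eq_zero.1 h7 with h8 | h8
    · exact h8
    · omega

/-- if `w_i = n` then `H = c u_i + H'`, `c ≠ 0`, where `u_i` does not occur in `H'` -/
theorem exists_lin {w : Fin r → ℕ} {n : ℕ} {H : MvPolynomial (Fin r) k} (hn : 0 < n)
    (hw : ∀ i, 0 < w i ∧ w i ≤ n) (hH : IsWeightedHomogeneous w H n) {B : Finset (Fin r)}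
    (hB : ∀ i ∈ B, w i < n) (hI : Isol H B) {i : Fin r} (hi : w i = n) :
    ∃ (c : k) (H' : MvPolynomial (Fin r) k), c ≠ 0 ∧ H = C c * X i + H' ∧ i ∉ H'.vars := by
  classical
  have hv : i ∉ (H - C (coeff (Finsupp.single i 1) H) * X i).vars := by
    rw [mem_vars_iff_mem_support]
    rintro ⟨d, hd, hdi⟩
    have hd1 := mem_support_iff.1 hd
    have hdi' : d i ≠ 0 := Finsupp.mem_support_iff.1 hdi
    apply hd1
    rw [coeff_sub, coeff_C_mul, coeff_X]
    by_cases h : d = Finsupp.single i 1
    · rw [h, if_pos rfl, mul_one, sub_self]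
    · rw [if_neg (Ne.symm h), mul_zero, sub_zero]
      by_contra h2
      exact h (me2_single hn hw hi (hH h2) hdi')
  refine ⟨coeff (Finsupp.single i 1) H, H - C (coeff (Finsupp.single i 1) H) * X i, ?_,
    by ring, hv⟩
  intro hc
  rw [hc, C_0, zero_mul, sub_zero] at hv
  have hd0 : ∀ d ∈ H.support, d i = 0 := by
    intro d hd
    by_contra h
    exact hv ((mem_vars_iff_mem_support i).2 ⟨d, hd, Finsupp.mem_support_iff.2 h⟩)
  have hiB : i ∉ B := fun h => by
    have := hB i h
    omega
  have hx := hI (Pi.single i 1) ?_ ?_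
  · have := congrFun hx i
    rw [Pi.single_eq_same, Pi.zero_apply] at this
    exact one_ne_zero this
  · intro j hj
    have hjn := hB j hj
    rw [aeval_def, eval₂_eq]
    refine Finset.sum_eq_zero fun d hd => ?_
    have hwd : Finsupp.weight w d = n - w j := (hH.pderiv (i := j) (by omega)) (mem_support_iff.1 hd)
    have hji : j ≠ i := fun h => by rw [h] at hj; exact hiB hj
    have hdi : d i = 0 := by
      have h1 := mem_support_iff.1 hd
      rw [coeff_pderiv] at h1
      have h2 := left_ne_zero_of_mul h1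
      have h3 := hd0 _ (mem_support_iff.2 h2)
      simpa using (Nat.add_eq_zero_iff.1 (by simpa using h3 : d i + _ = 0)).1
    obtain ⟨l, hl⟩ : ∃ l, d l ≠ 0 := by
      by_contra h
      push Not at h
      have : d = 0 := Finsupp.ext h
      rw [this, map_zero] at hwd
      omega
    have hli : l ≠ i := fun h => hl (h ▸ hdi)
    have : ∏ i_1 ∈ d.support, (Pi.single i (1 : ℂ) : Fin r → ℂ) i_1 ^ d i_1 = 0 := by
      refine Finset.prod_eq_zero (Finsupp.mem_support_iff.2 hl) ?_
      rw [Pi.single_eq_of_ne hli, zero_pow hl]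
    rw [this, mul_zero]
  · intro j hj
    by_cases hji : j = i
    · subst hji
      rw [pderiv_eq_zero_of_notMem_vars hv, map_zero, mul_zero]
    · rw [Pi.single_eq_of_ne hji, zero_mul]

/-- if `w_i = n` and `c_i` is replaced by `0`, then the class does not depend on `c` -/
theorem zn_marg {w : Fin r → ℕ} {n : ℕ} {H : MvPolynomial (Fin r) k} (hn : 0 < n)
    (hw : ∀ i, 0 < w i ∧ w i ≤ n) (hH : IsWeightedHomogeneous w H n) {B : Finset (Fin r)}
    (hB : ∀ i ∈ B, w i < n) (hI : Isol H B) (f : ∀ i, MvPolynomial (τ i) k) (o : Fin r → ℕ)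
    (e : ℕ) {i : Fin r} (hi : w i = n) {J : Finset (Fin r)} (hJ : i ∈ J) (t : Test k) :
    zn f o ((t.gt H w n e).zs J) = zn f o ((t.zr.gt H w n e).zs J) := by
  classical
  obtain ⟨c, H', hc, hHc, hv⟩ := exists_lin hn hw hH hB hI hi
  have hev : ∀ p : Fin r → ℂ, aeval p H = algebraMap k ℂ c * p i + aeval p H' := by
    intro p
    conv_lhs => rw [hHc]
    rw [map_add, map_mul, aeval_C, aeval_X]
  have hev' : ∀ (p : Fin r → ℂ) (z : ℂ), aeval (Function.update p i z) H' = aeval p H' := by
    intro p z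
    refine eval₂Hom_congr' rfl (fun j hj _ => ?_) rfl
    rw [Function.update_of_ne]
    rintro rfl
    exact hv hj
  have hc' : algebraMap k ℂ c ≠ 0 := by
    intro h
    exact hc ((map_eq_zero _).1 h)
  unfold zn
  congr 1
  have hA : ∀ t' : TestN k r, ICons k {x : ((Σ i, τ i) × Fin (∑ i, o i + 1) → ℂ) × t'.E |
      x.2 ∈ t'.W ∧ ∀ i, Hit (f i) (o i) (spi i x.1) (t'.c x.2 i)} := fun t' =>
    (t'.cW.mem PMap.snd).and (ICons.forall_fin fun i => ICons.hit (o i) (f i)
      (PMap.comp (f := Mono.spi i) (PMap.spi i) PMap.fst)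
      (PFun.comp (f := fun c : Fin r → ℂ => c i) (PFun.apply i)
        (PMap.comp (f := t'.c) t'.pf PMap.snd)))
  have hg : PMap k (fun x : ((Σ i, τ i) × Fin (∑ i, o i + 1) → ℂ) × (t.E × (Fin r → ℂ)) =>
      (x.1, ((x.2.1, Function.update x.2.2 i
        (x.2.2 i - algebraMap k ℂ c⁻¹ * t.c x.2.1)) : t.E × (Fin r → ℂ)))) := by
    refine PMap.fst.prodMk ((PMap.fst.comp PMap.snd).prodMk (PMap.pi fun j => ?_))
    by_cases hj : j = i
    · subst hj
      simp only [Function.update_self]
      exact (PFun.comp (f := fun c : Fin r → ℂ => c j) (PFun.apply j)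
        (PMap.snd.comp PMap.snd)).sub ((PFun.const c⁻¹).mul
          (PFun.comp (f := t.c) t.pf (PMap.fst.comp PMap.snd)))
    · simp only [Function.update_of_ne hj]
      exact PFun.comp (f := fun c : Fin r → ℂ => c j) (PFun.apply j)
        (PMap.snd.comp PMap.snd)
  have hcc : algebraMap k ℂ c * algebraMap k ℂ c⁻¹ = 1 := by
    rw [← map_mul, mul_inv_cancel₀ hc, map_one]
  refine mo_bij (hA _) (hA _) hg ⟨?_, ?_, ?_⟩
  · rintro ⟨ψ, x, p⟩ ⟨⟨h1, h2, h3⟩, h4⟩
    refine ⟨⟨h1, fun j hj => ?_, ?_⟩, fun j => ?_⟩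
    · have hji : j ≠ i := by
        rintro rfl
        exact hj (hi ▸ dvd_mul_left _ _)
      show Function.update p i _ j = 0
      rw [Function.update_of_ne hji]
      exact h2 j hj
    · show aeval (Function.update p i (p i - algebraMap k ℂ c⁻¹ * t.c x)) H = 0
      have h3' : aeval p H = t.c x := h3
      rw [hev, hev', Function.update_self]
      rw [hev] at h3'
      linear_combination h3' - t.c x * hcc
    · have h5 := h4 j
      show Hit (f j) (o j) (spi j ψ) (if j ∈ J then 0 else Function.update p i _ j)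
      have h5' : Hit (f j) (o j) (spi j ψ) (if j ∈ J then 0 else p j) := h5
      by_cases hj : j ∈ J
      · rw [if_pos hj] at h5' ⊢
        exact h5'
      · rw [if_neg hj] at h5' ⊢
        have hji : j ≠ i := by
          rintro rfl
          exact hj hJ
        rw [Function.update_of_ne hji]
        exact h5'
  · intro y _ y' _ h
    obtain ⟨ψ, x, p⟩ := y
    obtain ⟨ψ', x', p'⟩ := y'
    have h1 : ψ = ψ' := congrArg Prod.fst h
    have h2 : x = x' := congrArg (fun z => z.2.1) h
    have h3 := congrArg (fun z => z.2.2) h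
    simp only at h3
    rw [← h2] at h3
    refine Prod.ext h1 (Prod.ext h2 (funext fun j => ?_))
    have h4 := congrFun h3 j
    by_cases hj : j = i
    · subst hj
      rw [Function.update_self, Function.update_self] at h4
      exact sub_left_injective h4
    · rw [Function.update_of_ne hj, Function.update_of_ne hj] at h4
      exact h4
  · rintro ⟨ψ, x, p⟩ ⟨⟨h1, h2, h3⟩, h4⟩
    refine ⟨(ψ, x, Function.update p i (p i + algebraMap k ℂ c⁻¹ * t.c x)),
      ⟨⟨h1, fun j hj => ?_, ?_⟩, fun j => ?_⟩, ?_⟩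
    · have hji : j ≠ i := by
        rintro rfl
        exact hj (hi ▸ dvd_mul_left _ _)
      show Function.update p i _ j = 0
      rw [Function.update_of_ne hji]
      exact h2 j hj
    · show aeval (Function.update p i (p i + algebraMap k ℂ c⁻¹ * t.c x)) H = t.c x
      have h3' : aeval p H = 0 := h3
      rw [hev, hev', Function.update_self]
      rw [hev] at h3'
      linear_combination h3' + t.c x * hcc
    · have h5 := h4 j
      show Hit (f j) (o j) (spi j ψ) (if j ∈ J then 0 else Function.update p i _ j)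
      have h5' : Hit (f j) (o j) (spi j ψ) (if j ∈ J then 0 else p j) := h5
      by_cases hj : j ∈ J
      · rw [if_pos hj] at h5' ⊢
        exact h5'
      · rw [if_neg hj] at h5' ⊢
        have hji : j ≠ i := by
          rintro rfl
          exact hj hJ
        rw [Function.update_of_ne hji]
        exact h5'
    · refine Prod.ext rfl (Prod.ext rfl (funext fun j => ?_))
      by_cases hj : j = i
      · subst hj
        simp
      · simp [hj]

end ME2

end Pool.Agent.H75.Mono
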