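import Pool.Agent.H75.Fib.ME2
import Pool.Agent.H75.Fib.GTE

/-! # FIB, module MF: rationality of the top level -/

set_option autoImplicit false

namespace Pool.Agent.H75.Mono

open MvPolynomial Pool.Agent.H39.MonoR

section MF

variable {k : Type} [Field k] [Algebra k ℂ] {r : ℕ} {τ : Fin r → Type} [∀ i, Finite (τ i)]

/-- the pairs of a gate -/
def gset {r : ℕ} (w : Fin r → ℕ) (n : ℕ) (S : Fin r → Set (ℤ × ℕ)) : Set (ℤ × ℕ) :=
  {q | ∃ p : Fin r → ℤ × ℕ, (∀ i, p i ∈ S i ∨ (w i ≠ n ∧ p i = (-1, 1))) ∧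
    q = scl n (cmbN w p)}

private theorem mf_zs_empty (f : ∀ i, MvPolynomial (τ i) k) (o : Fin r → ℕ) (t : TestN k r) :
    zn f o (t.zs ∅) = zn f o t := by
  have h : t.zs ∅ = t := by
    have h1 : (fun x i => if i ∈ (∅ : Finset (Fin r)) then (0 : ℂ) else t.c x i) = t.c := by
      funext x i
      rw [if_neg (Finset.notMem_empty i)]
    unfold TestN.zs
    simp only [h1]
  rw [h]

theorem top_rat {w : Fin r → ℕ} {n : ℕ} {H : MvPolynomial (Fin r) k} (hr : 0 < r) (hn : 0 < n)
    (hw : ∀ i, 0 < w i ∧ w i ≤ n) (hH : IsWeightedHomogeneous w H n) {B : Finset (Fin r)}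
    (hB : ∀ i ∈ B, w i < n) (hI : Isol H B) {f : ∀ i, MvPolynomial (τ i) k}
    {S : Fin r → Set (ℤ × ℕ)} (hS : ∀ i, ∀ p ∈ S i, 0 < p.2) (hf : ∀ i, Inv (f i) (S i)) :
    RatF (Lu k) (gset w n S) (fun t : Test k => PowerSeries.mk fun d =>
      zn f (fun i => d * w i / n) (t.gt H w n (d % n)) -
        zn f (fun i => d * w i / n) (t.zr.gt H w n (d % n))) := by
  classical
  set I : Finset (Fin r) := Finset.univ.filter fun i => w i = n with hIdef
  have hmem : ∀ i, i ∈ I ↔ w i = n := fun i => by simp [hIdef]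
  -- the marginals are equal
  have key : ∀ (o : Fin r → ℕ) (e : ℕ) (t : Test k),
      zd f I o (t.gt H w n e) - zd f I o (t.zr.gt H w n e) =
        zn f o (t.gt H w n e) - zn f o (t.zr.gt H w n e) := by
    intro o e t
    have h5 : ∀ t' : TestN k r, zd f I o t' = zn f o t' +
        ∑ J ∈ I.powerset.erase ∅, (-1) ^ J.card * zn f o (t'.zs J) := by
      intro t'
      unfold zd
      rw [← Finset.add_sum_erase _ _ (Finset.empty_mem_powerset I), mf_zs_empty,
        Finset.card_empty, pow_zero, one_mul]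
    have h6 : ∑ J ∈ I.powerset.erase ∅, (-1) ^ J.card * zn f o ((t.gt H w n e).zs J) =
        ∑ J ∈ I.powerset.erase ∅, (-1) ^ J.card * zn f o ((t.zr.gt H w n e).zs J) := by
      refine Finset.sum_congr rfl fun J hJ => ?_
      obtain ⟨hJ0, hJ⟩ := Finset.mem_erase.1 hJ
      obtain ⟨i, hi⟩ := Finset.nonempty_iff_ne_empty.2 hJ0
      have hi' : w i = n := (hmem i).1 (Finset.mem_powerset.1 hJ hi)
      rw [zn_marg hn hw hH hB hI f o e hi' hi t]
    rw [h5, h5, h6, add_sub_add_right_eq_sub]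
  set S' : Fin r → Set (ℤ × ℕ) := fun i => {p | p ∈ S i ∨ (w i ≠ n ∧ p = (-1, 1))} with hS'def
  have hS' : ∀ i, ∀ p ∈ S' i, 0 < p.2 := by
    rintro i p (hp | ⟨-, rfl⟩)
    · exact hS i p hp
    · exact Nat.one_pos
  have hrat : ∀ i, RatF (Lu k) (S' i) (fun x : (Fin r → ℕ) × TestN k r =>
      PowerSeries.mk fun m => zd f I (Function.update x.1 i m) x.2) := by
    intro i
    by_cases hi : w i = n
    · refine (zd_rat f I i (S := S i) (fun _ => hf i) (fun h => absurd ((hmem i).2 hi) h)).mono ?_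
      exact fun p hp => Or.inl hp
    · refine (zd_rat f I i (S := insert (-1, 1) (S i)) (fun h => absurd ((hmem i).1 h) hi)
        (fun _ => (hf i).zRat)).mono ?_
      rintro p (hp | hp)
      · exact Or.inr ⟨hi, hp⟩
      · exact Or.inl hp
  have h1 : RatF (Lu k) (scl n '' {q | ∃ p : Fin r → ℤ × ℕ, (∀ i, p i ∈ S' i) ∧ q = cmbN w p})
      (fun t : Test k => PowerSeries.mk fun d =>
        zn f (fun i => d * w i / n) (t.gt H w n (d % n)) -
        zn f (fun i => d * w i / n) (t.zr.gt H w n (d % n))) := by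
    refine RatF.interleave hn fun e he => ?_
    have h2 := RatF.diagN (u := Lu k) hr hS'
      (fun (x : Fin r → ℕ) (t : Test k) =>
        zd f I x (t.gt H w n e) - zd f I x (t.zr.gt H w n e))
      (fun i => by
        have h3 := ((hrat i).comp fun x : (Fin r → ℕ) × Test k => (x.1, x.2.gt H w n e)).sub
          ((hrat i).comp fun x : (Fin r → ℕ) × Test k => (x.1, x.2.zr.gt H w n e))
        rw [Set.union_self] at h3
        refine h3.congr fun x => ?_
        ext m
        simp only [map_sub, PowerSeries.coeff_mk]) w (fun i => e * w i / n) (fun i => (hw i).1)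
    refine h2.congr fun t => ?_
    ext j
    simp only [PowerSeries.coeff_mk]
    rw [key, Nat.mul_add_mod, Nat.mod_eq_of_lt he]
    have h4 : (fun i => w i * j + e * w i / n) = fun i => (n * j + e) * w i / n := by
      funext i
      rw [add_mul, mul_assoc, Nat.mul_add_div hn, mul_comm j]
    rw [h4]
  refine h1.mono ?_
  rintro _ ⟨_, ⟨p, hp, rfl⟩, rfl⟩
  exact ⟨p, hp, rfl⟩

end MF

end Pool.Agent.H75.Mono
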