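import Pool.Agent.H75.Fib.MF
import Pool.Agent.H75.Fib.BSE
import Pool.Agent.H75.Fib.LD
import Pool.Agent.H75.Fib.DIF

/-! # FIB, module MG: the relative series of a gate -/

set_option autoImplicit false

namespace Pool.Agent.H75.Mono

open MvPolynomial Pool.Agent.H39.MonoR

section MG

variable {k : Type} [Field k] [Algebra k ℂ] {r : ℕ} {τ : Fin r → Type} [∀ i, Finite (τ i)]

private theorem mg_sum {R : Type*} [CommRing R] {u : Rˣ} {S : Set (ℤ × ℕ)} {T J : Type*}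
    (s : Finset J) (F : J → T → PowerSeries R) (h : ∀ j ∈ s, RatF u S (F j)) :
    RatF u S (fun t => ∑ j ∈ s, F j t) := by
  classical
  induction s using Finset.induction_on with
  | empty =>
    refine RatF.of_fin 0 fun t n _ => ?_
    rw [Finset.sum_empty, map_zero]
  | insert i s hi ih =>
    have h1 := (h i (Finset.mem_insert_self i s)).add
      (ih fun j hj => h j (Finset.mem_insert_of_mem hj))
    rw [Set.union_self] at h1
    refine h1.congr fun t => ?_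
    rw [Finset.sum_insert hi]

private theorem mg_point {G : MvPolynomial (Fin r) k} (hr : 0 < r)
    {f : ∀ i, MvPolynomial (τ i) k} {a : k} {b : Fin r → k} {w : Fin r → ℕ} {n : ℕ}
    {B : Finset (Fin r)} (h3 : SWH w n B (shf G b a))
    (h4 : ∀ i ∈ B, w i < n ∧ Sm (f i) (algebraMap k ℂ (b i)))
    {S : Fin r → Set (ℤ × ℕ)} (hS : ∀ i, ∀ p ∈ S i, 0 < p.2)
    (hf : ∀ i, Inv (f i - C (b i)) (S i)) :
    ∃ F : Test k → PowerSeries (M k), RatF (Lu k) (gset w n S) F ∧ ∀ t : Test k, ∀ d : ℕ, 0 < d →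
      PowerSeries.coeff d (F t) =
      (lvl (fun i => f i - C (b i)) (shf G b a) d
          {ψ | ∀ i, PowerSeries.coeff 0 (us (fun i => f i - C (b i)) ψ i) = 0} t -
        lvl (fun i => f i - C (b i)) (shf G b a) d
          {ψ | ∀ i, PowerSeries.coeff 0 (us (fun i => f i - C (b i)) ψ i) = 0} t.zr) *
      ↑(Lu k ^ (-((Nat.card (Σ i, τ i) * d : ℕ) : ℤ))) := by
  obtain ⟨hn, hw, H, R, hG, hH, hR, hI⟩ := h3
  refine ⟨_, top_rat hr hn hw hH (fun i hi => (h4 i hi).1) hI hS hf, fun t d hd => ?_⟩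
  rw [PowerSeries.coeff_mk, hG, lvl_top hn hw hH hR hI (fun i => f i - C (b i))
    (fun i hi => sm_sub.2 (h4 i hi).2) hd t, sub_mul, topl_eq H hn hw, topl_eq H hn hw]

theorem Inv.gate {G : MvPolynomial (Fin r) k} (hr : 0 < r) {f : ∀ i, MvPolynomial (τ i) k} {a : k}
    {T : Finset (Fin r → k)}
    (h1 : ∀ x : Fin r → ℂ, aeval x G = algebraMap k ℂ a →
      (∀ i, aeval x (pderiv i G) = 0 ∨ ¬ Sm (f i) (x i)) →
        ∃ b ∈ T, ∀ i, x i = algebraMap k ℂ (b i))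
    (h2 : ∀ b ∈ T, eval b G = a) {w : (Fin r → k) → Fin r → ℕ} {n : (Fin r → k) → ℕ}
    {B : (Fin r → k) → Finset (Fin r)} (h3 : ∀ b ∈ T, SWH (w b) (n b) (B b) (shf G b a))
    (h4 : ∀ b ∈ T, ∀ i ∈ B b, w b i < n b ∧ Sm (f i) (algebraMap k ℂ (b i)))
    {S : (Fin r → k) → Fin r → Set (ℤ × ℕ)} (hS : ∀ b ∈ T, ∀ i, ∀ p ∈ S b i, 0 < p.2)
    (hf : ∀ b ∈ T, ∀ i, Inv (f i - C (b i)) (S b i)) :
    Inv (Mono.cmp G f - C a) {q | ∃ b ∈ T, q ∈ gset (w b) (n b) (S b)} := by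
  classical
  have key : ∀ b : Fin r → k, ∃ F : Test k → PowerSeries (M k), b ∈ T →
      RatF (Lu k) (gset (w b) (n b) (S b)) F ∧ ∀ t : Test k, ∀ d : ℕ, 0 < d →
      PowerSeries.coeff d (F t) =
      (lvl (fun i => f i - C (b i)) (shf G b a) d
          {ψ | ∀ i, PowerSeries.coeff 0 (us (fun i => f i - C (b i)) ψ i) = 0} t -
        lvl (fun i => f i - C (b i)) (shf G b a) d
          {ψ | ∀ i, PowerSeries.coeff 0 (us (fun i => f i - C (b i)) ψ i) = 0} t.zr) *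
      ↑(Lu k ^ (-((Nat.card (Σ i, τ i) * d : ℕ) : ℤ))) := by
    intro b
    by_cases hb : b ∈ T
    · obtain ⟨F, hF⟩ := mg_point hr (h3 b hb) (h4 b hb) (hS b hb) (hf b hb)
      exact ⟨F, fun _ => hF⟩
    · exact ⟨fun _ => 0, fun h => absurd h hb⟩
  choose F hF using key
  apply Inv.of_dif
  have h5 : RatF (Lu k) {q | ∃ b ∈ T, q ∈ gset (w b) (n b) (S b)}
      (fun t : Test k => ∑ b ∈ T, F b t) :=
    mg_sum T F fun b hb => (hF b hb).1.mono fun q hq => ⟨b, hb, hq⟩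
  refine h5.of_eventually 1 fun t d hd => ?_
  have hd0 : 0 < d := hd
  rw [PowerSeries.coeff_mk, if_neg (by omega), zt_base h1 h2 hd0 t, map_sum]
  exact Finset.sum_congr rfl fun b hb => (hF b hb).2 t d hd0

end MG

end Pool.Agent.H75.Mono
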