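import Pool.Agent.H75.Fib.F0

/-! # FIB, module NCR: arcs which start at noncritical points -/

set_option autoImplicit false

namespace Pool.Agent.H75.Mono

open MvPolynomial Pool.Agent.H39.MonoR

section NCR

variable {k : Type} [Field k] [Algebra k ℂ] {σ : Type}

private theorem ncr_org {d : ℕ} (φ : σ × Fin (d + 1) → ℂ) :
    (fun i => PowerSeries.constantCoeff (arc φ i)) = org φ := by
  funext i
  rw [← PowerSeries.coeff_zero_eq_constantCoeff_apply, coeff_arc, dif_pos (Nat.succ_pos d)]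
  rfl

theorem coeff_zero_arcEval {d : ℕ} (f : MvPolynomial σ k) (φ : σ × Fin (d + 1) → ℂ) :
    PowerSeries.coeff 0 (arcEval k φ f) = aeval (org φ) f := by
  rw [PowerSeries.coeff_zero_eq_constantCoeff_apply, arcEval, constantCoeff_aeval, ncr_org]

private theorem ncr_arc_update [DecidableEq σ] {N d : ℕ} (hN : d < N + 1)
    (φ : σ × Fin (N + 1) → ℂ) (i : σ) (ε : ℂ) :
    arc (Function.update φ (i, ⟨d, hN⟩) (φ (i, ⟨d, hN⟩) + ε)) =
      Function.update (arc φ) i (arc φ i + PowerSeries.X ^ d * PowerSeries.C ε) := by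
  funext j
  ext l
  rw [coeff_arc]
  by_cases hj : j = i
  · subst hj
    rw [Function.update_self, map_add, coeff_arc, PowerSeries.coeff_X_pow_mul']
    by_cases hl : l < N + 1
    · rw [dif_pos hl, dif_pos hl]
      by_cases hld : l = d
      · subst hld
        rw [Function.update_self, if_pos le_rfl, Nat.sub_self, PowerSeries.coeff_zero_C]
      · rw [Function.update_of_ne]
        · by_cases h1 : d ≤ l
          · rw [if_pos h1, PowerSeries.coeff_C, if_neg (by omega), add_zero]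
          · rw [if_neg h1, add_zero]
        · intro h
          apply hld
          have := congrArg (fun p => (p.2 : ℕ)) h
          exact this
    · rw [dif_neg hl, dif_neg hl]
      by_cases h1 : d ≤ l
      · rw [if_pos h1, PowerSeries.coeff_C, if_neg (by omega), add_zero]
      · rw [if_neg h1, add_zero]
  · rw [Function.update_of_ne hj, coeff_arc]
    by_cases hl : l < N + 1
    · rw [dif_pos hl, dif_pos hl, Function.update_of_ne]
      intro h
      exact hj (congrArg Prod.fst h)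
    · rw [dif_neg hl, dif_neg hl]

/-- a change of one coordinate of the arc in order `d` -/
theorem coeff_arcEval_add [DecidableEq σ] {N d : ℕ} (hd : 0 < d) (hN : d < N + 1)
    (f : MvPolynomial σ k) (φ : σ × Fin (N + 1) → ℂ) (i : σ) (ε : ℂ) :
    (∀ l, l < d → PowerSeries.coeff l (arcEval k
      (Function.update φ (i, ⟨d, hN⟩) (φ (i, ⟨d, hN⟩) + ε)) f) =
        PowerSeries.coeff l (arcEval k φ f)) ∧
    PowerSeries.coeff d (arcEval k
      (Function.update φ (i, ⟨d, hN⟩) (φ (i, ⟨d, hN⟩) + ε)) f) =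
        PowerSeries.coeff d (arcEval k φ f) + ε * aeval (org φ) (pderiv i f) := by
  obtain ⟨R, hR⟩ := aeval_update_add f (arc φ) i (PowerSeries.X ^ d * PowerSeries.C ε)
  have e : arcEval k (Function.update φ (i, ⟨d, hN⟩) (φ (i, ⟨d, hN⟩) + ε)) f =
      arcEval k φ f + PowerSeries.X ^ d * (PowerSeries.C ε * aeval (arc φ) (pderiv i f) +
        PowerSeries.X ^ d * (PowerSeries.C ε ^ 2 * R)) := by
    unfold arcEval
    rw [ncr_arc_update, hR]
    ring
  constructor
  · intro l hl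
    rw [e, map_add, PowerSeries.coeff_X_pow_mul', if_neg (by omega), add_zero]
  · rw [e, map_add, PowerSeries.coeff_X_pow_mul', if_pos le_rfl, Nat.sub_self,
      PowerSeries.coeff_zero_eq_constantCoeff_apply, map_add, map_mul, map_mul, map_pow,
      PowerSeries.constantCoeff_X, zero_pow hd.ne', zero_mul, add_zero,
      PowerSeries.constantCoeff_C, constantCoeff_aeval, ncr_org]

theorem PMap.org [Finite σ] {d : ℕ} : PMap k (fun φ : σ × Fin (d + 1) → ℂ => Mono.org φ) :=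
  PMap.pi fun i => PFun.apply (k := k) (i, 0)

private theorem ncr_org_update [DecidableEq σ] {d : ℕ} (hd : 0 < d)
    (φ : σ × Fin (d + 1) → ℂ) (i : σ) (a : ℂ) :
    org (Function.update φ (i, ⟨d, Nat.lt_succ_self d⟩) a) = org φ := by
  funext j
  unfold org
  rw [Function.update_of_ne]
  intro h
  have := congrArg (fun p => (p.2 : ℕ)) h
  have h2 : (0 : ℕ) = d := this
  omega

private theorem ncr_pder [Finite σ] (G : MvPolynomial σ k) :
    PFun k (fun p : σ → ℂ => aeval p G) := ⟨G, fun _ => rfl⟩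

private theorem ncr_cons [Finite σ] (F : MvPolynomial σ k) (d : ℕ) {P : Set (σ → ℂ)}
    (hP : ICons k P) (t : Test k) {c : t.E → ℂ} (hc : PFun k c) :
    ICons k {x : (σ × Fin (d + 1) → ℂ) × t.E | x.2 ∈ t.W ∧ org x.1 ∈ P ∧ Hit F d x.1 (c x.2)} :=
  (t.cW.mem PMap.snd).and ((hP.mem (PMap.comp (f := fun φ : σ × Fin (d + 1) → ℂ => Mono.org φ)
    PMap.org PMap.fst)).and (ICons.hit d F PMap.fst (hc.comp PMap.snd)))

/-- one stratum -/
private theorem ncr_stratum [Finite σ] (F : MvPolynomial σ k) {d : ℕ} (hd : 0 < d)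
    {P : Set (σ → ℂ)} (hP : ICons k P) (i : σ) (hi : ∀ p ∈ P, aeval p (pderiv i F) ≠ 0)
    (t : Test k) :
    mo k {x : (σ × Fin (d + 1) → ℂ) × t.E | x.2 ∈ t.W ∧ org x.1 ∈ P ∧
        Hit F d x.1 (t.c x.2)} =
    mo k {x : (σ × Fin (d + 1) → ℂ) × t.E | x.2 ∈ t.W ∧ org x.1 ∈ P ∧
        Hit F d x.1 0} := by
  classical
  have hA : ∀ c : t.E → ℂ, PFun k c → ICons k
      {y : ((σ × Fin (d + 1) → ℂ) × t.E) × ℂ |
        y.1 ∈ {x : (σ × Fin (d + 1) → ℂ) × t.E | x.2 ∈ t.W ∧ org x.1 ∈ P ∧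
          Hit F d x.1 (c x.2)} ∧ y.2 * aeval (org y.1.1) (pderiv i F) = t.c y.1.2} := by
    intro c hc
    refine ICons.and ((ncr_cons F d hP t hc).mem PMap.fst) (ICons.eq ?_ ?_)
    · refine PFun.mul (PFun.comp (f := fun x : ℂ => x) PFun.id' PMap.snd) ?_
      exact PFun.comp (f := fun p : σ → ℂ => aeval p (pderiv i F)) (ncr_pder _)
        (PMap.comp (f := fun φ : σ × Fin (d + 1) → ℂ => Mono.org φ) PMap.org
          (PMap.fst.comp PMap.fst))
    · exact t.pf.comp (PMap.snd.comp PMap.fst)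
  have h1 : ∀ c : t.E → ℂ, PFun k c →
      mo k {x : (σ × Fin (d + 1) → ℂ) × t.E | x.2 ∈ t.W ∧ org x.1 ∈ P ∧ Hit F d x.1 (c x.2)} =
      mo k {y : ((σ × Fin (d + 1) → ℂ) × t.E) × ℂ |
        y.1 ∈ {x : (σ × Fin (d + 1) → ℂ) × t.E | x.2 ∈ t.W ∧ org x.1 ∈ P ∧
          Hit F d x.1 (c x.2)} ∧ y.2 * aeval (org y.1.1) (pderiv i F) = t.c y.1.2} := by
    intro c hc
    refine (mo_bij (hA c hc) (ncr_cons F d hP t hc) (f := fun y => y.1) PMap.fst
      ⟨?_, ?_, ?_⟩).symm
    · intro y hy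
      exact hy.1
    · rintro ⟨x, ε⟩ hy ⟨x', ε'⟩ hy' he
      simp only at he
      subst he
      have h2 : ε * aeval (org x.1) (pderiv i F) = ε' * aeval (org x.1) (pderiv i F) :=
        hy.2.trans hy'.2.symm
      rw [mul_right_cancel₀ (hi _ hy.1.2.1) h2]
    · intro x hx
      refine ⟨(x, t.c x.2 / aeval (org x.1) (pderiv i F)), ⟨hx, ?_⟩, rfl⟩
      exact div_mul_cancel₀ _ (hi _ hx.2.1)
  rw [h1 t.c t.pf, h1 (fun _ => 0) PFun.zero]
  have hmap : PMap k (fun y : ((σ × Fin (d + 1) → ℂ) × t.E) × ℂ =>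
      ((Function.update y.1.1 (i, ⟨d, Nat.lt_succ_self d⟩)
        (y.1.1 (i, ⟨d, Nat.lt_succ_self d⟩) + -y.2), y.1.2), y.2)) := by
    refine PMap.prodMk (PMap.prodMk (PMap.pi fun q => ?_) (PMap.snd.comp PMap.fst)) PMap.snd
    have h3 : ∀ q : σ × Fin (d + 1), PFun k
        (fun y : ((σ × Fin (d + 1) → ℂ) × t.E) × ℂ => y.1.1 q) := fun q =>
      PFun.comp (f := fun φ : σ × Fin (d + 1) → ℂ => φ q) (PFun.apply q)
        (PMap.fst.comp PMap.fst)
    by_cases hq : q = (i, ⟨d, Nat.lt_succ_self d⟩)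
    · subst hq
      simp only [Function.update_self]
      exact (h3 _).add (PFun.comp (f := fun x : ℂ => x) PFun.id' PMap.snd).neg
    · simp only [Function.update_of_ne hq]
      exact h3 q
  refine mo_bij (hA _ t.pf) (hA _ PFun.zero) hmap ⟨?_, ?_, ?_⟩
  · rintro ⟨⟨φ, w⟩, ε⟩ ⟨⟨hw, ho, hh⟩, he⟩
    simp only at hw ho hh he
    have h2 := coeff_arcEval_add hd (Nat.lt_succ_self d) F φ i (-ε)
    refine ⟨⟨hw, ?_, ?_⟩, ?_⟩
    · simp only
      rw [ncr_org_update hd]
      exact ho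
    · simp only
      rw [hit_iff] at hh ⊢
      refine ⟨fun l hl => ?_, ?_⟩
      · rw [h2.1 l hl, hh.1 l hl]
      · rw [h2.2, hh.2, ← he]
        ring
    · simp only
      rw [ncr_org_update hd]
      exact he
  · rintro ⟨⟨φ, w⟩, ε⟩ _ ⟨⟨φ', w'⟩, ε'⟩ _ hxy
    simp only [Prod.mk.injEq] at hxy
    obtain ⟨⟨h2, h3⟩, h4⟩ := hxy
    subst h3 h4
    have : φ = φ' := by
      funext q
      have h5 := congrFun h2 q
      by_cases hq : q = (i, ⟨d, Nat.lt_succ_self d⟩)
      · subst hq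
        rw [Function.update_self, Function.update_self] at h5
        exact add_right_cancel h5
      · rwa [Function.update_of_ne hq, Function.update_of_ne hq] at h5
    rw [this]
  · rintro ⟨⟨φ, w⟩, ε⟩ ⟨⟨hw, ho, hh⟩, he⟩
    simp only at hw ho hh he
    have h2 := coeff_arcEval_add hd (Nat.lt_succ_self d) F φ i ε
    refine ⟨((Function.update φ (i, ⟨d, Nat.lt_succ_self d⟩)
      (φ (i, ⟨d, Nat.lt_succ_self d⟩) + ε), w), ε), ⟨⟨hw, ?_, ?_⟩, ?_⟩, ?_⟩
    · simp only
      rw [ncr_org_update hd]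
      exact ho
    · simp only
      rw [hit_iff] at hh ⊢
      refine ⟨fun l hl => ?_, ?_⟩
      · rw [h2.1 l hl, hh.1 l hl]
      · rw [h2.2, hh.2, ← he]
        ring
    · simp only
      rw [ncr_org_update hd]
      exact he
    · simp only [Function.update_idem, Function.update_self, add_neg_cancel_right,
        Function.update_eq_self]

/-- noncritical arcs are equidistributed -/
theorem mo_nc [Finite σ] (F : MvPolynomial σ k) {d : ℕ} (hd : 0 < d) {Q : Set (σ → ℂ)}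
    (hQ : ICons k Q) (t : Test k) :
    mo k {x : (σ × Fin (d + 1) → ℂ) × t.E | x.2 ∈ t.W ∧ org x.1 ∈ Q ∧
        (∃ i, aeval (org x.1) (pderiv i F) ≠ 0) ∧ Hit F d x.1 (t.c x.2)} =
    mo k {x : (σ × Fin (d + 1) → ℂ) × t.E | x.2 ∈ t.W ∧ org x.1 ∈ Q ∧
        (∃ i, aeval (org x.1) (pderiv i F) ≠ 0) ∧ Hit F d x.1 0} := by
  classical
  obtain ⟨n, ⟨e⟩⟩ := Finite.exists_equiv_fin σ
  -- the strata
  let P : Fin n → Set (σ → ℂ) := fun j => {p | p ∈ Q ∧ aeval p (pderiv (e.symm j) F) ≠ 0 ∧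
    ∀ j', j' < j → aeval p (pderiv (e.symm j') F) = 0}
  have hPc : ∀ j, ICons k (P j) := by
    intro j
    refine ICons.and hQ (ICons.and (ICons.ne (ncr_pder _) PFun.zero) (ICons.forall_fin fun j' => ?_))
    by_cases h : j' < j
    · have e1 : {x : σ → ℂ | j' < j → aeval x (pderiv (e.symm j') F) = 0} =
          {x : σ → ℂ | aeval x (pderiv (e.symm j') F) = 0} := by
        ext x; simp [h]
      rw [e1]
      exact ICons.eq (ncr_pder _) PFun.zero
    · have e1 : {x : σ → ℂ | j' < j → aeval x (pderiv (e.symm j') F) = 0} = Set.univ := by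
        ext x; simp [h]
      rw [e1]
      exact ICons.univ
  have hPe : ∀ p : σ → ℂ, (p ∈ Q ∧ ∃ i, aeval p (pderiv i F) ≠ 0) ↔
      ∃ j ∈ (Finset.univ : Finset (Fin n)), p ∈ P j := by
    intro p
    constructor
    · rintro ⟨h1, i, hi⟩
      let s : Finset (Fin n) := Finset.univ.filter fun j => aeval p (pderiv (e.symm j) F) ≠ 0
      have hs : s.Nonempty := ⟨e i, Finset.mem_filter.2 ⟨Finset.mem_univ _, by
        rw [Equiv.symm_apply_apply]; exact hi⟩⟩
      refine ⟨s.min' hs, Finset.mem_univ _, h1, (Finset.mem_filter.1 (s.min'_mem hs)).2,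
        fun j hj => ?_⟩
      by_contra hne
      have : s.min' hs ≤ j := s.min'_le j (Finset.mem_filter.2 ⟨Finset.mem_univ _, hne⟩)
      exact absurd hj (not_lt.2 this)
    · rintro ⟨j, -, h1, h2, -⟩
      exact ⟨h1, _, h2⟩
  have hPu : ∀ p : σ → ℂ, ∀ i j : Fin n, p ∈ P i → p ∈ P j → i = j := by
    intro p i j hi hj
    rcases lt_trichotomy i j with h | h | h
    · exact absurd (hj.2.2 i h) hi.2.1
    · exact h
    · exact absurd (hi.2.2 j h) hj.2.1
  have key : ∀ c : t.E → ℂ, PFun k c →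
      mo k {x : (σ × Fin (d + 1) → ℂ) × t.E | x.2 ∈ t.W ∧ org x.1 ∈ Q ∧
        (∃ i, aeval (org x.1) (pderiv i F) ≠ 0) ∧ Hit F d x.1 (c x.2)} =
      ∑ j ∈ (Finset.univ : Finset (Fin n)), mo k {x : (σ × Fin (d + 1) → ℂ) × t.E |
        x.2 ∈ t.W ∧ org x.1 ∈ P j ∧ Hit F d x.1 (c x.2)} := by
    intro c hc
    rw [← mo_biUnion]
    · congr 1
      ext x
      constructor
      · rintro ⟨h1, h2, h3, h4⟩
        obtain ⟨j, hj, hj2⟩ := (hPe _).1 ⟨h2, h3⟩
        exact ⟨j, hj, h1, hj2, h4⟩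
      · rintro ⟨j, hj, h1, h2, h4⟩
        obtain ⟨h5, h6⟩ := (hPe _).2 ⟨j, hj, h2⟩
        exact ⟨h1, h5, h6, h4⟩
    · exact fun j _ => ncr_cons F d (hPc j) t hc
    · intro i _ j _ hij
      rw [Set.disjoint_left]
      rintro x ⟨-, h1, -⟩ ⟨-, h2, -⟩
      exact hij (hPu _ i j h1 h2)
  have k1 := key t.c t.pf
  have k2 := key (fun _ => 0) PFun.zero
  rw [k1, k2]
  refine Finset.sum_congr rfl fun j _ => ?_
  exact ncr_stratum F hd (hPc j) (e.symm j) (fun p hp => hp.2.1) t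

end NCR

end Pool.Agent.H75.Mono
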