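import Pool.Agent.H75.Fib.F0

/-! # FIB, module RPA: reparametrisation of arcs -/

set_option autoImplicit false

namespace Pool.Agent.H75.Mono

open MvPolynomial Pool.Agent.H39.MonoR

section RPA

variable {k : Type} [Field k] [Algebra k ℂ] {σ : Type}

/-- the arc `φ(t + ε t^m)`, truncated -/
noncomputable def rp {N : ℕ} (m : ℕ) (ε : ℂ) (φ : σ × Fin N → ℂ) : σ × Fin N → ℂ :=
  fun p => (∑ l : Fin N, Polynomial.C (φ (p.1, l)) *
    (Polynomial.X + Polynomial.C ε * Polynomial.X ^ m) ^ (l : ℕ) : Polynomial ℂ).coeff p.2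

/-- the arc as a polynomial -/
private noncomputable def PP {N : ℕ} (φ : σ × Fin N → ℂ) (j : σ) : Polynomial ℂ :=
  ∑ l : Fin N, Polynomial.C (φ (j, l)) * Polynomial.X ^ (l : ℕ)

private theorem coe_PP {N : ℕ} (φ : σ × Fin N → ℂ) (j : σ) :
    ((PP φ j : Polynomial ℂ) : PowerSeries ℂ) = arc φ j := by
  unfold PP arc
  rw [← Polynomial.coeToPowerSeries.ringHom_apply, map_sum]
  apply Finset.sum_congr rfl
  intro l _
  rw [map_mul, map_pow, Polynomial.coeToPowerSeries.ringHom_apply,
    Polynomial.coeToPowerSeries.ringHom_apply, Polynomial.coe_C, Polynomial.coe_X]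

private theorem coe_aeval (P : σ → Polynomial ℂ) (f : MvPolynomial σ k) :
    ((aeval P f : Polynomial ℂ) : PowerSeries ℂ) =
      aeval (fun j => ((P j : Polynomial ℂ) : PowerSeries ℂ)) f := by
  induction f using MvPolynomial.induction_on with
  | C c =>
    rw [MvPolynomial.aeval_C, MvPolynomial.aeval_C]
    rw [Polynomial.algebraMap_apply, Polynomial.coe_C, PowerSeries.algebraMap_apply]
  | add p q hp hq => rw [map_add, map_add, Polynomial.coe_add, hp, hq]
  | mul_X p i hp => rw [map_mul, map_mul, Polynomial.coe_mul, hp, aeval_X, aeval_X]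

private theorem comp_aeval (P : σ → Polynomial ℂ) (S : Polynomial ℂ) (f : MvPolynomial σ k) :
    (aeval P f : Polynomial ℂ).comp S = aeval (fun j => (P j).comp S) f := by
  induction f using MvPolynomial.induction_on with
  | C c =>
    rw [MvPolynomial.aeval_C, MvPolynomial.aeval_C]
    rw [Polynomial.algebraMap_apply, Polynomial.C_comp]
  | add p q hp hq => rw [map_add, map_add, Polynomial.add_comp, hp, hq]
  | mul_X p i hp => rw [map_mul, map_mul, Polynomial.mul_comp, hp, aeval_X, aeval_X]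

private theorem pow_expand (y : Polynomial ℂ) (i : ℕ) :
    ∃ R : Polynomial ℂ, (1 + y) ^ i = 1 + Polynomial.C (i : ℂ) * y + y ^ 2 * R := by
  induction i with
  | zero => exact ⟨0, by simp⟩
  | succ i ih =>
    obtain ⟨R, hR⟩ := ih
    refine ⟨Polynomial.C (i : ℂ) + R + y * R, ?_⟩
    rw [pow_succ, hR]
    push_cast
    rw [Polynomial.C_add, Polynomial.C_1]
    ring

/-- the coefficients of `(t + ε t^m)^i` -/
private theorem coeff_S_pow {m : ℕ} (hm : 2 ≤ m) (ε : ℂ) (i : ℕ) {l : ℕ}
    (hl : l < i + 2 * (m - 1)) :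
    ((Polynomial.X + Polynomial.C ε * Polynomial.X ^ m : Polynomial ℂ) ^ i).coeff l =
      (if l = i then 1 else 0) + (if l = i + (m - 1) then (i : ℂ) * ε else 0) := by
  have h1 : (Polynomial.X + Polynomial.C ε * Polynomial.X ^ m : Polynomial ℂ) =
      Polynomial.X * (1 + Polynomial.C ε * Polynomial.X ^ (m - 1)) := by
    rw [mul_add, mul_one]
    congr 1
    have : m = (m - 1) + 1 := by omega
    conv_lhs => rw [this, pow_succ]
    ring
  obtain ⟨R, hR⟩ := pow_expand (Polynomial.C ε * Polynomial.X ^ (m - 1)) i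
  have h2 : (Polynomial.X + Polynomial.C ε * Polynomial.X ^ m : Polynomial ℂ) ^ i =
      Polynomial.X ^ i + Polynomial.C ((i : ℂ) * ε) * Polynomial.X ^ (i + (m - 1)) +
        Polynomial.X ^ (i + 2 * (m - 1)) * (Polynomial.C (ε ^ 2) * R) := by
    rw [h1, mul_pow, hR, Polynomial.C_mul, pow_add, pow_add, pow_mul', Polynomial.C_pow]
    ring
  rw [h2, Polynomial.coeff_add, Polynomial.coeff_add, Polynomial.coeff_X_pow,
    Polynomial.coeff_C_mul, Polynomial.coeff_X_pow, Polynomial.coeff_X_pow_mul',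
    if_neg (show ¬ (i + 2 * (m - 1) ≤ l) by omega), add_zero, mul_ite, mul_one, mul_zero]

private theorem coeff_comp {m μ : ℕ} (hm : 2 ≤ m) (hμ : 0 < μ) (ε : ℂ) (Q : Polynomial ℂ)
    (hQ : ∀ l, 0 < l → l < μ → Q.coeff l = 0) {l : ℕ} (hl : l + 1 ≤ μ + m) :
    (Q.comp (Polynomial.X + Polynomial.C ε * Polynomial.X ^ m)).coeff l =
      Q.coeff l + if l + 1 = μ + m then μ * ε * Q.coeff μ else 0 := by
  have h0 : Q.comp (Polynomial.X + Polynomial.C ε * Polynomial.X ^ m) =
      ∑ i ∈ Finset.range (Q.natDegree + 1), Polynomial.C (Q.coeff i) *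
        (Polynomial.X + Polynomial.C ε * Polynomial.X ^ m) ^ i := by
    rw [Polynomial.comp, Polynomial.eval₂_eq_sum_range]
  rw [h0, Polynomial.finsetSum_coeff]
  have h1 : ∀ i ∈ Finset.range (Q.natDegree + 1), (Polynomial.C (Q.coeff i) *
        (Polynomial.X + Polynomial.C ε * Polynomial.X ^ m) ^ i).coeff l =
      (if l = i then Q.coeff i else 0) +
        (if i = μ then (if l + 1 = μ + m then μ * ε * Q.coeff μ else 0) else 0) := by
    intro i _
    rw [Polynomial.coeff_C_mul]
    rcases Nat.eq_zero_or_pos i with rfl | hi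
    · rw [pow_zero, Polynomial.coeff_one, if_neg (show ¬ (0 = μ) by omega), add_zero,
        mul_ite, mul_one, mul_zero]
    · by_cases hiμ : i < μ
      · rw [hQ i hi hiμ, zero_mul, if_neg (show ¬ (i = μ) by omega), add_zero]
        split_ifs <;> rfl
      · rw [coeff_S_pow hm ε i (by omega), mul_add, mul_ite, mul_one, mul_zero]
        congr 1
        by_cases h3 : i = μ
        · subst h3
          rw [if_pos rfl]
          by_cases h4 : l = i + (m - 1)
          · rw [if_pos h4, if_pos (by omega)]; ring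
          · rw [if_neg h4, if_neg (by omega), mul_zero]
        · rw [if_neg h3, if_neg (by omega), mul_zero]
  rw [Finset.sum_congr rfl h1, Finset.sum_add_distrib, Finset.sum_ite_eq, Finset.sum_ite_eq']
  congr 1
  · by_cases h : l ∈ Finset.range (Q.natDegree + 1)
    · rw [if_pos h]
    · rw [if_neg h]
      symm
      apply Polynomial.coeff_eq_zero_of_natDegree_lt
      rw [Finset.mem_range] at h
      omega
  · by_cases h : μ ∈ Finset.range (Q.natDegree + 1)
    · rw [if_pos h]
    · rw [if_neg h]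
      have : Q.coeff μ = 0 := by
        apply Polynomial.coeff_eq_zero_of_natDegree_lt
        rw [Finset.mem_range] at h
        omega
      rw [this, mul_zero]
      split_ifs <;> rfl

/-- if `f(φ) = v_0 + v_μ t^μ + …` then `f(φ(t + ε t^m)) = f(φ) + μ ε v_μ t^(μ+m-1) + …` -/
theorem coeff_rp {N m μ : ℕ} (hm : 2 ≤ m) (hμ : 0 < μ) (f : MvPolynomial σ k)
    (φ : σ × Fin N → ℂ) (h : ∀ l, 0 < l → l < μ → PowerSeries.coeff l (arcEval k φ f) = 0)
    (ε : ℂ) {e : ℕ} (he : e + 1 = μ + m) (heN : e < N) :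
    (∀ l, l < e → PowerSeries.coeff l (arcEval k (rp m ε φ) f) =
      PowerSeries.coeff l (arcEval k φ f)) ∧
    PowerSeries.coeff e (arcEval k (rp m ε φ) f) = PowerSeries.coeff e (arcEval k φ f) +
      μ * ε * PowerSeries.coeff μ (arcEval k φ f) := by
  have e1 : arcEval k φ f = ((aeval (PP φ) f : Polynomial ℂ) : PowerSeries ℂ) := by
    rw [coe_aeval]
    unfold arcEval
    congr 2
    funext j
    exact (coe_PP φ j).symm
  have e2 : ∀ l, PowerSeries.coeff l (arcEval k φ f) = (aeval (PP φ) f : Polynomial ℂ).coeff l := by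
    intro l
    rw [e1, Polynomial.coeff_coe]
  have hcomp : ∀ j, (PP φ j).comp (Polynomial.X + Polynomial.C ε * Polynomial.X ^ m) =
      ∑ l : Fin N, Polynomial.C (φ (j, l)) *
        (Polynomial.X + Polynomial.C ε * Polynomial.X ^ m) ^ (l : ℕ) := by
    intro j
    unfold PP
    rw [Polynomial.sum_comp]
    apply Finset.sum_congr rfl
    intro l _
    rw [Polynomial.mul_comp, Polynomial.C_comp, Polynomial.X_pow_comp]
  have e3 : ∀ l, l < N → PowerSeries.coeff l (arcEval k (rp m ε φ) f) =
      ((aeval (PP φ) f : Polynomial ℂ).comp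
        (Polynomial.X + Polynomial.C ε * Polynomial.X ^ m)).coeff l := by
    intro l hl
    rw [comp_aeval, ← Polynomial.coeff_coe, coe_aeval]
    have h1 := arcEval_congr f (arc (rp m ε φ))
      (fun j => (((PP φ j).comp (Polynomial.X + Polynomial.C ε * Polynomial.X ^ m) :
        Polynomial ℂ) : PowerSeries ℂ)) N (by
      intro j
      rw [PowerSeries.X_pow_dvd_iff]
      intro l hl
      rw [map_sub, coeff_arc, dif_pos hl, Polynomial.coeff_coe, hcomp]
      unfold rp
      exact sub_self _)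
    rw [PowerSeries.X_pow_dvd_iff] at h1
    have h2 := h1 l hl
    rw [map_sub, sub_eq_zero] at h2
    exact h2
  have hQ : ∀ l, 0 < l → l < μ → (aeval (PP φ) f : Polynomial ℂ).coeff l = 0 := by
    intro l h1 h2
    rw [← e2]
    exact h l h1 h2
  refine ⟨?_, ?_⟩
  · intro l hl
    rw [e3 l (by omega), e2, coeff_comp hm hμ ε _ hQ (by omega), if_neg (by omega), add_zero]
  · rw [e3 e heN, e2, e2, coeff_comp hm hμ ε _ hQ (by omega), if_pos he]

end RPA

end Pool.Agent.H75.Mono
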