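import Pool.Agent.H75.Fib.RPA

/-! # FIB, module RPB: reparametrisations are polynomial bijections -/

set_option autoImplicit false

namespace Pool.Agent.H75.Mono

open MvPolynomial Pool.Agent.H39.MonoR

section RPB

variable {k : Type} [Field k] [Algebra k ℂ] {σ : Type}

/-- the matrix of the reparametrisation -/
private noncomputable def rpM (N m : ℕ) (ε : ℂ) : Matrix (Fin N) (Fin N) ℂ := fun l p =>
  ((Polynomial.X + Polynomial.C ε * Polynomial.X ^ m : Polynomial ℂ) ^ (l : ℕ)).coeff p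

private theorem rp_eq {N : ℕ} (m : ℕ) (ε : ℂ) (φ : σ × Fin N → ℂ) (j : σ) (p : Fin N) :
    rp m ε φ (j, p) = ∑ l : Fin N, φ (j, l) * rpM N m ε l p := by
  unfold rp rpM
  rw [Polynomial.finsetSum_coeff]
  apply Finset.sum_congr rfl
  intro l _
  rw [Polynomial.coeff_C_mul]

private theorem S_pow_eq {m : ℕ} (hm : 2 ≤ m) (ε : ℂ) (l : ℕ) :
    (Polynomial.X + Polynomial.C ε * Polynomial.X ^ m : Polynomial ℂ) ^ l =
      Polynomial.X ^ l * (1 + Polynomial.X * (Polynomial.C ε * Polynomial.X ^ (m - 2))) ^ l := by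
  rw [← mul_pow]
  congr 1
  rw [mul_add, mul_one]
  congr 1
  have : m = (m - 2) + 2 := by omega
  conv_lhs => rw [this, pow_add]
  ring

private theorem rpM_det {N m : ℕ} (hm : 2 ≤ m) (ε : ℂ) : (rpM N m ε).det = 1 := by
  rw [Matrix.det_of_isUpperTriangular]
  · apply Finset.prod_eq_one
    intro l _
    unfold rpM
    rw [S_pow_eq hm, Polynomial.coeff_X_pow_mul', if_pos le_rfl, Nat.sub_self,
      Polynomial.coeff_zero_eq_eval_zero]
    simp
  · intro l p hpl
    unfold rpM
    have hpl' : (p : ℕ) < l := hpl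
    rw [S_pow_eq hm, Polynomial.coeff_X_pow_mul', if_neg (by omega)]

theorem rp_bijective {N m : ℕ} (hm : 2 ≤ m) (ε : ℂ) :
    Function.Bijective (rp (σ := σ) (N := N) m ε) := by
  have hdet : IsUnit (rpM N m ε).det := by rw [rpM_det hm]; exact isUnit_one
  rw [Function.bijective_iff_has_inverse]
  refine ⟨fun ψ p => Matrix.vecMul (fun l => ψ (p.1, l)) (rpM N m ε)⁻¹ p.2, ?_, ?_⟩
  · intro φ
    funext p
    have h1 : (fun l => rp m ε φ (p.1, l)) = Matrix.vecMul (fun l => φ (p.1, l)) (rpM N m ε) := by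
      funext l
      rw [rp_eq]
      rfl
    show Matrix.vecMul (fun l => rp m ε φ (p.1, l)) (rpM N m ε)⁻¹ p.2 = φ p
    rw [h1, Matrix.vecMul_vecMul, Matrix.mul_nonsing_inv _ hdet, Matrix.vecMul_one]
  · intro ψ
    funext p
    obtain ⟨j, p⟩ := p
    rw [rp_eq]
    have h1 : ∑ l : Fin N, Matrix.vecMul (fun l => ψ (j, l)) (rpM N m ε)⁻¹ l * rpM N m ε l p =
        Matrix.vecMul (Matrix.vecMul (fun l => ψ (j, l)) (rpM N m ε)⁻¹) (rpM N m ε) p := rfl
    show ∑ l : Fin N, Matrix.vecMul (fun l => ψ (j, l)) (rpM N m ε)⁻¹ l * rpM N m ε l p = ψ (j, p)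
    rw [h1, Matrix.vecMul_vecMul, Matrix.nonsing_inv_mul _ hdet, Matrix.vecMul_one]

private theorem PFun_coeff (m l p : ℕ) : PFun k (fun ε : ℂ =>
    ((Polynomial.X + Polynomial.C ε * Polynomial.X ^ m : Polynomial ℂ) ^ l).coeff p) := by
  induction l generalizing p with
  | zero =>
    have e : (fun ε : ℂ => ((Polynomial.X + Polynomial.C ε * Polynomial.X ^ m :
        Polynomial ℂ) ^ 0).coeff p) = fun _ => algebraMap k ℂ (if p = 0 then 1 else 0) := by
      funext ε
      rw [pow_zero, Polynomial.coeff_one]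
      split_ifs <;> simp
    rw [e]
    exact PFun.const _
  | succ l ih =>
    have e : (fun ε : ℂ => ((Polynomial.X + Polynomial.C ε * Polynomial.X ^ m :
        Polynomial ℂ) ^ (l + 1)).coeff p) = fun ε => ∑ x ∈ Finset.HasAntidiagonal.antidiagonal p,
        ((Polynomial.X + Polynomial.C ε * Polynomial.X ^ m : Polynomial ℂ) ^ l).coeff x.1 *
        (algebraMap k ℂ (if x.2 = 1 then 1 else 0) + ε * algebraMap k ℂ (if x.2 = m then 1 else 0)) := by
      funext ε
      rw [pow_succ, Polynomial.coeff_mul]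
      apply Finset.sum_congr rfl
      intro x _
      congr 1
      rw [Polynomial.coeff_add, Polynomial.coeff_X, Polynomial.coeff_C_mul, Polynomial.coeff_X_pow]
      congr 1
      · by_cases h : x.2 = 1
        · rw [if_pos h.symm, if_pos h, map_one]
        · rw [if_neg (fun h' => h h'.symm), if_neg h, map_zero]
      · congr 1
        split_ifs <;> simp
    rw [e]
    apply PFun.sum
    intro x _
    apply PFun.mul (ih x.1)
    apply PFun.add (PFun.const _)
    exact PFun.mul PFun.id' (PFun.const _)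

theorem PMap.rp [Finite σ] {N : ℕ} (m : ℕ) :
    PMap k (fun x : ℂ × (σ × Fin N → ℂ) => Mono.rp m x.1 x.2) := by
  apply PMap.pi
  rintro ⟨j, p⟩
  have e : (fun x : ℂ × (σ × Fin N → ℂ) => Mono.rp m x.1 x.2 (j, p)) = fun x =>
      ∑ l : Fin N, x.2 (j, l) * rpM N m x.1 l p := by
    funext x
    exact rp_eq m x.1 x.2 j p
  rw [e]
  apply PFun.sum
  intro l _
  apply PFun.mul
  · exact PFun.comp (F := σ × Fin N → ℂ) (f := fun ψ => ψ (j, l)) (PFun.apply (j, l)) PMap.snd
  · exact PFun.comp (F := ℂ) (f := fun ε => rpM N m ε l p) (PFun_coeff m l p) PMap.fst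

end RPB

end Pool.Agent.H75.Mono
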