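import Pool.Agent.H75.Mono.VA

/-! # FIB, module VA2: the functional attached to a weighted homogeneous polynomial, `w i ≤ n` -/

set_option autoImplicit false

namespace Pool.Agent.H75.Mono

open MvPolynomial

section VA2

variable {k : Type} [Field k] [CharZero k] {r : ℕ}

omit [CharZero k] in
theorem va2_jac_wh {w : Fin r → ℕ} {n : ℕ} {G : MvPolynomial (Fin r) k}
    (hw : ∀ i, 0 < w i ∧ w i ≤ n) (hG : IsWeightedHomogeneous w G n) (B : Finset (Fin r))
    (i : Fin r) : IsWeightedHomogeneous w (jac G B i) (if i ∈ B then n - w i else n) := by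
  have h1 : IsWeightedHomogeneous w (pderiv i G) (n - w i) :=
    hG.pderiv (by have := hw i; omega)
  unfold jac
  by_cases hi : i ∈ B
  · simp only [hi, if_true]
    exact h1
  · simp only [hi, if_false]
    have h2 := (isWeightedHomogeneous_X k w i).mul h1
    have h3 : w i + (n - w i) = n := by have := hw i; omega
    rwa [h3] at h2

theorem va2_step' {w : Fin r → ℕ} {n : ℕ} {G : MvPolynomial (Fin r) k}
    (hw : ∀ i, 0 < w i ∧ w i ≤ n) (hG : IsWeightedHomogeneous w G n) {B : Finset (Fin r)}
    (hK : Koszul (jac G B)) (s : Fin r → ℚ) (m0 : ℕ) (Φ Ψ : MvPolynomial (Fin r) k →ₗ[k] k)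
    (h : ∀ i A, Φ (A * jac G B i) = Ψ (dop s B i A))
    (hs : ∀ A m, IsWeightedHomogeneous w A m → m ≠ m0 → Φ A = 0) :
    ∃ Φ' : MvPolynomial (Fin r) k →ₗ[k] k, (∀ i A, Φ' (A * jac G B i) = Φ (dop s B i A)) ∧
      ∀ A m, IsWeightedHomogeneous w A m → m ≠ m0 + n → Φ' A = 0 := by
  obtain ⟨Φ1, h1⟩ := va_step hK s Φ Ψ h
  refine ⟨Φ1 ∘ₗ weightedHomogeneousComponent w (m0 + n), fun i A => ?_, fun A m hA hm => ?_⟩
  · have key : ∀ d c, (Φ1 ∘ₗ weightedHomogeneousComponent w (m0 + n) ∘ₗ
        LinearMap.mulRight k (jac G B i)) (monomial d c) = (Φ ∘ₗ dopL s B i) (monomial d c) := by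
      intro d c
      rw [LinearMap.comp_apply, LinearMap.comp_apply, LinearMap.comp_apply, dopL_apply,
        LinearMap.mulRight_apply]
      have hA : IsWeightedHomogeneous w (monomial d c) (Finsupp.weight w d) :=
        isWeightedHomogeneous_monomial w d c rfl
      have hq := va2_jac_wh hw hG B i
      have hAq := hA.mul hq
      by_cases hi : i ∈ B
      · rw [if_pos hi] at hAq
        by_cases hm : Finsupp.weight w d + (n - w i) = m0 + n
        · rw [hm] at hAq
          rw [weightedHomogeneousComponent_eq_self hAq, h1]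
        · rw [hAq.weightedHomogeneousComponent_ne _ (Ne.symm hm), map_zero]
          unfold dop
          rw [if_pos hi]
          by_cases hd : d i = 0
          · rw [pderiv_monomial, hd, Nat.cast_zero, mul_zero, monomial_zero, map_zero]
          · have hwi : w i ≤ Finsupp.weight w d := Finsupp.le_weight_of_ne_zero' w hd
            have h3 : IsWeightedHomogeneous w (pderiv i (monomial d c))
                (Finsupp.weight w d - w i) := hA.pderiv (by omega)
            rw [hs _ _ h3]
            have := hw i
            omega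
      · rw [if_neg hi] at hAq
        by_cases hm : Finsupp.weight w d = m0
        · rw [hm] at hAq
          rw [weightedHomogeneousComponent_eq_self hAq, h1]
        · rw [hAq.weightedHomogeneousComponent_ne _ (by omega), map_zero, va_dop_monomial s hi,
            map_smul, hs _ _ hA hm, smul_zero]
    have := va_ext key A
    simpa [dopL_apply] using this
  · rw [LinearMap.comp_apply, hA.weightedHomogeneousComponent_ne _ (Ne.symm hm), map_zero]

/-- `exists_functional` of VA with `w i < n` only for `i ∈ B` -/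
theorem exists_functional2 {w : Fin r → ℕ} {n : ℕ} {G : MvPolynomial (Fin r) k} (hn : 0 < n)
    (hw : ∀ i, 0 < w i ∧ w i ≤ n) (hG : IsWeightedHomogeneous w G n) {B : Finset (Fin r)}
    (hB : ∀ i ∈ B, w i < n) (hK : Koszul (jac G B)) (s : Fin r → ℚ) (hs : ∀ i ∈ B, s i = 1) :
    ∃ Φ : ℕ → MvPolynomial (Fin r) k →ₗ[k] k, (∀ A, Φ 0 A = constantCoeff A) ∧
      (∀ j A m, IsWeightedHomogeneous w A m → m ≠ j * n → Φ j A = 0) ∧
      (∀ j i A, Φ (j + 1) (A * jac G B i) = Φ j (dop s B i A)) ∧
      (∀ j A, Φ (j + 1) (G * A) = (((∑ i, w i * s i) / n + j : ℚ) : k) * Φ j A) := by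
  classical
  have hsup0 : ∀ A m, IsWeightedHomogeneous w A m → m ≠ 0 → lcoeff k (0 : Fin r →₀ ℕ) A = 0 := by
    intro A m hA hm
    rw [lcoeff_apply]
    exact hA.coeff_eq_zero 0 (by rw [map_zero]; exact Ne.symm hm)
  let P : ℕ → (MvPolynomial (Fin r) k →ₗ[k] k) → Prop := fun j Φ =>
    (∃ Ψ : MvPolynomial (Fin r) k →ₗ[k] k, ∀ i A, Φ (A * jac G B i) = Ψ (dop s B i A)) ∧
      ∀ A m, IsWeightedHomogeneous w A m → m ≠ j * n → Φ A = 0
  have step : ∀ (j : ℕ) (Φ : {Φ // P j Φ}), ∃ Φ' : {Φ // P (j + 1) Φ},
      ∀ i A, Φ'.1 (A * jac G B i) = Φ.1 (dop s B i A) := by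
    rintro j ⟨Φ, ⟨Ψ, h1⟩, h2⟩
    obtain ⟨Φ', h3, h4⟩ := va2_step' hw hG hK s (j * n) Φ Ψ h1 h2
    refine ⟨⟨Φ', ⟨Φ, h3⟩, ?_⟩, h3⟩
    intro A m hA hm
    exact h4 A m hA (by rwa [Nat.succ_mul] at hm)
  choose nxt hnxt using step
  have h0 : P 0 (lcoeff k 0) := by
    refine ⟨⟨0, fun i A => ?_⟩, fun A m hA hm => hsup0 A m hA (by simpa using hm)⟩
    rw [LinearMap.zero_apply, lcoeff_apply]
    have h1 : coeff 0 (jac G B i) = 0 := by
      apply (va2_jac_wh hw hG B i).coeff_eq_zero
      rw [map_zero]
      by_cases hi : i ∈ B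
      · rw [if_pos hi]
        have := hB i hi
        omega
      · rw [if_neg hi]
        omega
    have h2 : coeff 0 (A * jac G B i) = coeff 0 A * coeff 0 (jac G B i) :=
      map_mul constantCoeff _ _
    rw [h2, h1, mul_zero]
  let seq : ∀ j : ℕ, {Φ // P j Φ} := fun j => Nat.rec ⟨lcoeff k 0, h0⟩ (fun j Φ => nxt j Φ) j
  have hsucc : ∀ j i A, (seq (j + 1)).1 (A * jac G B i) = (seq j).1 (dop s B i A) :=
    fun j i A => hnxt j (seq j) i A
  refine ⟨fun j => (seq j).1, ?_, fun j A m hA hm => (seq j).2.2 A m hA hm, hsucc, ?_⟩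
  · intro A
    change lcoeff k 0 A = _
    rw [lcoeff_apply, constantCoeff_eq]
  · intro j A
    have hn' : (n : k) ≠ 0 := by
      have : n ≠ 0 := by omega
      exact_mod_cast this
    have key : ∀ d c, ((seq (j + 1)).1 ∘ₗ LinearMap.mulLeft k G) (monomial d c) =
        ((((∑ i, w i * s i) / n + j : ℚ) : k) • (seq j).1) (monomial d c) := by
      intro d c
      rw [LinearMap.comp_apply, LinearMap.mulLeft_apply, LinearMap.smul_apply, smul_eq_mul]
      apply mul_left_cancel₀ hn'
      have e1 : (n : k) * (seq (j + 1)).1 (G * monomial d c) =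
          (seq (j + 1)).1 ((n • G) * monomial d c) := by
        rw [smul_mul_assoc, map_nsmul, nsmul_eq_mul]
      rw [e1, ← hG.sum_weight_X_mul_pderiv, Finset.sum_mul, map_sum]
      have e2 : ∀ i, (seq (j + 1)).1 ((w i • (X i * pderiv i G)) * monomial d c) =
          ((w i : k) * ((d i : k) + s i)) * (seq j).1 (monomial d c) := by
        intro i
        rw [smul_mul_assoc, map_nsmul, nsmul_eq_mul, mul_assoc (w i : k)]
        congr 1
        by_cases hi : i ∈ B
        · have e3 : X i * pderiv i G * monomial d c = (X i * monomial d c) * jac G B i := by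
            unfold jac
            rw [if_pos hi]
            ring
          rw [e3, hsucc]
          unfold dop
          rw [if_pos hi, pderiv_mul, pderiv_X_self, one_mul, X_mul_pderiv_monomial, map_add,
            map_nsmul, nsmul_eq_mul, hs i hi, Rat.cast_one]
          ring
        · have e3 : X i * pderiv i G * monomial d c = (monomial d c) * jac G B i := by
            unfold jac
            rw [if_neg hi]
            ring
          rw [e3, hsucc, va_dop_monomial s hi, map_smul, smul_eq_mul]
      rw [Finset.sum_congr rfl fun i _ => e2 i, ← Finset.sum_mul]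
      by_cases hm : Finsupp.weight w d = j * n
      · have e4 : ∑ i, (w i : k) * ((d i : k) + s i) =
            (n : k) * (((∑ i, w i * s i) / n + j : ℚ) : k) := by
          have e5 : ∑ i, (w i : k) * (d i : k) = (j : k) * n := by
            have := congrArg (fun x : ℕ => (x : k)) hm
            simp only [Finsupp.weight_apply, Nat.cast_mul] at this
            rw [← this, Finsupp.sum_fintype]
            · push_cast
              refine Finset.sum_congr rfl fun i _ => ?_
              rw [smul_eq_mul]
              push_cast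
              ring
            · intro i
              simp
          simp only [mul_add, Finset.sum_add_distrib]
          rw [e5]
          push_cast
          field_simp
          ring
        rw [e4, mul_assoc]
      · rw [(seq j).2.2 _ _ (isWeightedHomogeneous_monomial w d c rfl) hm, mul_zero, mul_zero,
          mul_zero]
    have := va_ext key A
    simpa using this

end VA2

end Pool.Agent.H75.Mono
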