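import Pool.Agent.H75.Fib.VA2
import Pool.Agent.H75.Fib.F0

/-! # FIB, module VS: functionals for semi-weighted homogeneous polynomials -/

set_option autoImplicit false

namespace Pool.Agent.H75.Mono

open MvPolynomial

section VS

variable {k : Type} [Field k] [CharZero k] {r : ℕ}

/-- binomial coefficients with arbitrary upper argument -/
noncomputable def vsb (x : k) : ℕ → k
  | 0 => 1
  | l + 1 => vsb x l * (x - l) / (l + 1)

omit [CharZero k] in
theorem vsb_zero (x : k) : vsb x 0 = 1 := rfl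

omit [CharZero k] in
theorem vsb_succ (x : k) (l : ℕ) : vsb x (l + 1) = vsb x l * (x - l) / (l + 1) := rfl

theorem vsb_q (x : k) (l : ℕ) : vsb x l * (x - l) = x * vsb (x - 1) l := by
  induction l with
  | zero => simp [vsb_zero]
  | succ l ih =>
    have hl : ((l : k) + 1) ≠ 0 := by exact_mod_cast Nat.succ_ne_zero l
    rw [vsb_succ, vsb_succ, ih]
    push_cast
    field_simp
    ring

theorem vsb_r (x : k) (l : ℕ) : ((l : k) + 1) * vsb x (l + 1) = x * vsb (x - 1) l := by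
  have hl : ((l : k) + 1) ≠ 0 := by exact_mod_cast Nat.succ_ne_zero l
  rw [vsb_succ, vsb_q]
  field_simp

theorem vsb_p (x : k) (l : ℕ) : vsb x (l + 1) = vsb (x - 1) (l + 1) + vsb (x - 1) l := by
  have hl : ((l : k) + 1) ≠ 0 := by exact_mod_cast Nat.succ_ne_zero l
  apply mul_left_cancel₀ hl
  rw [vsb_r, vsb_succ]
  field_simp
  ring

/-- all monomials have weight at least `a` -/
def VsLB (w : Fin r → ℕ) (a : ℕ) (A : MvPolynomial (Fin r) k) : Prop :=
  ∀ m, coeff m A ≠ 0 → a ≤ Finsupp.weight w m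

omit [CharZero k] in
theorem VsLB.mul {w : Fin r → ℕ} {a b : ℕ} {A A' : MvPolynomial (Fin r) k} (h : VsLB w a A)
    (h' : VsLB w b A') : VsLB w (a + b) (A * A') := by
  classical
  intro m hm
  rw [coeff_mul] at hm
  obtain ⟨p, hp, hp'⟩ := Finset.exists_ne_zero_of_sum_ne_zero hm
  rw [Finset.HasAntidiagonal.mem_antidiagonal] at hp
  rw [← hp, map_add]
  exact add_le_add (h _ (left_ne_zero_of_mul hp')) (h' _ (right_ne_zero_of_mul hp'))

omit [CharZero k] in
theorem VsLB.pow {w : Fin r → ℕ} {a : ℕ} {A : MvPolynomial (Fin r) k} (h : VsLB w a A) (l : ℕ) :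
    VsLB w (l * a) (A ^ l) := by
  induction l with
  | zero => intro m _; rw [Nat.zero_mul]; exact Nat.zero_le _
  | succ l ih =>
    rw [pow_succ, Nat.succ_mul]
    exact ih.mul h

omit [CharZero k] in
theorem VsLB.zero {w : Fin r → ℕ} (A : MvPolynomial (Fin r) k) : VsLB w 0 A :=
  fun _ _ => Nat.zero_le _

omit [CharZero k] in
theorem vs_supp {w : Fin r → ℕ} {N : ℕ} {Φ : MvPolynomial (Fin r) k →ₗ[k] k}
    (h : ∀ A m, IsWeightedHomogeneous w A m → m ≠ N → Φ A = 0) {A : MvPolynomial (Fin r) k}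
    (hA : ∀ m, coeff m A ≠ 0 → Finsupp.weight w m ≠ N) : Φ A = 0 := by
  rw [A.as_sum, map_sum]
  refine Finset.sum_eq_zero fun m hm => ?_
  rw [mem_support_iff] at hm
  exact h _ _ (isWeightedHomogeneous_monomial w m _ rfl) (hA m hm)

omit [CharZero k] in
theorem vs_jac_pow (B : Finset (Fin r)) (i : Fin r) (R : MvPolynomial (Fin r) k) (l : ℕ) :
    jac (R ^ (l + 1)) B i = C ((l : k) + 1) * (R ^ l * jac R B i) := by
  induction l with
  | zero => simp
  | succ l ih =>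
    rw [pow_succ R (l + 1), va_jac_mul, ih]
    push_cast
    rw [C_add, C_add, C_1, pow_succ]
    simp only [C_add, C_1]
    ring

omit [CharZero k] in
theorem vs_jac_one (B : Finset (Fin r)) (i : Fin r) :
    jac (1 : MvPolynomial (Fin r) k) B i = 0 := by
  unfold jac
  split_ifs <;> simp

theorem exists_functional3 {w : Fin r → ℕ} {n : ℕ} {H R : MvPolynomial (Fin r) k} (hn : 0 < n)
    (hw : ∀ i, 0 < w i ∧ w i ≤ n) (hH : IsWeightedHomogeneous w H n) (hR : ∀ m, coeff m R ≠ 0 →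
      n < Finsupp.weight w m) {B : Finset (Fin r)} (hB : ∀ i ∈ B, w i < n)
    (hK : Koszul (jac H B)) (s : Fin r → ℚ) (hs : ∀ i ∈ B, s i = 1)
    (hpos : (0 : ℚ) < (∑ i, w i * s i) / n) :
    ∃ Ψ : ℕ → MvPolynomial (Fin r) k →ₗ[k] k, (∀ A, Ψ 0 A = constantCoeff A) ∧
      (∀ (j : ℕ) (A : MvPolynomial (Fin r) k),
        (∀ m, coeff m A ≠ 0 → j * n < Finsupp.weight w m) → Ψ j A = 0) ∧
      (∀ (j : ℕ) (A : MvPolynomial (Fin r) k), Ψ (j + 1) ((H + R) * A) = Ψ j A) ∧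
      (∀ (j : ℕ) (i : Fin r) (A : MvPolynomial (Fin r) k),
        (((∑ i, w i * s i) / n + j : ℚ) : k) * Ψ (j + 1) (A * jac (H + R) B i) =
          Ψ j (dop s B i A)) := by
  classical
  obtain ⟨Φ, h0, h1, h2, h3⟩ := exists_functional2 hn hw hH hB hK s hs
  obtain ⟨σ, hσ⟩ : ∃ σ : ℚ, σ = (∑ i, w i * s i) / n := ⟨_, rfl⟩
  rw [← hσ] at hpos h3
  rw [← hσ]
  have hne : ∀ j : ℕ, ((σ + j : ℚ) : k) ≠ 0 := by
    intro j
    have : (0 : ℚ) < σ + j := by positivity
    exact_mod_cast this.ne'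
  -- normalised functionals
  obtain ⟨c, hc0, hc⟩ : ∃ c : ℕ → k, c 0 = 1 ∧ ∀ j, c (j + 1) * ((σ + j : ℚ) : k) = c j := by
    refine ⟨fun j => ∏ i ∈ Finset.range j, (((σ + i : ℚ) : k))⁻¹, by simp, fun j => ?_⟩
    simp only [Finset.prod_range_succ]
    rw [mul_assoc, inv_mul_cancel₀ (hne j), mul_one]
  obtain ⟨Ψ, hΨ⟩ : ∃ Ψ : ℕ → MvPolynomial (Fin r) k →ₗ[k] k, ∀ j, Ψ j = c j • Φ j :=
    ⟨_, fun _ => rfl⟩
  have p0 : ∀ A, Ψ 0 A = constantCoeff A := by
    intro A
    rw [hΨ, hc0, one_smul, h0]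
  have p1 : ∀ (j : ℕ) (A : MvPolynomial (Fin r) k),
      (∀ m, coeff m A ≠ 0 → j * n < Finsupp.weight w m) → Ψ j A = 0 := by
    intro j A hA
    rw [hΨ, LinearMap.smul_apply, vs_supp (h1 j) (fun m hm => (hA m hm).ne'), smul_zero]
  have p3 : ∀ (j : ℕ) (A : MvPolynomial (Fin r) k), Ψ (j + 1) (H * A) = Ψ j A := by
    intro j A
    rw [hΨ, hΨ, LinearMap.smul_apply, LinearMap.smul_apply, h3, smul_eq_mul, smul_eq_mul,
      ← mul_assoc, hc]
  have p4 : ∀ (j : ℕ) (i : Fin r) (A : MvPolynomial (Fin r) k),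
      ((σ + j : ℚ) : k) * Ψ (j + 1) (A * jac H B i) = Ψ j (dop s B i A) := by
    intro j i A
    rw [hΨ, hΨ, LinearMap.smul_apply, LinearMap.smul_apply, h2, smul_eq_mul, smul_eq_mul,
      ← mul_assoc, mul_comm ((σ + j : ℚ) : k), hc]
  -- vanishing of the terms of high index
  have hLR : VsLB w (n + 1) R := fun m hm => hR m hm
  have hT : ∀ (j l : ℕ) (A : MvPolynomial (Fin r) k), j * n < l → Ψ (j + l) (R ^ l * A) = 0 := by
    intro j l A hl
    apply p1
    intro m hm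
    have h := (hLR.pow l).mul (VsLB.zero A) m hm
    nlinarith
  obtain ⟨Θ, hΘ⟩ : ∃ Θ : ℕ → MvPolynomial (Fin r) k →ₗ[k] k, ∀ j, Θ j =
      ∑ l ∈ Finset.range (j * n + 1), vsb (-((σ + j : ℚ) : k)) l •
        (Ψ (j + l) ∘ₗ LinearMap.mulLeft k (R ^ l)) := ⟨_, fun _ => rfl⟩
  have hΘ' : ∀ (j N : ℕ) (A : MvPolynomial (Fin r) k), j * n + 1 ≤ N →
      Θ j A = ∑ l ∈ Finset.range N, vsb (-((σ + j : ℚ) : k)) l * Ψ (j + l) (R ^ l * A) := by
    intro j N A hN
    rw [hΘ, LinearMap.sum_apply]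
    have e : ∀ l, (vsb (-((σ + j : ℚ) : k)) l • (Ψ (j + l) ∘ₗ LinearMap.mulLeft k (R ^ l))) A
        = vsb (-((σ + j : ℚ) : k)) l * Ψ (j + l) (R ^ l * A) := fun l => by
      rw [LinearMap.smul_apply, LinearMap.comp_apply, LinearMap.mulLeft_apply, smul_eq_mul]
    rw [Finset.sum_congr rfl fun l _ => e l]
    apply Finset.sum_subset
    · exact Finset.range_mono hN
    · intro l _ hl
      rw [Finset.mem_range, not_lt] at hl
      rw [hT j l A (by omega), mul_zero]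
  have hx : ∀ j : ℕ, -((σ + (j + 1 : ℕ) : ℚ) : k) = -((σ + j : ℚ) : k) - 1 := by
    intro j
    push_cast
    ring
  refine ⟨Θ, ?_, ?_, ?_, ?_⟩
  · intro A
    rw [hΘ' 0 1 A (by omega), Finset.sum_range_one, vsb_zero, pow_zero, one_mul, one_mul, p0]
  · intro j A hA
    rw [hΘ' j (j * n + 1) A le_rfl]
    refine Finset.sum_eq_zero fun l _ => ?_
    rw [p1, mul_zero]
    intro m hm
    have hA' : VsLB w (j * n + 1) A := fun m hm => hA m hm
    have h := (hLR.pow l).mul hA' m hm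
    nlinarith
  · intro j A
    obtain ⟨x, hxd⟩ : ∃ x : k, x = -((σ + j : ℚ) : k) := ⟨_, rfl⟩
    have hN1 : (j + 1) * n + 1 ≤ (j + 1) * n + 1 := le_rfl
    have hN2 : j * n + 1 ≤ (j + 1) * n + 1 + 1 := by nlinarith
    rw [hΘ' (j + 1) ((j + 1) * n + 1) _ hN1, hΘ' j ((j + 1) * n + 1 + 1) _ hN2, hx, ← hxd]
    have e1 : ∀ l, Ψ (j + 1 + l) (R ^ l * ((H + R) * A)) =
        Ψ (j + l) (R ^ l * A) + Ψ (j + (l + 1)) (R ^ (l + 1) * A) := by
      intro l
      have e : R ^ l * ((H + R) * A) = H * (R ^ l * A) + R ^ (l + 1) * A := by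
        rw [pow_succ]
        ring
      have e' : j + 1 + l = (j + l) + 1 := by ring
      rw [e, map_add, e', p3]
      rfl
    simp only [e1, mul_add, Finset.sum_add_distrib]
    rw [Finset.sum_range_succ' (fun l => vsb x l * Ψ (j + l) (R ^ l * A))]
    have e2 : ∑ l ∈ Finset.range ((j + 1) * n + 1), vsb (x - 1) l * Ψ (j + l) (R ^ l * A)
        = ∑ l ∈ Finset.range ((j + 1) * n + 1 + 1), vsb (x - 1) l * Ψ (j + l) (R ^ l * A) := by
      rw [Finset.sum_range_succ _ ((j + 1) * n + 1), hT j ((j + 1) * n + 1) A (by nlinarith),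
        mul_zero, add_zero]
    rw [e2, Finset.sum_range_succ' (fun l => vsb (x - 1) l * Ψ (j + l) (R ^ l * A)), vsb_zero,
      vsb_zero]
    rw [add_right_comm, ← Finset.sum_add_distrib]
    congr 1
    refine Finset.sum_congr rfl fun l _ => ?_
    rw [vsb_p x l]
    ring
  · intro j i A
    obtain ⟨x, hxd⟩ : ∃ x : k, x = -((σ + j : ℚ) : k) := ⟨_, rfl⟩
    obtain ⟨M, hM⟩ : ∃ M, M = (j + 1) * n + 1 := ⟨_, rfl⟩
    have hN1 : (j + 1) * n + 1 ≤ M + 1 := by omega
    have hN2 : j * n + 1 ≤ M + 1 := by rw [hM]; nlinarith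
    rw [hΘ' (j + 1) (M + 1) _ hN1, hΘ' j (M + 1) _ hN2, hx, ← hxd]
    have hxs : ((σ + j : ℚ) : k) = -x := by rw [hxd, neg_neg]
    -- the terms
    obtain ⟨W, hW⟩ : ∃ W : ℕ → k, ∀ l, W l = Ψ (j + 1 + l) (R ^ l * (A * jac R B i)) :=
      ⟨_, fun _ => rfl⟩
    obtain ⟨Z, hZ⟩ : ∃ Z : ℕ → k, ∀ l, Z l = Ψ (j + l) (A * jac (R ^ l) B i) :=
      ⟨_, fun _ => rfl⟩
    have hWM : W M = 0 := by
      rw [hW]
      exact hT (j + 1) M _ (by omega)
    have hZ0 : Z 0 = 0 := by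
      rw [hZ, pow_zero, vs_jac_one, mul_zero, map_zero]
    have hZs : ∀ l, Z (l + 1) = ((l : k) + 1) * W l := by
      intro l
      rw [hZ, hW, vs_jac_pow]
      have e : A * (C ((l : k) + 1) * (R ^ l * jac R B i)) =
          ((l : k) + 1) • (R ^ l * (A * jac R B i)) := by
        rw [smul_eq_C_mul]
        ring
      have e' : j + (l + 1) = j + 1 + l := by ring
      rw [e, map_smul, smul_eq_mul, e']
    have e1 : ∀ l, -x * (vsb (x - 1) l * Ψ (j + 1 + l) (R ^ l * (A * jac (H + R) B i))) =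
        vsb x l * Ψ (j + l) (R ^ l * dop s B i A) + vsb x l * Z l - x * vsb (x - 1) l * W l := by
      intro l
      have e : R ^ l * (A * jac (H + R) B i) =
          (A * R ^ l) * jac H B i + R ^ l * (A * jac R B i) := by
        rw [va_jac_add]
        ring
      have e' : j + 1 + l = (j + l) + 1 := by ring
      have e3 : (-(x - l)) * Ψ (j + l + 1) ((A * R ^ l) * jac H B i) =
          Ψ (j + l) (R ^ l * dop s B i A) + Z l := by
        have h := p4 (j + l) i (A * R ^ l)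
        rw [va_dop_mul, map_add, ← hZ l] at h
        have e4 : ((σ + (j + l : ℕ) : ℚ) : k) = -(x - l) := by
          rw [hxd]
          push_cast
          ring
        rw [e4] at h
        rw [h, mul_comm (R ^ l) (dop s B i A)]
      rw [e, map_add, ← hW l]
      have e5 : j + 1 + l = j + l + 1 := e'
      rw [e5]
      have e6 := vsb_q x l
      linear_combination vsb x l * e3 + (-1 : k) * (-(Ψ (j + l + 1) ((A * R ^ l) * jac H B i))) * e6
    rw [hxs, Finset.mul_sum, Finset.sum_congr rfl fun l _ => e1 l, Finset.sum_sub_distrib,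
      Finset.sum_add_distrib, add_sub_assoc, add_eq_left, sub_eq_zero,
      Finset.sum_range_succ' (fun l => vsb x l * Z l), hZ0, mul_zero, add_zero,
      Finset.sum_range_succ, hWM, mul_zero, add_zero]
    refine Finset.sum_congr rfl fun l _ => ?_
    rw [hZs, ← vsb_r x l]
    ring

end VS

end Pool.Agent.H75.Mono
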